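import Pool.Agent.Run7.h692.SelfInj2

set_option autoImplicit false
set_option linter.unusedSectionVars false
open scoped TensorProduct
open CategoryTheory MulOpposite Pool.Agent.Helper426Tach Pool.Agent.Helper426GSC
  Pool.Agent.Helper426TauT

namespace Run7.h692

/-- the conditions defining `A` Gorenstein projective as a bimodule (frozen form) -/
theorem gp_of_selfinj (k : Type) [Field k] (A : Type) [Ring A] [Algebra k A]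
    [FiniteDimensional k A] [Module (A ⊗[k] Aᵐᵒᵖ) A]
    (hc : ∀ (a : A) (b : Aᵐᵒᵖ) (x : A), (a ⊗ₜ[k] b) • x = a * x * MulOpposite.unop b)
    [HasExt.{1} (ModuleCat.{0} (A ⊗[k] Aᵐᵒᵖ))]
    [HasExt.{1} (ModuleCat.{0} ((A ⊗[k] Aᵐᵒᵖ)ᵐᵒᵖ))] (hA : Module.Injective A A) :
      ((∀ m : A, (∀ f : A →ₗ[A ⊗[k] Aᵐᵒᵖ] (A ⊗[k] Aᵐᵒᵖ), f m = 0) → m = 0) ∧
       (∀ φ : (A →ₗ[A ⊗[k] Aᵐᵒᵖ] (A ⊗[k] Aᵐᵒᵖ)) →ₗ[((A ⊗[k] Aᵐᵒᵖ)ᵐᵒᵖ)] (A ⊗[k] Aᵐᵒᵖ),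
          ∃ m : A, ∀ f : A →ₗ[A ⊗[k] Aᵐᵒᵖ] (A ⊗[k] Aᵐᵒᵖ), φ f = f m) ∧
       (∀ i : ℕ, 1 ≤ i →
          Subsingleton (Abelian.Ext.{1} (ModuleCat.of (A ⊗[k] Aᵐᵒᵖ) A)
            (ModuleCat.of (A ⊗[k] Aᵐᵒᵖ) (A ⊗[k] Aᵐᵒᵖ)) i)) ∧
       (∀ i : ℕ, 1 ≤ i →
          Subsingleton (Abelian.Ext.{1}
            (ModuleCat.of ((A ⊗[k] Aᵐᵒᵖ)ᵐᵒᵖ) (A →ₗ[A ⊗[k] Aᵐᵒᵖ] (A ⊗[k] Aᵐᵒᵖ)))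
            (ModuleCat.of ((A ⊗[k] Aᵐᵒᵖ)ᵐᵒᵖ) (A ⊗[k] Aᵐᵒᵖ)) i))) := by
  have hL : Module.Injective (A ⊗[k] Aᵐᵒᵖ) (A ⊗[k] Aᵐᵒᵖ) := env_injective hA
  have hfo : Module.Finite k Aᵐᵒᵖ := Module.Finite.equiv (MulOpposite.opLinearEquiv k)
  have hfL : Module.Finite k (A ⊗[k] Aᵐᵒᵖ) := inferInstance
  have hLop : Module.Injective (A ⊗[k] Aᵐᵒᵖ)ᵐᵒᵖ (A ⊗[k] Aᵐᵒᵖ) := inj_op_of_inj k hL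
  have hfA : Module.Finite (A ⊗[k] Aᵐᵒᵖ) A := by
    refine Module.Finite.of_surjective (LinearMap.toSpanSingleton (A ⊗[k] Aᵐᵒᵖ) A 1)
      (fun a => ⟨a ⊗ₜ[k] 1, ?_⟩)
    rw [LinearMap.toSpanSingleton_apply, hc, mul_one, unop_one, mul_one]
  refine ⟨fun m hm => torsionless_of_inj k hL A m hm, fun φ => reflexive_of_inj k hL A φ, ?_, ?_⟩
  · intro i hi
    obtain ⟨j, rfl⟩ : ∃ j, i = j + 1 := ⟨i - 1, by omega⟩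
    have h0 := ez_injective (X := ModuleCat.of (A ⊗[k] Aᵐᵒᵖ) A)
      (I := ModuleCat.of (A ⊗[k] Aᵐᵒᵖ) (A ⊗[k] Aᵐᵒᵖ)) hL j
    exact (Abelian.Ext.chgUniv.{1, 0} (X := ModuleCat.of (A ⊗[k] Aᵐᵒᵖ) A)
      (Y := ModuleCat.of (A ⊗[k] Aᵐᵒᵖ) (A ⊗[k] Aᵐᵒᵖ)) (n := j + 1)).symm.subsingleton
  · intro i hi
    obtain ⟨j, rfl⟩ : ∃ j, i = j + 1 := ⟨i - 1, by omega⟩
    have h0 := ez_injective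
      (X := ModuleCat.of ((A ⊗[k] Aᵐᵒᵖ)ᵐᵒᵖ) (A →ₗ[A ⊗[k] Aᵐᵒᵖ] (A ⊗[k] Aᵐᵒᵖ)))
      (I := ModuleCat.of ((A ⊗[k] Aᵐᵒᵖ)ᵐᵒᵖ) (A ⊗[k] Aᵐᵒᵖ)) hLop j
    exact (Abelian.Ext.chgUniv.{1, 0}
      (X := ModuleCat.of ((A ⊗[k] Aᵐᵒᵖ)ᵐᵒᵖ) (A →ₗ[A ⊗[k] Aᵐᵒᵖ] (A ⊗[k] Aᵐᵒᵖ)))
      (Y := ModuleCat.of ((A ⊗[k] Aᵐᵒᵖ)ᵐᵒᵖ) (A ⊗[k] Aᵐᵒᵖ)) (n := j + 1)).symm.subsingleton

end Run7.h692
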