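import Pool.Agent.Run7.h692.GendoSeq
import Pool.Agent.H546R3.YamEnd

set_option autoImplicit false
set_option linter.unusedSectionVars false
open scoped TensorProduct

namespace Run7.h692

section Mat

variable {A : Type} [Ring A] {ι ι' : Type} [Fintype ι] [DecidableEq ι]

theorem mat_expand (δ : (ι → A) →+ (ι' → A)) (hδ : ∀ v c, δ (fun i => v i * c) = fun i => δ v i * c)
    (v : ι → A) (s : ι') : δ v s = ∑ i, δ (Pi.single i 1) s * v i := by
  have h1 : v = ∑ i, (fun j => (Pi.single i (1 : A) : ι → A) j * v i) := by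
    funext j
    rw [Finset.sum_apply, Finset.sum_eq_single j]
    · rw [Pi.single_eq_same, one_mul]
    · intro i _ hij
      rw [Pi.single_eq_of_ne (Ne.symm hij), zero_mul]
    · intro h; exact absurd (Finset.mem_univ j) h
  conv_lhs => rw [h1, map_sum, Finset.sum_apply]
  refine Finset.sum_congr rfl fun i _ => ?_
  rw [hδ]

end Mat

section Main

variable {K R : Type} [Field K] [Ring R] [Algebra K R]
variable {X : Type} [AddCommGroup X] [Module R X] [Module K X] [IsScalarTower K R X]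

/-- the linear map of a matrix of endomorphisms -/
def matMap {ι ι' : Type} [Fintype ι] [DecidableEq ι]
    (δ : (ι → Module.End R (R × X)) →+ (ι' → Module.End R (R × X))) :
    (ι → R × X) →ₗ[R] (ι' → R × X) :=
  LinearMap.pi fun s => ∑ i, (δ (Pi.single i 1) s : (R × X) →ₗ[R] (R × X)) ∘ₗ LinearMap.proj i

/-- the components of a map into a power -/
def vec {ι : Type} (ψ : (R × X) →ₗ[R] (ι → R × X)) : ι → Module.End R (R × X) :=
  fun i => LinearMap.proj i ∘ₗ ψ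

theorem vec_inj {ι : Type} {ψ χ : (R × X) →ₗ[R] (ι → R × X)} (h : vec ψ = vec χ) : ψ = χ := by
  apply LinearMap.ext
  intro g
  funext i
  exact LinearMap.congr_fun (congrFun h i) g

theorem vec_pi {ι : Type} (v : ι → Module.End R (R × X)) :
    vec (LinearMap.pi fun i => (v i : (R × X) →ₗ[R] (R × X))) = v := rfl

theorem vec_matMap {ι ι' : Type} [Fintype ι] [DecidableEq ι]
    (δ : (ι → Module.End R (R × X)) →+ (ι' → Module.End R (R × X)))
    (hδ : ∀ v c, δ (fun i => v i * c) = fun i => δ v i * c)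
    (ψ : (R × X) →ₗ[R] (ι → R × X)) : vec (matMap δ ∘ₗ ψ) = δ (vec ψ) := by
  funext s
  rw [mat_expand δ hδ]
  apply LinearMap.ext
  intro g
  rw [LinearMap.sum_apply]
  change (∑ i, (δ (Pi.single i 1) s : (R × X) →ₗ[R] (R × X)) ∘ₗ LinearMap.proj i) (ψ g) = _
  rw [LinearMap.sum_apply]
  rfl

/-- maps factoring through a finitely generated free module -/
def FF {Y : Type} [AddCommGroup Y] [Module R Y] (f : (R × X) →ₗ[R] Y) : Prop :=
  ∃ (k : ℕ) (α : (R × X) →ₗ[R] (Fin k → R)) (β : (Fin k → R) →ₗ[R] Y), f = β ∘ₗ α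

theorem FF_zero {Y : Type} [AddCommGroup Y] [Module R Y] : FF (0 : (R × X) →ₗ[R] Y) :=
  ⟨0, 0, 0, by rw [LinearMap.comp_zero]⟩

theorem FF_post {Y Z : Type} [AddCommGroup Y] [Module R Y] [AddCommGroup Z] [Module R Z]
    (f : (R × X) →ₗ[R] Y) (h : FF f) (g : Y →ₗ[R] Z) : FF (g ∘ₗ f) := by
  obtain ⟨k, α, β, rfl⟩ := h
  exact ⟨k, α, g ∘ₗ β, rfl⟩

theorem FF_pre {Y : Type} [AddCommGroup Y] [Module R Y]
    (f : (R × X) →ₗ[R] Y) (h : FF f) (g : (R × X) →ₗ[R] (R × X)) : FF (f ∘ₗ g) := by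
  obtain ⟨k, α, β, rfl⟩ := h
  exact ⟨k, α ∘ₗ g, β, rfl⟩

theorem FF_add {Y : Type} [AddCommGroup Y] [Module R Y]
    (f g : (R × X) →ₗ[R] Y) (hf : FF f) (hg : FF g) : FF (f + g) := by
  obtain ⟨k, α, β, rfl⟩ := hf
  obtain ⟨l, γ, η, rfl⟩ := hg
  let e : (Fin (k + l) → R) ≃ₗ[R] (Fin k ⊕ Fin l → R) :=
    LinearEquiv.funCongrLeft R R finSumFinEquiv
  let e2 : (Fin k ⊕ Fin l → R) ≃ₗ[R] (Fin k → R) × (Fin l → R) :=
    LinearEquiv.sumArrowLequivProdArrow (Fin k) (Fin l) R R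
  refine ⟨k + l, (e.trans e2).symm.toLinearMap ∘ₗ (α.prod γ),
    (LinearMap.coprod β η) ∘ₗ (e.trans e2).toLinearMap, ?_⟩
  apply LinearMap.ext
  intro u
  change β (α u) + η (γ u) = (LinearMap.coprod β η) ((e.trans e2) ((e.trans e2).symm (α u, γ u)))
  rw [LinearEquiv.apply_symm_apply, LinearMap.coprod_apply]

theorem FF_sum {Y : Type} [AddCommGroup Y] [Module R Y] {ι : Type} (s : Finset ι)
    (f : ι → ((R × X) →ₗ[R] Y)) (hf : ∀ i ∈ s, FF (f i)) : FF (∑ i ∈ s, f i) := by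
  classical
  induction s using Finset.induction_on with
  | empty => rw [Finset.sum_empty]; exact FF_zero
  | insert a s ha ih =>
    rw [Finset.sum_insert ha]
    exact FF_add _ _ (hf a (Finset.mem_insert_self a s))
      (ih fun i hi => hf i (Finset.mem_insert_of_mem hi))

theorem FF_pi {ι : Type} [Fintype ι] (f : ι → ((R × X) →ₗ[R] (R × X))) (hf : ∀ i, FF (f i)) :
    FF (LinearMap.pi f) := by
  classical
  have h1 : LinearMap.pi f = ∑ i, LinearMap.single R (fun _ => R × X) i ∘ₗ f i := by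
    apply LinearMap.ext
    intro u
    funext j
    rw [LinearMap.sum_apply, Finset.sum_apply, Finset.sum_eq_single j]
    · change f j u = (Pi.single j (f j u) : ι → R × X) j
      rw [Pi.single_eq_same]
    · intro i _ hij
      change (Pi.single i (f i u) : ι → R × X) j = 0
      rw [Pi.single_eq_of_ne (Ne.symm hij)]
    · intro h; exact absurd (Finset.mem_univ j) h
  rw [h1]
  exact FF_sum _ _ fun i _ => FF_post _ (hf i) _

open Pool.Agent.H546R3.Yam in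
/-- Frobenius algebras are injective -/
theorem frob_injective [FiniteDimensional K R] (lam : R →ₗ[K] K)
    (hlam : ∀ r, (∀ r', lam (r' * r) = 0) → r = 0) : Module.Injective R R := by
  apply Module.Baer.injective
  intro I f
  obtain ⟨p, hp⟩ := (I.subtype.restrictScalars K).exists_leftInverse_of_injective
    (LinearMap.ker_eq_bot.mpr I.injective_subtype)
  let θ : R →ₗ[K] K := lam ∘ₗ (f.restrictScalars K) ∘ₗ p
  obtain ⟨g, hg⟩ := exists_hom (Y := R) lam hlam θ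
  refine ⟨g, fun z hz => ?_⟩
  rw [← sub_eq_zero]
  have h2 : g ∘ₗ I.subtype - f = 0 := by
    apply hom_ext_lam lam hlam
    intro y
    rw [LinearMap.sub_apply, map_sub]
    have h3 : lam (g (y : R)) = θ (y : R) := hg y
    have h5 : p (y : R) = y := LinearMap.congr_fun hp y
    have h4 : θ (y : R) = lam (f y) := by
      change lam (f (p (y : R))) = _
      rw [h5]
    change lam (g (y : R)) - lam (f y) = 0
    rw [h3, h4, sub_self]
  exact LinearMap.congr_fun h2 ⟨z, hz⟩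

/-- the passage from equivariant sequences over the endomorphism ring to syzygies -/
theorem E1_of_delta [FiniteDimensional K R] (lam : R →ₗ[K] K)
    (hlam : ∀ r, (∀ r', lam (r' * r) = 0) → r = 0)
    {ι0 ι1 ι2 ι3 : Type} [Fintype ι0] [Fintype ι1] [Fintype ι2] [Fintype ι3]
    [DecidableEq ι0] [DecidableEq ι1] [DecidableEq ι2] [DecidableEq ι3]
    (δ0 : Module.End R (R × X) →+ (ι0 → Module.End R (R × X)))
    (δ1 : (ι0 → Module.End R (R × X)) →+ (ι1 → Module.End R (R × X)))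
    (δ2 : (ι1 → Module.End R (R × X)) →+ (ι2 → Module.End R (R × X)))
    (δ3 : (ι2 → Module.End R (R × X)) →+ (ι3 → Module.End R (R × X)))
    (r0 : ∀ v c, δ0 (v * c) = fun i => δ0 v i * c)
    (r1 : ∀ v c, δ1 (fun i => v i * c) = fun i => δ1 v i * c)
    (r2 : ∀ v c, δ2 (fun i => v i * c) = fun i => δ2 v i * c)
    (r3 : ∀ v c, δ3 (fun i => v i * c) = fun i => δ3 v i * c)
    (i0 : ∀ a, δ0 a = 0 → a = 0)
    (x0 : ∀ v, δ1 v = 0 → ∃ a, δ0 a = v) (x1 : ∀ v, δ2 v = 0 → ∃ a, δ1 a = v)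
    (x2 : ∀ v, δ3 v = 0 → ∃ a, δ2 a = v)
    (c1 : ∀ a, δ1 (δ0 a) = 0) (c2 : ∀ a, δ2 (δ1 a) = 0) (c3 : ∀ a, δ3 (δ2 a) = 0)
    (hF : ∀ s, FF (δ0 1 s : (R × X) →ₗ[R] (R × X))) :
    E1 K R (R × X) (R × X) ∧ E1 K R (Syz K R (R × X)) (R × X) := by
  classical
  let d0 : (R × X) →ₗ[R] (ι0 → R × X) :=
    LinearMap.pi fun s => (δ0 1 s : (R × X) →ₗ[R] (R × X))
  have hv0 : ∀ ψ : Module.End R (R × X), vec (d0 ∘ₗ ψ) = δ0 ψ := by
    intro ψ
    have h1 := r0 1 ψ
    rw [one_mul] at h1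
    rw [h1]
    rfl
  obtain ⟨k, α, β, hαβ⟩ : FF d0 := FF_pi _ hF
  have hinjR : Module.Injective R R := frob_injective lam hlam
  have hinj : Module.Injective R (Fin k → R) := inferInstance
  have h0 : ∀ ψ : (R × X) →ₗ[R] (R × X), d0 ∘ₗ ψ = 0 → ψ = 0 := by
    intro ψ hψ
    apply i0
    rw [← hv0, hψ]
    rfl
  have e1 : ∀ ψ : (R × X) →ₗ[R] (ι0 → R × X), matMap δ1 ∘ₗ ψ = 0 →
      ∃ χ : (R × X) →ₗ[R] (R × X), ψ = d0 ∘ₗ χ := by
    intro ψ hψ
    obtain ⟨a, ha⟩ := x0 (vec ψ) (by rw [← vec_matMap δ1 r1, hψ]; rfl)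
    refine ⟨a, vec_inj ?_⟩
    rw [← ha, hv0]
  have e2 : ∀ ψ : (R × X) →ₗ[R] (ι1 → R × X), matMap δ2 ∘ₗ ψ = 0 →
      ∃ χ : (R × X) →ₗ[R] (ι0 → R × X), ψ = matMap δ1 ∘ₗ χ := by
    intro ψ hψ
    obtain ⟨a, ha⟩ := x1 (vec ψ) (by rw [← vec_matMap δ2 r2, hψ]; rfl)
    refine ⟨LinearMap.pi fun i => (a i : (R × X) →ₗ[R] (R × X)), vec_inj ?_⟩
    rw [vec_matMap δ1 r1, vec_pi, ha]
  have e3 : ∀ ψ : (R × X) →ₗ[R] (ι2 → R × X), matMap δ3 ∘ₗ ψ = 0 →
      ∃ χ : (R × X) →ₗ[R] (ι1 → R × X), ψ = matMap δ2 ∘ₗ χ := by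
    intro ψ hψ
    obtain ⟨a, ha⟩ := x2 (vec ψ) (by rw [← vec_matMap δ3 r3, hψ]; rfl)
    refine ⟨LinearMap.pi fun i => (a i : (R × X) →ₗ[R] (R × X)), vec_inj ?_⟩
    rw [vec_matMap δ2 r2, vec_pi, ha]
  -- a map out of a power vanishes if it vanishes on all maps from `R × X`
  have ext_of : ∀ {ι : Type} [Fintype ι] [DecidableEq ι] {Z : Type} [AddCommGroup Z] [Module R Z]
      (f : (ι → R × X) →ₗ[R] Z), (∀ ψ : (R × X) →ₗ[R] (ι → R × X), f ∘ₗ ψ = 0) → f = 0 := by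
    intro ι _ _ Z _ _ f hf
    apply LinearMap.ext
    intro w
    have h5 : w = ∑ i, Pi.single i (w i) := (Finset.univ_sum_single w).symm
    rw [h5, map_sum, LinearMap.zero_apply]
    refine Finset.sum_eq_zero fun i _ => ?_
    exact LinearMap.congr_fun (hf (LinearMap.single R (fun _ => R × X) i)) (w i)
  have f1 : matMap δ1 ∘ₗ d0 = 0 := by
    apply vec_inj
    rw [vec_matMap δ1 r1]
    have h6 : vec d0 = δ0 1 := rfl
    rw [h6, c1]
    rfl
  have f2 : matMap δ2 ∘ₗ matMap δ1 = 0 := by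
    apply ext_of
    intro ψ
    apply vec_inj
    rw [LinearMap.comp_assoc, vec_matMap δ2 r2, vec_matMap δ1 r1, c2]
    rfl
  have f3 : matMap δ3 ∘ₗ matMap δ2 = 0 := by
    apply ext_of
    intro ψ
    apply vec_inj
    rw [LinearMap.comp_assoc, vec_matMap δ3 r3, vec_matMap δ2 r2, c3]
    rfl
  exact ⟨claim_one d0 (matMap δ1) (matMap δ2) h0 e1 e2 f1 f2 hinj α β hαβ,
    claim_two d0 (matMap δ1) (matMap δ2) (matMap δ3) h0 e1 e2 e3 f1 f2 f3 hinj α β hαβ
      (LinearEquiv.refl R _)⟩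

end Main

end Run7.h692
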