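import Pool.Agent.Run7.h692.QciExt

set_option autoImplicit false
set_option linter.unusedSectionVars false
open scoped TensorProduct

namespace Run7.h692

section

variable {K : Type} [Field K] {n : ℕ} {a : Fin n → ℕ} {q : Fin n → Fin n → K}
  {B : Type} [Ring B] [Algebra K B] {x : Fin n → B}
  {N : Type} [AddCommGroup N] [Module B N] [Module K N] [IsScalarTower K B N]

/-- the section over the subalgebra generated by the first `m` generators -/
def Sect (K : Type) [Field K] {n : ℕ}
    {B : Type} [Ring B] [Algebra K B] (x : Fin n → B)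
    (N : Type) [AddCommGroup N] [Module B N] [Module K N] [IsScalarTower K B N] (m : ℕ) : Prop :=
  ∃ γ : N →ₗ[K] B ⊗[K] N, (∀ v, actMap K B N (γ v) = v) ∧
    (∀ k : Fin n, (k : ℕ) < m → ∀ v, γ (x k • v) = x k • γ v) ∧
    (∀ v, γ v ∈ Spart K x N {k | (k : ℕ) < m})

theorem sect_zero : Sect K x N 0 := by
  refine ⟨TensorProduct.mk K B N 1, fun v => ?_, fun k hk => absurd hk (Nat.not_lt_zero _),
    fun v => ?_⟩
  · change actMap K B N (1 ⊗ₜ[K] v) = v
    rw [actMap_tmul, one_smul]
  · exact Submodule.subset_span ⟨1, Subalgebra.one_mem _, v, rfl⟩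

/-- the defect of linearity of `γ` in the direction `i` -/
noncomputable def defect (γ : N →ₗ[K] B ⊗[K] N) (hγ : ∀ v, actMap K B N (γ v) = v) (y : B) :
    N →ₗ[K] Syz K B N where
  toFun v := ⟨y • γ v - γ (y • v), by
    rw [LinearMap.mem_ker, map_sub, map_smul, hγ, hγ, sub_self]⟩
  map_add' u v := by
    apply Subtype.ext
    change y • γ (u + v) - γ (y • (u + v)) = (y • γ u - γ (y • u)) + (y • γ v - γ (y • v))
    rw [smul_add, map_add, map_add, smul_add]; abel
  map_smul' c v := by
    apply Subtype.ext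
    change y • γ (c • v) - γ (y • (c • v)) = c • (y • γ v - γ (y • v))
    rw [smul_comm y c v, map_smul, map_smul, smul_comm y c, smul_sub]

theorem defect_val (γ : N →ₗ[K] B ⊗[K] N) (hγ : ∀ v, actMap K B N (γ v) = v) (y : B) (v : N) :
    ((defect γ hγ y v : Syz K B N) : B ⊗[K] N) = y • γ v - γ (y • v) := rfl

theorem g_pow (κ : B →ₗ[K] B) (i : Fin n) (g : Syz K B N →ₗ[K] N)
    (hg2 : ∀ z, g (x i • z) = x i • g z - kN κ (z : B ⊗[K] N)) (j : ℕ) (z : Syz K B N) :
    g (x i ^ j • z) = x i ^ j • g z -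
      ∑ l ∈ Finset.range j, x i ^ (j - 1 - l) • kN κ (x i ^ l • (z : B ⊗[K] N)) := by
  induction j with
  | zero => simp
  | succ j ih =>
    rw [pow_succ', mul_smul, hg2, ih, smul_sub, ← mul_smul, Finset.smul_sum,
      Finset.sum_range_succ, sub_sub]
    have h1 : ∑ l ∈ Finset.range j, x i • x i ^ (j - 1 - l) • kN κ (x i ^ l • (z : B ⊗[K] N)) =
        ∑ l ∈ Finset.range j, x i ^ (j + 1 - 1 - l) • kN κ (x i ^ l • (z : B ⊗[K] N)) := by
      refine Finset.sum_congr rfl fun l hl => ?_
      rw [Finset.mem_range] at hl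
      rw [← mul_smul, ← pow_succ']
      congr 2
      omega
    rw [h1]
    have h2 : j + 1 - 1 - j = 0 := by omega
    rw [h2, pow_zero, one_smul]
    rfl

theorem key_sum (h : IsQCI K a q B x) (κ : B →ₗ[K] B) (i : Fin n)
    (hκ3 : ∀ r ∈ Algebra.adjoin K (x '' {k | k ≠ i}), ∀ j, j < a i →
      κ (x i ^ j * r) = if j = a i - 1 then r else 0) (g : Syz K B N →ₗ[K] N)
    (hg2 : ∀ z, g (x i • z) = x i • g z - kN κ (z : B ⊗[K] N))
    (γ : N →ₗ[K] B ⊗[K] N) (hγ : ∀ v, actMap K B N (γ v) = v)
    (hγS : ∀ v, γ v ∈ Spart K x N {k | k ≠ i}) (v : N) :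
    ∑ j ∈ Finset.range (a i), x i ^ j • g (defect γ hγ (x i) (x i ^ (a i - 1 - j) • v)) = v := by
  have hai := h.two_le i
  set y := x i with hy
  set A := a i with hA
  -- the telescoping sum
  have htel : ∑ j ∈ Finset.range A, y ^ j • defect γ hγ y (y ^ (A - 1 - j) • v) = 0 := by
    apply Subtype.ext
    have h1 : (((∑ j ∈ Finset.range A, y ^ j • defect γ hγ y (y ^ (A - 1 - j) • v) :
        Syz K B N)) : B ⊗[K] N) =
        ∑ j ∈ Finset.range A, (y ^ (j + 1) • γ (y ^ (A - (j + 1)) • v) -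
          y ^ j • γ (y ^ (A - j) • v)) := by
      rw [AddSubmonoidClass.coe_finsetSum]
      refine Finset.sum_congr rfl fun j hj => ?_
      rw [Finset.mem_range] at hj
      change y ^ j • (y • γ (y ^ (A - 1 - j) • v) - γ (y • (y ^ (A - 1 - j) • v))) = _
      rw [smul_sub, ← mul_smul, ← pow_succ, ← mul_smul y, ← pow_succ']
      have h2 : A - 1 - j + 1 = A - j := by omega
      have h3 : A - 1 - j = A - (j + 1) := by omega
      rw [h2, h3]
    rw [h1, Finset.sum_range_sub (fun j => y ^ j • γ (y ^ (A - j) • v))]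
    rw [Nat.sub_self, Nat.sub_zero, hA, hy, h.pow_zero, zero_smul, pow_zero, one_smul,
      zero_smul, map_zero, sub_zero]
    rfl
  have hstep : ∀ j ∈ Finset.range A, y ^ j • g (defect γ hγ y (y ^ (A - 1 - j) • v)) =
      g (y ^ j • defect γ hγ y (y ^ (A - 1 - j) • v)) + if j = A - 1 then v else 0 := by
    intro j hj
    rw [Finset.mem_range] at hj
    rw [g_pow κ i g hg2 j, ← hy]
    have h4 : ∀ l ∈ Finset.range j, y ^ (j - 1 - l) • kN κ (y ^ l •
        ((defect γ hγ y (y ^ (A - 1 - j) • v) : Syz K B N) : B ⊗[K] N)) =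
        if l + 1 = A - 1 then v else 0 := by
      intro l hl
      rw [Finset.mem_range] at hl
      rw [defect_val, smul_sub, map_sub, ← mul_smul, ← pow_succ, hy,
        kN_three κ i hκ3 _ (hγS _) (l + 1) (by omega), kN_three κ i hκ3 _ (hγS _) l (by omega),
        if_neg (show ¬ l = a i - 1 by omega), sub_zero]
      split_ifs with h5
      · have h6 : j - 1 - l = 0 := by omega
        have h7 : A - 1 - j = 0 := by omega
        rw [hγ, h6, h7, pow_zero, one_smul, one_smul]
      · rw [smul_zero]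
    rw [Finset.sum_congr rfl h4]
    by_cases hj2 : j = A - 1
    · rw [if_pos hj2, Finset.sum_eq_single (A - 2)]
      · rw [if_pos (by omega), sub_add_cancel]
      · intro l hl hl2
        rw [Finset.mem_range] at hl
        exact if_neg (by omega)
      · intro hne
        exact absurd (Finset.mem_range.mpr (by omega)) hne
    · rw [if_neg hj2, add_zero, Finset.sum_eq_zero, sub_zero]
      intro l hl
      rw [Finset.mem_range] at hl
      exact if_neg (by omega)
  rw [Finset.sum_congr rfl hstep, Finset.sum_add_distrib, ← map_sum, htel, map_zero, zero_add,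
    Finset.sum_ite_eq', if_pos (Finset.mem_range.mpr (by omega))]

theorem sect_succ (h : IsQCI K a q B x) [Module.Finite K N] (h1 : E1 K B N N)
    (h2 : E1 K B (Syz K B N) N) (i : Fin n) (hs : Sect K x N i) : Sect K x N (i + 1) := by
  obtain ⟨γ, hγ, hγk, hγS⟩ := hs
  obtain ⟨κ, hκ1, hκ2, hκ3⟩ := h.exists_kappa i
  obtain ⟨g, hg1, hg2⟩ := hasSplit h h1 h2 i κ hκ1 hκ2
  have hne : ∀ k : Fin n, (k : ℕ) < i → k ≠ i := fun k hk hki => by
    rw [hki] at hk; exact lt_irrefl _ hk
  have hγS' : ∀ v, γ v ∈ Spart K x N {k | k ≠ i} := fun v =>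
    Spart_mono (fun k hk => hne k hk) (hγS v)
  let s : N →ₗ[K] N := g ∘ₗ defect γ hγ (x i)
  have hs1 : ∀ k : Fin n, (k : ℕ) < i → ∀ v, s (x k • v) = (q i k * q k i ^ a i) • (x k • s v) := by
    intro k hk v
    have hki := hne k hk
    have h3 : defect γ hγ (x i) (x k • v) = q i k • (x k • defect γ hγ (x i) v) := by
      apply Subtype.ext
      change x i • γ (x k • v) - γ (x i • (x k • v)) = q i k • (x k • (x i • γ v - γ (x i • v)))
      rw [hγk k hk, gen_comm h i k hki.symm (γ v), gen_comm h i k hki.symm v, map_smul, hγk k hk,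
        smul_sub, smul_sub]
    change g (defect γ hγ (x i) (x k • v)) = _
    rw [h3, map_smul, hg1 k hki, smul_smul]
    rfl
  have hs2 : ∀ v, ∑ j ∈ Finset.range (a i), x i ^ j • s (x i ^ (a i - 1 - j) • v) = v :=
    fun v => key_sum h κ i hκ3 g hg2 γ hγ hγS' v
  have hsmulpow : ∀ (j : ℕ) (c : K) (z : B ⊗[K] N), x i ^ j • (c • z) = c • (x i ^ j • z) :=
    fun j c z => smul_comm _ _ _
  let γ' : N →ₗ[K] B ⊗[K] N := ∑ j ∈ Finset.range (a i),
    (Algebra.lsmul K K (B ⊗[K] N) (x i ^ j)) ∘ₗ γ ∘ₗ s ∘ₗ (Algebra.lsmul K K N (x i ^ (a i - 1 - j)))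
  have hγ' : ∀ v, γ' v = ∑ j ∈ Finset.range (a i), x i ^ j • γ (s (x i ^ (a i - 1 - j) • v)) := by
    intro v
    change (∑ j ∈ Finset.range (a i), (Algebra.lsmul K K (B ⊗[K] N) (x i ^ j)) ∘ₗ γ ∘ₗ s ∘ₗ
      (Algebra.lsmul K K N (x i ^ (a i - 1 - j)))) v = _
    rw [LinearMap.sum_apply]
    rfl
  refine ⟨γ', fun v => ?_, fun k hk v => ?_, fun v => ?_⟩
  · rw [hγ', map_sum]
    conv_rhs => rw [← hs2 v]
    refine Finset.sum_congr rfl fun j _ => ?_
    rw [map_smul, hγ]
  · rw [hγ', hγ', Finset.smul_sum]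
    rcases Nat.lt_succ_iff_lt_or_eq.mp hk with hk1 | hk1
    · have hki := hne k hk1
      refine Finset.sum_congr rfl fun j hj => ?_
      rw [Finset.mem_range] at hj
      have e1 : x i ^ (a i - 1 - j) • x k • v =
          q i k ^ (a i - 1 - j) • (x k • x i ^ (a i - 1 - j) • v) := by
        rw [← mul_smul, pow_comm_of' (x i) (x k) (q i k) (h.comm i k hki.symm), smul_assoc,
          mul_smul]
      have e2 : ∀ z : B ⊗[K] N, x i ^ j • x k • z = q i k ^ j • (x k • x i ^ j • z) := by
        intro z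
        rw [← mul_smul, pow_comm_of' (x i) (x k) (q i k) (h.comm i k hki.symm), smul_assoc,
          mul_smul]
      rw [e1, map_smul, hs1 k hk1, map_smul, map_smul, hγk k hk1, hsmulpow, hsmulpow, e2]
      rw [smul_smul, smul_smul]
      have e3 : q i k ^ (a i - 1 - j) * (q i k * q k i ^ a i) * q i k ^ j = 1 := by
        have e4 : q i k ^ (a i - 1 - j) * (q i k * q k i ^ a i) * q i k ^ j =
            q i k ^ (a i - 1 - j + 1 + j) * q k i ^ a i := by ring
        rw [e4]
        have e5 : a i - 1 - j + 1 + j = a i := by omega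
        rw [e5, ← mul_pow, h.q_inv i k hki.symm, one_pow]
      rw [e3, one_smul]
    · have hki : k = i := Fin.ext hk1
      rw [hki]
      obtain ⟨A, hA⟩ : ∃ A, a i = A + 1 := ⟨a i - 1, by have := h.a_pos i; omega⟩
      have hpz : x i ^ (A + 1) = 0 := by rw [← hA]; exact h.pow_zero i
      rw [hA, Finset.sum_range_succ', Finset.sum_range_succ]
      have e1 : x i ^ 0 • γ (s (x i ^ (A + 1 - 1 - 0) • x i • v)) = 0 := by
        have e2 : x i ^ (A + 1 - 1 - 0) • x i • v = x i ^ (A + 1) • v := by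
          rw [← mul_smul, ← pow_succ]
          congr 2
        rw [e2, hpz, zero_smul, map_zero, map_zero, smul_zero]
      have e3 : x i • x i ^ A • γ (s (x i ^ (A + 1 - 1 - A) • v)) = 0 := by
        rw [← mul_smul, ← pow_succ', hpz, zero_smul]
      rw [e1, e3]
      congr 1
      refine Finset.sum_congr rfl fun j hj => ?_
      rw [Finset.mem_range] at hj
      rw [← mul_smul (x i) (x i ^ j), ← pow_succ']
      have e4 : x i ^ (A + 1 - 1 - (j + 1)) • x i • v = x i ^ (A + 1 - 1 - j) • v := by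
        rw [← mul_smul, ← pow_succ]
        congr 2
        omega
      rw [e4]
  · rw [hγ']
    refine Submodule.sum_mem _ fun j _ => ?_
    have e1 : ∀ (j : ℕ) (z : B ⊗[K] N), z ∈ Spart K x N {k : Fin n | (k : ℕ) < i + 1} →
        x i ^ j • z ∈ Spart K x N {k : Fin n | (k : ℕ) < i + 1} := by
      intro j
      induction j with
      | zero => intro z hz; rw [pow_zero, one_smul]; exact hz
      | succ j ih =>
        intro z hz
        rw [pow_succ', mul_smul]
        exact Spart_smul i (Nat.lt_succ_self _) _ (ih z hz)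
    apply e1
    exact Spart_mono (fun k hk => Nat.lt_succ_of_lt hk) (hγS _)

/-- **rigid modules over quantum complete intersections are projective** -/
theorem projective_of_E1 (h : IsQCI K a q B x) [Module.Finite K N] (h1 : E1 K B N N)
    (h2 : E1 K B (Syz K B N) N) : Module.Projective B N := by
  have key : ∀ m : ℕ, m ≤ n → Sect K x N m := by
    intro m
    induction m with
    | zero => intro _; exact sect_zero
    | succ m ih =>
      intro hm
      exact sect_succ h h1 h2 ⟨m, hm⟩ (ih (by omega))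
  obtain ⟨γ, hγ, hγk, -⟩ := key n le_rfl
  let γB : N →ₗ[B] B ⊗[K] N := h.lin γ (fun k v => hγk k k.2 v)
  have hpr : Module.Projective B (B ⊗[K] N) := inferInstance
  exact Module.Projective.of_split γB (actMap K B N) (LinearMap.ext fun v => hγ v)

end

end Run7.h692
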