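import Pool.Agent.Run7.h692.GPSeq
import Pool.Agent.Run7.h692.GendoMat
import Pool.Agent.Run7.h692.QciMain

set_option autoImplicit false
set_option linter.unusedSectionVars false
open scoped TensorProduct
open MulOpposite CategoryTheory Pool.Agent.H546R3.Yam

namespace Run7.h692

section Gen

variable {K R : Type} [Field K] [Ring R] [Algebra K R] [FiniteDimensional K R]
variable {X : Type} [AddCommGroup X] [Module R X] [Module K X] [IsScalarTower K R X]
  [FiniteDimensional K X]

theorem finite_end : Module.Finite K (Module.End R (R × X)) := by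
  have h1 : Module.Finite K ((R × X) →ₗ[K] (R × X)) := inferInstance
  let f : Module.End R (R × X) →ₗ[K] ((R × X) →ₗ[K] (R × X)) :=
    { toFun := fun g => LinearMap.restrictScalars K g
      map_add' := fun _ _ => rfl
      map_smul' := fun _ _ => rfl }
  exact Module.Finite.of_injective f (LinearMap.restrictScalars_injective K)

variable (lam : R →ₗ[K] K) (hlam : ∀ r, (∀ r', lam (r' * r) = 0) → r = 0)

include hlam in
/-- the entries of the augmentation factor through free modules -/
theorem ff_of_cent {d : ℕ} (bs : Module.Basis (Fin d) K (Module.End R (R × X)))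
    (u : Fin d → Module.End R (R × X))
    (hu : ∀ (φ : Module.End R (R × X) →ₗ[K] K) (a : Module.End R (R × X)),
      a * ∑ r, φ (u r) • bs r = ∑ r, φ (u r * a) • bs r) (r : Fin d) :
    FF (u r : (R × X) →ₗ[R] (R × X)) := by
  by_contra hne
  let I : Submodule K (Module.End R (R × X)) :=
    { carrier := {f | FF (f : (R × X) →ₗ[R] (R × X))}
      add_mem' := fun {f g} hf hg => FF_add f g hf hg
      zero_mem' := FF_zero
      smul_mem' := fun c f hf => by
        have h1 : (c • f : Module.End R (R × X)) = (c • LinearMap.id : (R × X) →ₗ[R] (R × X)) ∘ₗ f := by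
          apply LinearMap.ext
          intro y
          rfl
        change FF ((c • f : Module.End R (R × X)) : (R × X) →ₗ[R] (R × X))
        rw [h1]
        exact FF_post f hf _ }
  have hnI : u r ∉ I := hne
  obtain ⟨φ, hφ, hI⟩ := Submodule.exists_le_ker_of_notMem hnI
  have h1 : ∑ r, φ (u r) • bs r = 0 := by
    apply TF_A (k := K) lam hlam
    intro f
    rw [smul_eq_mul, hu]
    refine Finset.sum_eq_zero fun s _ => ?_
    have h2 : u s * (e0 * f) ∈ I := by
      let α : (R × X) →ₗ[R] (Fin 1 → R) := LinearMap.pi fun _ => (LinearMap.fst R R X) ∘ₗ f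
      let β : (Fin 1 → R) →ₗ[R] (R × X) :=
        (u s) ∘ₗ (LinearMap.inl R R X) ∘ₗ (LinearMap.proj 0 : (Fin 1 → R) →ₗ[R] R)
      exact ⟨1, α, β, rfl⟩
    have h3 : φ (u s * (e0 * f)) = 0 := hI h2
    rw [h3, zero_smul]
  have h4 := congrArg (fun z => bs.repr z r) h1
  simp only [map_sum, map_smul, Module.Basis.repr_self, map_zero, Finsupp.coe_finsetSum,
    Finset.sum_apply, Finsupp.smul_apply, smul_eq_mul, Finsupp.zero_apply] at h4
  rw [Finset.sum_eq_single r] at h4
  · rw [Finsupp.single_eq_same, mul_one] at h4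
    exact hφ h4
  · intro s _ hs
    rw [Finsupp.single_eq_of_ne (Ne.symm hs), mul_zero]
  · intro h; exact absurd (Finset.mem_univ r) h

/-- transport of additive maps between powers along a ring isomorphism -/
def tr {A A' : Type} [Ring A] [Ring A'] (e : A ≃+* A') {ι ι' : Type}
    (δ : (ι → A) →+ (ι' → A)) : (ι → A') →+ (ι' → A') where
  toFun v s := e (δ (fun i => e.symm (v i)) s)
  map_zero' := by
    funext s
    have h1 : (fun i => e.symm ((0 : ι → A') i)) = (0 : ι → A) := funext fun i => map_zero e.symm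
    rw [h1, map_zero]
    exact map_zero e
  map_add' v w := by
    funext s
    have h1 : (fun i => e.symm ((v + w) i)) = (fun i => e.symm (v i)) + fun i => e.symm (w i) :=
      funext fun i => map_add e.symm _ _
    rw [h1, map_add, Pi.add_apply, map_add]
    rfl

theorem tr_apply {A A' : Type} [Ring A] [Ring A'] (e : A ≃+* A') {ι ι' : Type}
    (δ : (ι → A) →+ (ι' → A)) (v : ι → A') (s : ι') :
    tr e δ v s = e (δ (fun i => e.symm (v i)) s) := rfl

theorem tr_mul {A A' : Type} [Ring A] [Ring A'] (e : A ≃+* A') {ι ι' : Type}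
    (δ : (ι → A) →+ (ι' → A)) (hδ : ∀ v c, δ (fun i => v i * c) = fun i => δ v i * c)
    (v : ι → A') (c : A') : tr e δ (fun i => v i * c) = fun i => tr e δ v i * c := by
  funext s
  rw [tr_apply, tr_apply]
  have h1 : (fun i => e.symm (v i * c)) = fun i => e.symm (v i) * e.symm c :=
    funext fun i => map_mul e.symm _ _
  rw [h1, hδ, map_mul, RingEquiv.apply_symm_apply]

theorem tr_ex {A A' : Type} [Ring A] [Ring A'] (e : A ≃+* A') {ι ι' ι'' : Type}
    (δ : (ι → A) →+ (ι' → A)) (δ' : (ι' → A) →+ (ι'' → A))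
    (h : ∀ v, δ' v = 0 → ∃ w, δ w = v) : ∀ v, tr e δ' v = 0 → ∃ w, tr e δ w = v := by
  intro v hv
  obtain ⟨w, hw⟩ := h (fun i => e.symm (v i)) (by
    funext s
    apply e.injective
    rw [Pi.zero_apply, map_zero]
    exact congrFun hv s)
  refine ⟨fun i => e (w i), ?_⟩
  funext s
  rw [tr_apply]
  have h1 : (fun i => e.symm (e (w i))) = w := funext fun i => e.symm_apply_apply _
  rw [h1, hw, RingEquiv.apply_symm_apply]

theorem tr_comp {A A' : Type} [Ring A] [Ring A'] (e : A ≃+* A') {ι ι' ι'' : Type}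
    (δ : (ι → A) →+ (ι' → A)) (δ' : (ι' → A) →+ (ι'' → A))
    (h : ∀ v, δ' (δ v) = 0) : ∀ v, tr e δ' (tr e δ v) = 0 := by
  intro v
  funext s
  rw [tr_apply]
  have h1 : (fun i => e.symm (tr e δ v i)) = δ (fun i => e.symm (v i)) :=
    funext fun i => e.symm_apply_apply _
  rw [h1, h]
  exact map_zero e

include hlam in
/-- for Frobenius algebras: reflexivity and the first two Ext-conditions for the bimodule
`End (R × X)` give the rigidity of `R × X` -/
theorem E1_of_refl {A : Type} [Ring A] [Algebra K A] [FiniteDimensional K A]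
    (e : A ≃ₐ[K] Module.End R (R × X)) [Module (A ⊗[K] Aᵐᵒᵖ) A]
    (hc : ∀ (a : A) (b : Aᵐᵒᵖ) (x : A), (a ⊗ₜ[K] b) • x = a * x * unop b)
    (ht : ∀ m : A, (∀ f : A →ₗ[A ⊗[K] Aᵐᵒᵖ] (A ⊗[K] Aᵐᵒᵖ), f m = 0) → m = 0)
    (hr : ∀ φ : (A →ₗ[A ⊗[K] Aᵐᵒᵖ] (A ⊗[K] Aᵐᵒᵖ)) →ₗ[((A ⊗[K] Aᵐᵒᵖ)ᵐᵒᵖ)] (A ⊗[K] Aᵐᵒᵖ),
      ∃ m : A, ∀ f : A →ₗ[A ⊗[K] Aᵐᵒᵖ] (A ⊗[K] Aᵐᵒᵖ), φ f = f m)
    (h1 : Subsingleton (Abelian.Ext.{0}
      (ModuleCat.of ((A ⊗[K] Aᵐᵒᵖ)ᵐᵒᵖ) (A →ₗ[A ⊗[K] Aᵐᵒᵖ] (A ⊗[K] Aᵐᵒᵖ)))
      (ModuleCat.of ((A ⊗[K] Aᵐᵒᵖ)ᵐᵒᵖ) (A ⊗[K] Aᵐᵒᵖ)) 1))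
    (h2 : Subsingleton (Abelian.Ext.{0}
      (ModuleCat.of ((A ⊗[K] Aᵐᵒᵖ)ᵐᵒᵖ) (A →ₗ[A ⊗[K] Aᵐᵒᵖ] (A ⊗[K] Aᵐᵒᵖ)))
      (ModuleCat.of ((A ⊗[K] Aᵐᵒᵖ)ᵐᵒᵖ) (A ⊗[K] Aᵐᵒᵖ)) 2)) :
    E1 K R (R × X) (R × X) ∧ E1 K R (Syz K R (R × X)) (R × X) := by
  classical
  let bs := Module.finBasis K A
  obtain ⟨n0, n1, n2, n3, δ0, δ1, δ2, δ3, r0, r1, r2, r3, i0, x0, x1, x2, c1, c2, c3, hcent⟩ :=
    exists_delta hc ht hr h1 h2 bs
  let e' : A ≃+* Module.End R (R × X) := e.toRingEquiv
  let γ0 : Module.End R (R × X) →+ (Fin n0 × Fin (Module.finrank K A) → Module.End R (R × X)) :=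
    { toFun := fun a s => e (δ0 (e.symm a) s)
      map_zero' := by
        funext s
        rw [map_zero, map_zero]
        exact map_zero e
      map_add' := fun a b => by
        funext s
        rw [map_add, map_add, Pi.add_apply, map_add]
        rfl }
  have hγ0 : ∀ a s, γ0 a s = e (δ0 (e.symm a) s) := fun a s => rfl
  refine E1_of_delta lam hlam γ0 (tr e' δ1) (tr e' δ2) (tr e' δ3) ?_ (tr_mul e' δ1 r1)
    (tr_mul e' δ2 r2) (tr_mul e' δ3 r3) ?_ ?_ (tr_ex e' δ1 δ2 x1) (tr_ex e' δ2 δ3 x2) ?_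
    (tr_comp e' δ1 δ2 c2) (tr_comp e' δ2 δ3 c3) ?_
  · intro v c
    funext s
    rw [hγ0, map_mul, r0, map_mul, AlgEquiv.apply_symm_apply]
    rfl
  · intro a ha
    have h3 : δ0 (e.symm a) = 0 := by
      funext s
      apply e.injective
      rw [Pi.zero_apply, map_zero]
      exact congrFun ha s
    have h4 := i0 _ h3
    apply e.symm.injective
    rw [h4, map_zero]
  · intro v hv
    obtain ⟨a, ha⟩ := x0 (fun i => e.symm (v i)) (by
      funext s
      apply e.injective
      rw [Pi.zero_apply, map_zero]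
      exact congrFun hv s)
    refine ⟨e a, ?_⟩
    funext s
    rw [hγ0, AlgEquiv.symm_apply_apply, ha, AlgEquiv.apply_symm_apply]
  · intro a
    funext s
    rw [tr_apply]
    have h3 : (fun i => e'.symm (γ0 a i)) = δ0 (e.symm a) :=
      funext fun i => e.symm_apply_apply _
    rw [h3, c1]
    exact map_zero e
  · intro s
    have hfe : ∀ s, γ0 1 s = e (δ0 1 s) := fun s => by rw [hγ0, map_one]
    rw [hfe]
    have key := ff_of_cent lam hlam (bs.map e.toLinearEquiv) (fun r => e (δ0 1 (s.1, r)))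
      (fun φ a => by
        have h3 := congrArg e (hcent s.1 (φ ∘ₗ e.toLinearMap) (e.symm a))
        rw [map_mul, AlgEquiv.apply_symm_apply, map_sum, map_sum] at h3
        have h4 : ∀ c : K, ∀ y : A, e (c • y) = c • e y := fun c y => map_smul e c y
        simp only [h4] at h3
        have h5 : ∀ r, (φ ∘ₗ e.toLinearMap) (δ0 1 (s.1, r) * e.symm a) =
            φ (e (δ0 1 (s.1, r)) * a) := by
          intro r
          change φ (e (δ0 1 (s.1, r) * e.symm a)) = _
          rw [map_mul, AlgEquiv.apply_symm_apply]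
        simp only [h5] at h3
        exact h3) s.2
    exact key

/-- injectivity of a ring over itself transports along isomorphisms -/
theorem injective_of_equiv {A A' : Type} [Ring A] [Ring A'] (e : A ≃+* A')
    (h : Module.Injective A' A') : Module.Injective A A := by
  refine ⟨fun U V _ _ _ _ f hf u => ?_⟩
  let _ : Module A' U := Module.compHom U (e.symm : A' →+* A)
  let _ : Module A' V := Module.compHom V (e.symm : A' →+* A)
  have hU : ∀ (c : A') (z : U), c • z = e.symm c • z := fun _ _ => rfl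
  have hV : ∀ (c : A') (z : V), c • z = e.symm c • z := fun _ _ => rfl
  let f' : U →ₗ[A'] V :=
    { toFun := f
      map_add' := map_add f
      map_smul' := fun c z => by rw [hU, map_smul]; rfl }
  let u' : U →ₗ[A'] A' :=
    { toFun := fun z => e (u z)
      map_add' := fun z w => by rw [map_add, map_add]
      map_smul' := fun c z => by
        rw [hU, map_smul, smul_eq_mul, map_mul, RingEquiv.apply_symm_apply]
        rfl }
  obtain ⟨v, hv⟩ := h.out f' hf u'
  refine ⟨{ toFun := fun z => e.symm (v z)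
            map_add' := fun z w => by rw [map_add, map_add]
            map_smul' := fun c z => ?_ }, fun z => ?_⟩
  · have h1 : (c • z : V) = e c • z := by rw [hV, RingEquiv.symm_apply_apply]
    rw [h1, map_smul, smul_eq_mul, map_mul, RingEquiv.symm_apply_apply]
    rfl
  · change e.symm (v (f' z)) = u z
    rw [hv]
    exact e.symm_apply_apply _

/-- the endomorphism ring of a projective generator over a Frobenius algebra is injective -/
theorem selfinj_of_proj (lam : R →ₗ[K] K) (hlam : ∀ r, (∀ r', lam (r' * r) = 0) → r = 0)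
    (hG : Module.Projective R (R × X)) :
    Module.Injective (Module.End R (R × X)) (Module.End R (R × X)) := by
  have hinj : Module.Injective (Module.End R (R × X)) (R × X) := inj_G (k := K) lam hlam
  have hfin : Module.Finite R (R × X) := by
    have h1 : Module.Finite R X := Module.Finite.of_restrictScalars_finite K R X
    infer_instance
  obtain ⟨m, p, hp⟩ := Module.Finite.exists_fin' R (R × X)
  obtain ⟨s, hs⟩ := Module.projective_lifting_property p LinearMap.id hp
  let I : Module.End R (R × X) →ₗ[Module.End R (R × X)] (Fin m → R × X) :=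
    { toFun := fun a j => a (p (Pi.single j 1))
      map_add' := fun _ _ => rfl
      map_smul' := fun _ _ => rfl }
  let J : (Fin m → R × X) →ₗ[Module.End R (R × X)] Module.End R (R × X) :=
    { toFun := fun v => (∑ j, (LinearMap.toSpanSingleton R (R × X) (v j)) ∘ₗ LinearMap.proj j) ∘ₗ s
      map_add' := fun v w => by
        apply LinearMap.ext
        intro y
        rw [LinearMap.add_apply, LinearMap.comp_apply, LinearMap.comp_apply, LinearMap.comp_apply,
          LinearMap.sum_apply, LinearMap.sum_apply, LinearMap.sum_apply, ← Finset.sum_add_distrib]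
        refine Finset.sum_congr rfl fun j _ => ?_
        change s y j • (v j + w j) = s y j • v j + s y j • w j
        rw [smul_add]
      map_smul' := fun a v => by
        apply LinearMap.ext
        intro y
        rw [RingHom.id_apply, LinearMap.comp_apply, LinearMap.sum_apply]
        change _ = a (((∑ j, (LinearMap.toSpanSingleton R (R × X) (v j)) ∘ₗ LinearMap.proj j) ∘ₗ s) y)
        rw [LinearMap.comp_apply, LinearMap.sum_apply, map_sum]
        refine Finset.sum_congr rfl fun j _ => ?_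
        change s y j • (a (v j)) = a (s y j • v j)
        rw [map_smul] }
  have hJI : J ∘ₗ I = LinearMap.id := by
    apply LinearMap.ext
    intro a
    apply LinearMap.ext
    intro y
    change (∑ j, (LinearMap.toSpanSingleton R (R × X) (a (p (Pi.single j 1)))) ∘ₗ
      LinearMap.proj j) (s y) = a y
    rw [LinearMap.sum_apply]
    have h3 : ∀ j, ((LinearMap.toSpanSingleton R (R × X) (a (p (Pi.single j 1)))) ∘ₗ
      LinearMap.proj j) (s y) = a (p (s y j • Pi.single j 1)) := by
      intro j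
      rw [map_smul, map_smul]
      rfl
    rw [Finset.sum_congr rfl fun j _ => h3 j, ← map_sum, ← map_sum]
    have h4 : ∑ j, s y j • (Pi.single j (1 : R) : Fin m → R) = s y := by
      funext i
      rw [Finset.sum_apply, Finset.sum_eq_single i]
      · rw [Pi.smul_apply, Pi.single_eq_same, smul_eq_mul, mul_one]
      · intro j _ hij
        rw [Pi.smul_apply, Pi.single_eq_of_ne (Ne.symm hij), smul_zero]
      · intro h; exact absurd (Finset.mem_univ i) h
    rw [h4]
    have h5 : p (s y) = y := LinearMap.congr_fun hs y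
    rw [h5]
  have hpow : Module.Injective (Module.End R (R × X)) (Fin m → R × X) := inferInstance
  refine ⟨fun U V _ _ _ _ f hf u => ?_⟩
  obtain ⟨v, hv⟩ := hpow.out f hf (I ∘ₗ u)
  refine ⟨J ∘ₗ v, fun z => ?_⟩
  rw [LinearMap.comp_apply, hv]
  exact LinearMap.congr_fun hJI (u z)

end Gen

end Run7.h692
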