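import Mathlib

set_option autoImplicit false
open scoped TensorProduct
open CategoryTheory

namespace Run7.h692

/-- The Gorenstein bimodule conjecture for the algebra `A`: the algebra `A` is selfinjective iff
it is Gorenstein projective as a bimodule. (This is the body of the frozen statement of the
problem, for one algebra.) -/
def GorensteinBimoduleConjectureFor (k A : Type) [Field k] [Ring A] [Algebra k A] : Prop :=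
  ∀ [Module (A ⊗[k] Aᵐᵒᵖ) A],
    (∀ (a : A) (b : Aᵐᵒᵖ) (x : A), (a ⊗ₜ[k] b) • x = a * x * MulOpposite.unop b) →
    ∀ [HasExt.{1} (ModuleCat.{0} (A ⊗[k] Aᵐᵒᵖ))]
      [HasExt.{1} (ModuleCat.{0} ((A ⊗[k] Aᵐᵒᵖ)ᵐᵒᵖ))],
    (Module.Injective A A ↔
      ((∀ m : A, (∀ f : A →ₗ[A ⊗[k] Aᵐᵒᵖ] (A ⊗[k] Aᵐᵒᵖ), f m = 0) → m = 0) ∧
       (∀ φ : (A →ₗ[A ⊗[k] Aᵐᵒᵖ] (A ⊗[k] Aᵐᵒᵖ)) →ₗ[((A ⊗[k] Aᵐᵒᵖ)ᵐᵒᵖ)] (A ⊗[k] Aᵐᵒᵖ),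
          ∃ m : A, ∀ f : A →ₗ[A ⊗[k] Aᵐᵒᵖ] (A ⊗[k] Aᵐᵒᵖ), φ f = f m) ∧
       (∀ i : ℕ, 1 ≤ i →
          Subsingleton (Abelian.Ext.{1} (ModuleCat.of (A ⊗[k] Aᵐᵒᵖ) A)
            (ModuleCat.of (A ⊗[k] Aᵐᵒᵖ) (A ⊗[k] Aᵐᵒᵖ)) i)) ∧
       (∀ i : ℕ, 1 ≤ i →
          Subsingleton (Abelian.Ext.{1}
            (ModuleCat.of ((A ⊗[k] Aᵐᵒᵖ)ᵐᵒᵖ) (A →ₗ[A ⊗[k] Aᵐᵒᵖ] (A ⊗[k] Aᵐᵒᵖ)))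
            (ModuleCat.of ((A ⊗[k] Aᵐᵒᵖ)ᵐᵒᵖ) (A ⊗[k] Aᵐᵒᵖ)) i))))

end Run7.h692
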