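import Pool.Agent.Run7.h692.ResSeq

set_option autoImplicit false
set_option linter.unusedSectionVars false
open scoped TensorProduct
open MulOpposite CategoryTheory Pool.Agent.Helper426Tach

namespace Run7.h692

section Coord

variable {K A : Type} [Field K] [Ring A] [Algebra K A]
variable {d : ℕ} (bs : Module.Basis (Fin d) K A)

/-- coordinates on the enveloping algebra -/
noncomputable def cA (v : Fin d → A) : A ⊗[K] Aᵐᵒᵖ := ∑ r, bs r ⊗ₜ[K] op (v r)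

theorem cA_add (v w : Fin d → A) : cA bs (v + w) = cA bs v + cA bs w := by
  unfold cA
  rw [← Finset.sum_add_distrib]
  exact Finset.sum_congr rfl fun r _ => by rw [Pi.add_apply, MulOpposite.op_add, TensorProduct.tmul_add]

theorem cA_zero : cA bs (0 : Fin d → A) = 0 := by
  unfold cA
  exact Finset.sum_eq_zero fun r _ => by rw [Pi.zero_apply, MulOpposite.op_zero, TensorProduct.tmul_zero]

theorem cA_mul (v : Fin d → A) (c : A) :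
    cA bs (fun r => v r * c) = ((1 : A) ⊗ₜ[K] op c) * cA bs v := by
  unfold cA
  rw [Finset.mul_sum]
  exact Finset.sum_congr rfl fun r _ => by
    rw [Algebra.TensorProduct.tmul_mul_tmul, one_mul, ← op_mul]

theorem cA_eq (v : Fin d → A) : cA bs v = (TensorProduct.equivFinsuppOfBasisLeft bs).symm
    (Finsupp.equivFunOnFinite.symm fun r => op (v r)) := by
  classical
  rw [TensorProduct.equivFinsuppOfBasisLeft_symm_apply, Finsupp.sum_fintype]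
  · rfl
  · intro i
    exact TensorProduct.tmul_zero _ _

theorem cA_inj : Function.Injective (cA bs) := by
  classical
  intro v w hvw
  rw [cA_eq, cA_eq] at hvw
  have h1 := (TensorProduct.equivFinsuppOfBasisLeft (N := Aᵐᵒᵖ) bs).symm.injective hvw
  have h2 := Finsupp.equivFunOnFinite.symm.injective h1
  funext r
  exact op_injective (congrFun h2 r)

theorem cA_surj : Function.Surjective (cA bs) := by
  classical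
  intro z
  obtain ⟨f, rfl⟩ := (TensorProduct.equivFinsuppOfBasisLeft (N := Aᵐᵒᵖ) bs).symm.surjective z
  refine ⟨fun r => unop (f r), ?_⟩
  rw [cA_eq]
  congr 1
  ext r
  rfl

/-- the pairing of a functional with the right factor -/
noncomputable def contr (φ : A →ₗ[K] K) : A ⊗[K] Aᵐᵒᵖ →ₗ[K] A :=
  TensorProduct.lift (LinearMap.mk₂ K (fun (a : A) (b : Aᵐᵒᵖ) => φ (unop b) • a)
    (fun a a' b => by rw [smul_add]) (fun c a b => by rw [smul_comm])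
    (fun a b b' => by rw [MulOpposite.unop_add, map_add, add_smul])
    (fun c a b => by rw [MulOpposite.unop_smul, map_smul, smul_assoc]))

theorem contr_tmul (φ : A →ₗ[K] K) (a : A) (b : Aᵐᵒᵖ) :
    contr φ (a ⊗ₜ[K] b) = φ (unop b) • a := rfl

theorem contr_left (φ : A →ₗ[K] K) (a : A) (z : A ⊗[K] Aᵐᵒᵖ) :
    contr φ ((a ⊗ₜ[K] (1 : Aᵐᵒᵖ)) * z) = a * contr φ z := by
  induction z using TensorProduct.induction_on with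
  | zero => simp
  | tmul x y =>
    rw [Algebra.TensorProduct.tmul_mul_tmul, contr_tmul, contr_tmul, one_mul, mul_smul_comm]
  | add u v hu hv => rw [mul_add, map_add, map_add, hu, hv, mul_add]

theorem contr_cA (φ : A →ₗ[K] K) (v : Fin d → A) : contr φ (cA bs v) = ∑ r, φ (v r) • bs r := by
  unfold cA
  rw [map_sum]
  exact Finset.sum_congr rfl fun r _ => by rw [contr_tmul, unop_op]

/-- left multiplication, as a map of right modules -/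
noncomputable def lmul (l : A ⊗[K] Aᵐᵒᵖ) :
    (A ⊗[K] Aᵐᵒᵖ) →ₗ[(A ⊗[K] Aᵐᵒᵖ)ᵐᵒᵖ] (A ⊗[K] Aᵐᵒᵖ) where
  toFun z := l * z
  map_add' u v := mul_add l u v
  map_smul' s z := by
    rw [RingHom.id_apply]
    change l * (z * unop s) = l * z * unop s
    rw [mul_assoc]

/-- the coordinate map on functionals -/
noncomputable def Th (n : ℕ) (v : Fin n × Fin d → A) :
    (Fin n → (A ⊗[K] Aᵐᵒᵖ)ᵐᵒᵖ) →ₗ[(A ⊗[K] Aᵐᵒᵖ)ᵐᵒᵖ] (A ⊗[K] Aᵐᵒᵖ) :=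
  ∑ l, (LinearMap.toSpanSingleton (A ⊗[K] Aᵐᵒᵖ)ᵐᵒᵖ (A ⊗[K] Aᵐᵒᵖ)
    (cA bs fun r => v (l, r))) ∘ₗ LinearMap.proj l

theorem Th_single (n : ℕ) (v : Fin n × Fin d → A) (l : Fin n) :
    Th bs n v (Pi.single l 1) = cA bs fun r => v (l, r) := by
  classical
  unfold Th
  rw [LinearMap.sum_apply, Finset.sum_eq_single l]
  · rw [LinearMap.comp_apply, LinearMap.proj_apply, LinearMap.toSpanSingleton_apply,
      Pi.single_eq_same, one_smul]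
  · intro j _ hj
    rw [LinearMap.comp_apply, LinearMap.proj_apply, LinearMap.toSpanSingleton_apply,
      Pi.single_eq_of_ne hj]
    exact zero_smul (A ⊗[K] Aᵐᵒᵖ)ᵐᵒᵖ (cA bs fun r => v (j, r))
  · intro h; exact absurd (Finset.mem_univ l) h

theorem hom_ext_single {n : ℕ} {S : Type} [Ring S] {M : Type} [AddCommGroup M] [Module S M]
    {f g : (Fin n → S) →ₗ[S] M} (h : ∀ l, f (Pi.single l 1) = g (Pi.single l 1)) : f = g := by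
  apply LinearMap.ext
  intro x
  have h1 : x = ∑ l, x l • (Pi.single l (1 : S) : Fin n → S) := by
    funext j
    rw [Finset.sum_apply, Finset.sum_eq_single j]
    · rw [Pi.smul_apply, Pi.single_eq_same, smul_eq_mul, mul_one]
    · intro i _ hij
      rw [Pi.smul_apply, Pi.single_eq_of_ne (Ne.symm hij), smul_zero]
    · intro h; exact absurd (Finset.mem_univ j) h
  rw [h1, map_sum, map_sum]
  exact Finset.sum_congr rfl fun l _ => by rw [map_smul, map_smul, h]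

theorem Th_bij (n : ℕ) : Function.Bijective (Th bs n) := by
  constructor
  · intro v w hvw
    funext s
    have h1 := LinearMap.congr_fun hvw (Pi.single s.1 1)
    rw [Th_single, Th_single] at h1
    exact congrFun (cA_inj bs h1) s.2
  · intro ψ
    choose v hv using fun l => cA_surj bs (ψ (Pi.single l 1))
    refine ⟨fun s => v s.1 s.2, hom_ext_single fun l => ?_⟩
    rw [Th_single]
    exact hv l

theorem Th_add (n : ℕ) (v w : Fin n × Fin d → A) : Th bs n (v + w) = Th bs n v + Th bs n w := by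
  apply hom_ext_single
  intro l
  rw [LinearMap.add_apply, Th_single, Th_single, Th_single, ← cA_add]
  rfl

theorem Th_mul (n : ℕ) (v : Fin n × Fin d → A) (c : A) :
    Th bs n (fun s => v s * c) = lmul ((1 : A) ⊗ₜ[K] op c) ∘ₗ Th bs n v := by
  apply hom_ext_single
  intro l
  rw [Th_single, LinearMap.comp_apply, Th_single]
  exact cA_mul bs _ c

/-- the coordinate equivalence -/
noncomputable def ThE (n : ℕ) : (Fin n × Fin d → A) ≃+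
    ((Fin n → (A ⊗[K] Aᵐᵒᵖ)ᵐᵒᵖ) →ₗ[(A ⊗[K] Aᵐᵒᵖ)ᵐᵒᵖ] (A ⊗[K] Aᵐᵒᵖ)) :=
  AddEquiv.ofBijective (AddMonoidHom.mk' (Th bs n) (Th_add bs n)) (Th_bij bs n)

theorem ThE_apply (n : ℕ) (v : Fin n × Fin d → A) : ThE bs n v = Th bs n v := rfl

/-- the map of coordinates induced by a map of free modules -/
noncomputable def dl {n m : ℕ} (D : (Fin m → (A ⊗[K] Aᵐᵒᵖ)ᵐᵒᵖ) →ₗ[(A ⊗[K] Aᵐᵒᵖ)ᵐᵒᵖ]
    (Fin n → (A ⊗[K] Aᵐᵒᵖ)ᵐᵒᵖ)) : (Fin n × Fin d → A) →+ (Fin m × Fin d → A) :=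
  AddMonoidHom.mk' (fun v => (ThE bs m).symm (Th bs n v ∘ₗ D)) (fun v w => by
    rw [Th_add, LinearMap.add_comp, map_add])

theorem Th_dl {n m : ℕ} (D : (Fin m → (A ⊗[K] Aᵐᵒᵖ)ᵐᵒᵖ) →ₗ[(A ⊗[K] Aᵐᵒᵖ)ᵐᵒᵖ]
    (Fin n → (A ⊗[K] Aᵐᵒᵖ)ᵐᵒᵖ)) (v : Fin n × Fin d → A) :
    Th bs m (dl bs D v) = Th bs n v ∘ₗ D := by
  rw [← ThE_apply]
  change ThE bs m ((ThE bs m).symm _) = _
  rw [AddEquiv.apply_symm_apply]

theorem dl_mul {n m : ℕ} (D : (Fin m → (A ⊗[K] Aᵐᵒᵖ)ᵐᵒᵖ) →ₗ[(A ⊗[K] Aᵐᵒᵖ)ᵐᵒᵖ]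
    (Fin n → (A ⊗[K] Aᵐᵒᵖ)ᵐᵒᵖ)) (v : Fin n × Fin d → A) (c : A) :
    dl bs D (fun s => v s * c) = fun s => dl bs D v s * c := by
  apply (Th_bij bs m).1
  rw [Th_dl, Th_mul, Th_mul, Th_dl]
  rfl

theorem dl_eq_zero {n m : ℕ} (D : (Fin m → (A ⊗[K] Aᵐᵒᵖ)ᵐᵒᵖ) →ₗ[(A ⊗[K] Aᵐᵒᵖ)ᵐᵒᵖ]
    (Fin n → (A ⊗[K] Aᵐᵒᵖ)ᵐᵒᵖ)) (v : Fin n × Fin d → A) :
    dl bs D v = 0 ↔ Th bs n v ∘ₗ D = 0 := by
  rw [← Th_dl]
  constructor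
  · intro h
    rw [h, ← ThE_apply, map_zero]
  · intro h
    rw [← ThE_apply] at h
    exact (ThE bs m).injective (h.trans (map_zero _).symm)

end Coord

section GP

variable {K A : Type} [Field K] [Ring A] [Algebra K A] [FiniteDimensional K A]
  [Module (A ⊗[K] Aᵐᵒᵖ) A]
variable (hc : ∀ (a : A) (b : Aᵐᵒᵖ) (x : A), (a ⊗ₜ[K] b) • x = a * x * unop b)
  (ht : ∀ m : A, (∀ f : A →ₗ[A ⊗[K] Aᵐᵒᵖ] (A ⊗[K] Aᵐᵒᵖ), f m = 0) → m = 0)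
  (hr : ∀ φ : (A →ₗ[A ⊗[K] Aᵐᵒᵖ] (A ⊗[K] Aᵐᵒᵖ)) →ₗ[((A ⊗[K] Aᵐᵒᵖ)ᵐᵒᵖ)] (A ⊗[K] Aᵐᵒᵖ),
      ∃ m : A, ∀ f : A →ₗ[A ⊗[K] Aᵐᵒᵖ] (A ⊗[K] Aᵐᵒᵖ), φ f = f m)
  (h1 : Subsingleton (Abelian.Ext.{0}
      (ModuleCat.of ((A ⊗[K] Aᵐᵒᵖ)ᵐᵒᵖ) (A →ₗ[A ⊗[K] Aᵐᵒᵖ] (A ⊗[K] Aᵐᵒᵖ)))
      (ModuleCat.of ((A ⊗[K] Aᵐᵒᵖ)ᵐᵒᵖ) (A ⊗[K] Aᵐᵒᵖ)) 1))
  (h2 : Subsingleton (Abelian.Ext.{0}
      (ModuleCat.of ((A ⊗[K] Aᵐᵒᵖ)ᵐᵒᵖ) (A →ₗ[A ⊗[K] Aᵐᵒᵖ] (A ⊗[K] Aᵐᵒᵖ)))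
      (ModuleCat.of ((A ⊗[K] Aᵐᵒᵖ)ᵐᵒᵖ) (A ⊗[K] Aᵐᵒᵖ)) 2))

theorem noethOp : IsNoetherianRing (A ⊗[K] Aᵐᵒᵖ)ᵐᵒᵖ := by
  have h3 : Module.Finite K Aᵐᵒᵖ := Module.Finite.equiv (MulOpposite.opLinearEquiv K)
  have h4 : Module.Finite K (A ⊗[K] Aᵐᵒᵖ) := inferInstance
  have h5 : Module.Finite K (A ⊗[K] Aᵐᵒᵖ)ᵐᵒᵖ := Module.Finite.equiv (MulOpposite.opLinearEquiv K)
  exact isNoetherian_of_tower K inferInstance

include hc in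
theorem w_left (f : A →ₗ[A ⊗[K] Aᵐᵒᵖ] (A ⊗[K] Aᵐᵒᵖ)) (a : A) :
    f a = (a ⊗ₜ[K] (1 : Aᵐᵒᵖ)) * f 1 := by
  rw [← smul_eq_mul, ← map_smul, hc, mul_one, unop_one, mul_one]

include hc in
theorem w_right (f : A →ₗ[A ⊗[K] Aᵐᵒᵖ] (A ⊗[K] Aᵐᵒᵖ)) (m a : A) :
    f (m * a) = ((1 : A) ⊗ₜ[K] op a) * f m := by
  rw [← smul_eq_mul (((1 : A) ⊗ₜ[K] op a)), ← map_smul, hc, one_mul, unop_op]

include hc in
theorem finiteDual : Module.Finite (A ⊗[K] Aᵐᵒᵖ)ᵐᵒᵖ (A →ₗ[A ⊗[K] Aᵐᵒᵖ] (A ⊗[K] Aᵐᵒᵖ)) := by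
  have h3 := noethOp (K := K) (A := A)
  have h4 : Module.Finite (A ⊗[K] Aᵐᵒᵖ)ᵐᵒᵖ (A ⊗[K] Aᵐᵒᵖ) := by
    refine Module.Finite.of_surjective
      (LinearMap.toSpanSingleton (A ⊗[K] Aᵐᵒᵖ)ᵐᵒᵖ (A ⊗[K] Aᵐᵒᵖ) 1) (fun z => ⟨op z, ?_⟩)
    rw [LinearMap.toSpanSingleton_apply]
    change (1 : A ⊗[K] Aᵐᵒᵖ) * z = z
    rw [one_mul]
  let e : (A →ₗ[A ⊗[K] Aᵐᵒᵖ] (A ⊗[K] Aᵐᵒᵖ)) →ₗ[(A ⊗[K] Aᵐᵒᵖ)ᵐᵒᵖ] (A ⊗[K] Aᵐᵒᵖ) :=
    { toFun := fun f => f 1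
      map_add' := fun _ _ => rfl
      map_smul' := fun _ _ => rfl }
  refine Module.Finite.of_injective e (fun f g hfg => ?_)
  apply LinearMap.ext
  intro a
  rw [w_left hc, w_left hc g]
  exact congrArg (fun z => (a ⊗ₜ[K] (1 : Aᵐᵒᵖ)) * z) hfg

/-- evaluation at an element -/
noncomputable def evA (m : A) :
    (A →ₗ[A ⊗[K] Aᵐᵒᵖ] (A ⊗[K] Aᵐᵒᵖ)) →ₗ[(A ⊗[K] Aᵐᵒᵖ)ᵐᵒᵖ] (A ⊗[K] Aᵐᵒᵖ) where
  toFun f := f m
  map_add' _ _ := rfl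
  map_smul' _ _ := rfl

theorem evA_apply (m : A) (f : A →ₗ[A ⊗[K] Aᵐᵒᵖ] (A ⊗[K] Aᵐᵒᵖ)) : evA m f = f m := rfl

theorem evA_add (m m' : A) : evA (K := K) (m + m') = evA m + evA m' := by
  apply LinearMap.ext
  intro f
  rw [LinearMap.add_apply, evA_apply, evA_apply, evA_apply, map_add]

/-- the augmentation in coordinates -/
noncomputable def dz {d : ℕ} (bs : Module.Basis (Fin d) K A) {n0 : ℕ}
    (p0 : (Fin n0 → (A ⊗[K] Aᵐᵒᵖ)ᵐᵒᵖ) →ₗ[(A ⊗[K] Aᵐᵒᵖ)ᵐᵒᵖ]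
      (A →ₗ[A ⊗[K] Aᵐᵒᵖ] (A ⊗[K] Aᵐᵒᵖ))) : A →+ (Fin n0 × Fin d → A) :=
  AddMonoidHom.mk' (fun m => (ThE bs n0).symm (evA m ∘ₗ p0)) (fun m m' => by
    rw [evA_add, LinearMap.add_comp, map_add])

theorem Th_dz {d : ℕ} (bs : Module.Basis (Fin d) K A) {n0 : ℕ}
    (p0 : (Fin n0 → (A ⊗[K] Aᵐᵒᵖ)ᵐᵒᵖ) →ₗ[(A ⊗[K] Aᵐᵒᵖ)ᵐᵒᵖ]
      (A →ₗ[A ⊗[K] Aᵐᵒᵖ] (A ⊗[K] Aᵐᵒᵖ))) (m : A) : Th bs n0 (dz bs p0 m) = evA m ∘ₗ p0 := by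
  rw [← ThE_apply]
  change ThE bs n0 ((ThE bs n0).symm _) = _
  rw [AddEquiv.apply_symm_apply]

theorem Th_zero {d : ℕ} (bs : Module.Basis (Fin d) K A) (n : ℕ) :
    Th bs n (0 : Fin n × Fin d → A) = 0 := by
  rw [← ThE_apply, map_zero]

include hc in
theorem dz_mul {d : ℕ} (bs : Module.Basis (Fin d) K A) {n0 : ℕ}
    (p0 : (Fin n0 → (A ⊗[K] Aᵐᵒᵖ)ᵐᵒᵖ) →ₗ[(A ⊗[K] Aᵐᵒᵖ)ᵐᵒᵖ]
      (A →ₗ[A ⊗[K] Aᵐᵒᵖ] (A ⊗[K] Aᵐᵒᵖ))) (v c : A) :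
    dz bs p0 (v * c) = fun i => dz bs p0 v i * c := by
  apply (Th_bij bs n0).1
  rw [Th_mul, Th_dz, Th_dz]
  apply LinearMap.ext
  intro z
  exact w_right hc (p0 z) v c

include hc in
theorem dz_cent {d : ℕ} (bs : Module.Basis (Fin d) K A) {n0 : ℕ}
    (p0 : (Fin n0 → (A ⊗[K] Aᵐᵒᵖ)ᵐᵒᵖ) →ₗ[(A ⊗[K] Aᵐᵒᵖ)ᵐᵒᵖ]
      (A →ₗ[A ⊗[K] Aᵐᵒᵖ] (A ⊗[K] Aᵐᵒᵖ))) (l : Fin n0) (φ : A →ₗ[K] K) (a : A) :
      a * ∑ r, φ (dz bs p0 1 (l, r)) • bs r = ∑ r, φ (dz bs p0 1 (l, r) * a) • bs r := by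
  have h3 := LinearMap.congr_fun (Th_dz bs p0 1) (Pi.single l 1)
  rw [Th_single] at h3
  have h4 : cA bs (fun r => dz bs p0 1 (l, r)) = (p0 (Pi.single l 1)) 1 := h3
  rw [← contr_cA, ← contr_left, h4, ← w_left hc, ← contr_cA, cA_mul, h4]
  conv_lhs => rw [← one_mul a, w_right hc]

include hc ht hr h1 h2 in
/-- the equivariant sequences attached to a bimodule satisfying the first conditions -/
theorem exists_delta {d : ℕ} (bs : Module.Basis (Fin d) K A) : ∃ (n0 n1 n2 n3 : ℕ)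
    (δ0 : A →+ (Fin n0 × Fin d → A)) (δ1 : (Fin n0 × Fin d → A) →+ (Fin n1 × Fin d → A))
    (δ2 : (Fin n1 × Fin d → A) →+ (Fin n2 × Fin d → A))
    (δ3 : (Fin n2 × Fin d → A) →+ (Fin n3 × Fin d → A)),
    (∀ v c, δ0 (v * c) = fun i => δ0 v i * c) ∧
    (∀ v c, δ1 (fun i => v i * c) = fun i => δ1 v i * c) ∧
    (∀ v c, δ2 (fun i => v i * c) = fun i => δ2 v i * c) ∧
    (∀ v c, δ3 (fun i => v i * c) = fun i => δ3 v i * c) ∧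
    (∀ a, δ0 a = 0 → a = 0) ∧
    (∀ v, δ1 v = 0 → ∃ a, δ0 a = v) ∧ (∀ v, δ2 v = 0 → ∃ a, δ1 a = v) ∧
    (∀ v, δ3 v = 0 → ∃ a, δ2 a = v) ∧
    (∀ a, δ1 (δ0 a) = 0) ∧ (∀ a, δ2 (δ1 a) = 0) ∧ (∀ a, δ3 (δ2 a) = 0) ∧
    (∀ l (φ : A →ₗ[K] K) (a : A),
      a * ∑ r, φ (δ0 1 (l, r)) • bs r = ∑ r, φ (δ0 1 (l, r) * a) • bs r) := by
  have hS := noethOp (K := K) (A := A)
  have hW := finiteDual (K := K) (A := A) hc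
  obtain ⟨n0, n1, n2, n3, p0, D1, D2, D3, hp0, q1, q2, q3, e0, e1, e2⟩ :=
    exists_res (S := (A ⊗[K] Aᵐᵒᵖ)ᵐᵒᵖ) (A →ₗ[A ⊗[K] Aᵐᵒᵖ] (A ⊗[K] Aᵐᵒᵖ)) (A ⊗[K] Aᵐᵒᵖ) h1 h2
  refine ⟨n0, n1, n2, n3, dz bs p0, dl bs D1, dl bs D2, dl bs D3, dz_mul hc bs p0, dl_mul bs D1,
    dl_mul bs D2, dl_mul bs D3, ?_, ?_, ?_, ?_, ?_, ?_, ?_, dz_cent hc bs p0⟩
  · intro m hm
    apply ht
    intro f
    obtain ⟨z, rfl⟩ := hp0 f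
    have h3 := LinearMap.congr_fun (Th_dz bs p0 m) z
    rw [hm, Th_zero] at h3
    exact h3.symm
  · intro v hv
    rw [dl_eq_zero] at hv
    obtain ⟨ψ', hψ'⟩ := e0 _ hv
    obtain ⟨m, hm⟩ := hr ψ'
    refine ⟨m, (Th_bij bs n0).1 ?_⟩
    rw [Th_dz]
    apply LinearMap.ext
    intro z
    rw [← hψ' z, hm]
    rfl
  · intro v hv
    rw [dl_eq_zero] at hv
    obtain ⟨χ, hχ⟩ := e1 _ hv
    obtain ⟨w, hw⟩ := (Th_bij bs n0).2 χ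
    refine ⟨w, (Th_bij bs n1).1 ?_⟩
    rw [Th_dl, hw, hχ]
  · intro v hv
    rw [dl_eq_zero] at hv
    obtain ⟨χ, hχ⟩ := e2 _ hv
    obtain ⟨w, hw⟩ := (Th_bij bs n1).2 χ
    refine ⟨w, (Th_bij bs n2).1 ?_⟩
    rw [Th_dl, hw, hχ]
  · intro m
    rw [dl_eq_zero, Th_dz]
    apply LinearMap.ext
    intro z
    rw [LinearMap.comp_apply, LinearMap.comp_apply, q1, map_zero, LinearMap.zero_apply]
  · intro m
    rw [dl_eq_zero, Th_dl]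
    apply LinearMap.ext
    intro z
    rw [LinearMap.comp_apply, LinearMap.comp_apply, q2, map_zero, LinearMap.zero_apply]
  · intro m
    rw [dl_eq_zero, Th_dl]
    apply LinearMap.ext
    intro z
    rw [LinearMap.comp_apply, LinearMap.comp_apply, q3, map_zero, LinearMap.zero_apply]

end GP

end Run7.h692
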