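import Pool.Agent.Run7.h692.SelfInj

set_option autoImplicit false
set_option linter.unusedSectionVars false
open scoped TensorProduct
open CategoryTheory MulOpposite Pool.Agent.Helper426Tach Pool.Agent.Helper426GSC
  Pool.Agent.Helper426TauT

namespace Run7.h692

section Coind

variable {K A : Type} [Field K] [Ring A] [Algebra K A]

theorem hb_coind_injective (X : Type) [AddCommGroup X] [Module A X] [Module K X]
    [IsScalarTower K A X] (hX : Module.Injective A X) :
    Module.Injective (A ⊗[K] Aᵐᵒᵖ) (HB K A A X) := by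
  let φ : A →+* A ⊗[K] Aᵐᵒᵖ := (Algebra.TensorProduct.includeLeft : A →ₐ[K] A ⊗[K] Aᵐᵒᵖ).toRingHom
  have hφ : ∀ a : A, φ a = a ⊗ₜ[K] 1 := fun a => rfl
  refine ⟨fun U V _ _ _ _ i hi g => ?_⟩
  let _ : Module A U := Module.compHom U φ
  let _ : Module A V := Module.compHom V φ
  have hU : ∀ (a : A) (u : U), a • u = (a ⊗ₜ[K] (1 : Aᵐᵒᵖ)) • u := fun _ _ => rfl
  have hV : ∀ (a : A) (u : V), a • u = (a ⊗ₜ[K] (1 : Aᵐᵒᵖ)) • u := fun _ _ => rfl
  let i' : U →ₗ[A] V :=
    { toFun := i
      map_add' := map_add i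
      map_smul' := fun a u => by rw [hU, map_smul]; rfl }
  let g' : U →ₗ[A] X :=
    { toFun := fun u => (g u).ev 1
      map_add' := fun u v => by rw [map_add, HB.ev_add]
      map_smul' := fun a u => by
        rw [hU, map_smul, HB.smul_tmul, unop_one, one_smul]
        rfl }
  obtain ⟨h0, hh0⟩ := hX.out i' hi g'
  have hassoc : ∀ (a : A) (b : Aᵐᵒᵖ) (v : V), h0 ((a ⊗ₜ[K] b) • v) = a • h0 (((1 : A) ⊗ₜ[K] b) • v) := by
    intro a b v
    rw [← map_smul, hV, ← mul_smul, Algebra.TensorProduct.tmul_mul_tmul, mul_one, one_mul]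
  let h : V →ₗ[A ⊗[K] Aᵐᵒᵖ] HB K A A X := linOfTmul
    { toFun := fun v => HB.mk
        { toFun := fun y => h0 (((1 : A) ⊗ₜ[K] op y) • v)
          map_add' := fun y z => by
            rw [MulOpposite.op_add, TensorProduct.tmul_add, add_smul, map_add]
          map_smul' := fun c y => by
            have h1 : ((1 : A) ⊗ₜ[K] op (c • y)) = (algebraMap K A c) ⊗ₜ[K] op y := by
              rw [MulOpposite.op_smul, TensorProduct.tmul_smul, TensorProduct.smul_tmul',
                Algebra.smul_def, mul_one]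
            rw [h1, hassoc, algebraMap_smul]
            rfl }
      map_zero' := by
        apply HB.ext
        intro y
        change h0 (((1 : A) ⊗ₜ[K] op y) • (0 : V)) = 0
        rw [smul_zero, map_zero]
      map_add' := fun v w => by
        apply HB.ext
        intro y
        change h0 (((1 : A) ⊗ₜ[K] op y) • (v + w)) =
          h0 (((1 : A) ⊗ₜ[K] op y) • v) + h0 (((1 : A) ⊗ₜ[K] op y) • w)
        rw [smul_add, map_add] }
    (fun a b v => by
      apply HB.ext
      intro y
      rw [HB.smul_tmul]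
      change h0 (((1 : A) ⊗ₜ[K] op y) • ((a ⊗ₜ[K] b) • v)) =
        a • h0 (((1 : A) ⊗ₜ[K] op (unop b • y)) • v)
      rw [← mul_smul, Algebra.TensorProduct.tmul_mul_tmul, one_mul, hassoc]
      rfl)
  refine ⟨h, fun u => HB.ext fun y => ?_⟩
  change h0 (((1 : A) ⊗ₜ[K] op y) • (i u)) = (g u).ev y
  rw [← map_smul]
  have h2 := hh0 (((1 : A) ⊗ₜ[K] op y) • u)
  change h0 (i (((1 : A) ⊗ₜ[K] op y) • u)) = (g (((1 : A) ⊗ₜ[K] op y) • u)).ev 1 at h2
  rw [h2, map_smul, HB.smul_tmul, one_smul, unop_op, smul_eq_mul, mul_one]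

theorem hb_pow_injective {Y X : Type} [AddCommGroup Y] [AddCommGroup X] [Module A Y] [Module A X]
    [Module K Y] [Module K X] [IsScalarTower K A Y] [IsScalarTower K A X]
    (h : Module.Injective (A ⊗[K] Aᵐᵒᵖ) (HB K A Y X)) (n : ℕ) :
    Module.Injective (A ⊗[K] Aᵐᵒᵖ) (HB K A (Fin n → Y) X) := by
  classical
  let s : HB K A (Fin n → Y) X →ₗ[A ⊗[K] Aᵐᵒᵖ] (Fin n → HB K A Y X) :=
    LinearMap.pi fun i => HB.map (LinearMap.single A (fun _ => Y) i) LinearMap.id
  let r : (Fin n → HB K A Y X) →ₗ[A ⊗[K] Aᵐᵒᵖ] HB K A (Fin n → Y) X :=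
    ∑ i, (HB.map (LinearMap.proj i : (Fin n → Y) →ₗ[A] Y) LinearMap.id) ∘ₗ LinearMap.proj i
  have hpow : Module.Injective (A ⊗[K] Aᵐᵒᵖ) (Fin n → HB K A Y X) := inferInstance
  refine inj_of_retract s r ?_ hpow
  refine LinearMap.ext fun x => HB.ext fun y => ?_
  have h1 : r (s x) = ∑ i, (HB.map (LinearMap.proj i : (Fin n → Y) →ₗ[A] Y) LinearMap.id)
      (s x i) := by
    simp only [r, LinearMap.sum_apply, LinearMap.comp_apply, LinearMap.proj_apply]
  change (r (s x)).ev y = x.ev y
  rw [h1, hb_sum_ev]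
  have h2 : ∀ i, ((HB.map (LinearMap.proj i : (Fin n → Y) →ₗ[A] Y) LinearMap.id) (s x i)).ev y =
      x.ev (Pi.single i (y i)) := fun i => rfl
  rw [Finset.sum_congr rfl fun i _ => h2 i, ← map_sum, Finset.univ_sum_single]

variable [FiniteDimensional K A]

/-- the enveloping algebra of a self-injective algebra is self-injective -/
theorem env_injective (hA : Module.Injective A A) :
    Module.Injective (A ⊗[K] Aᵐᵒᵖ) (A ⊗[K] Aᵐᵒᵖ) := by
  have hp := dual_proj_of_inj K hA
  have hf : Module.Finite A (QD K A) := qd_finite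
  obtain ⟨m, p, hp'⟩ := Module.Finite.exists_fin' A (QD K A)
  obtain ⟨s, hs⟩ := Module.projective_lifting_property p LinearMap.id hp'
  have h1 : Module.Injective (A ⊗[K] Aᵐᵒᵖ) (HB K A (Fin m → A) A) :=
    hb_pow_injective (hb_coind_injective A hA) m
  have h2 : Module.Injective (A ⊗[K] Aᵐᵒᵖ) (HB K A (QD K A) A) := by
    refine inj_of_retract (HB.map p LinearMap.id) (HB.map s LinearMap.id) ?_ h1
    refine LinearMap.ext fun x => HB.ext fun y => ?_
    exact congrArg x.ev (LinearMap.congr_fun hs y)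
  exact injective_of_linearEquiv
    (LinearEquiv.ofBijective (baseLin (K := K) (A := A)) baseLin_bij).symm h2

end Coind

section Refl

variable {K L : Type} [Field K] [Ring L] [Algebra K L] [FiniteDimensional K L]

variable (K) in
include K in
/-- finitely generated modules over a self-injective algebra are reflexive -/
theorem reflexive_of_inj (hL : Module.Injective L L) (M : Type) [AddCommGroup M] [Module L M]
    [Module.Finite L M] (φ : (M →ₗ[L] L) →ₗ[Lᵐᵒᵖ] L) : ∃ m : M, ∀ f : M →ₗ[L] L, φ f = f m := by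
  classical
  -- embed `M` into a free module
  have hN : IsNoetherianRing L := isNoeth K L
  have hp := dual_proj_of_inj K hL
  have hf : Module.Finite L (QD K L) := qd_finite
  obtain ⟨n, e, he⟩ := qd_embedding (k := K) (A := L) M
  have hpp : Module.Projective L (Fin n → QD K L) := projective_pi _ fun _ => hp
  obtain ⟨k, p, hp'⟩ := Module.Finite.exists_fin' L (Fin n → QD K L)
  obtain ⟨s, hs⟩ := Module.projective_lifting_property p LinearMap.id hp'
  have hsi : Function.Injective s := by
    intro a b hab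
    have h1 : p (s a) = a := LinearMap.congr_fun hs a
    have h2 : p (s b) = b := LinearMap.congr_fun hs b
    rw [← h1, hab, h2]
  let j : M →ₗ[L] (Fin k → L) := s ∘ₗ e
  have hj : Function.Injective j := hsi.comp he
  -- the candidate
  let v : Fin k → L := fun i => φ ((LinearMap.proj i) ∘ₗ j)
  have hv : ∀ g : (Fin k → L) →ₗ[L] L, φ (g ∘ₗ j) = g v := by
    intro g
    have h1 : g ∘ₗ j = ∑ i, op (g (Pi.single i 1)) • ((LinearMap.proj i : (Fin k → L) →ₗ[L] L) ∘ₗ j) := by
      apply LinearMap.ext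
      intro m
      rw [LinearMap.sum_apply]
      change g (j m) = ∑ i, (j m i) * g (Pi.single i 1)
      conv_lhs => rw [← Finset.univ_sum_single (j m)]
      rw [map_sum]
      refine Finset.sum_congr rfl fun i _ => ?_
      have h2 : (Pi.single i (j m i) : Fin k → L) = (j m i) • Pi.single i 1 := by
        rw [← Pi.single_smul, smul_eq_mul, mul_one]
      rw [h2, map_smul, smul_eq_mul]
    rw [h1, map_sum]
    conv_rhs => rw [← Finset.univ_sum_single v, map_sum]
    refine Finset.sum_congr rfl fun i _ => ?_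
    have h2 : (Pi.single i (v i) : Fin k → L) = (v i) • Pi.single i 1 := by
      rw [← Pi.single_smul, smul_eq_mul, mul_one]
    rw [h2, map_smul, map_smul, smul_eq_mul]
    rfl
  -- `v` lies in the image of `j`
  have hmem : v ∈ LinearMap.range j := by
    rw [← Submodule.Quotient.mk_eq_zero]
    apply torsionless_of_inj K hL ((Fin k → L) ⧸ LinearMap.range j)
    intro f
    have h3 : (f ∘ₗ (LinearMap.range j).mkQ) ∘ₗ j = 0 := by
      apply LinearMap.ext
      intro m
      change f ((LinearMap.range j).mkQ (j m)) = 0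
      have h4 : (LinearMap.range j).mkQ (j m) = 0 := by
        rw [Submodule.mkQ_apply, Submodule.Quotient.mk_eq_zero]
        exact ⟨m, rfl⟩
      rw [h4, map_zero]
    have h5 := hv (f ∘ₗ (LinearMap.range j).mkQ)
    rw [h3, map_zero] at h5
    exact h5.symm
  obtain ⟨m, hm⟩ := hmem
  refine ⟨m, fun f => ?_⟩
  obtain ⟨g, hg⟩ := hL.out j hj f
  have h6 : f = g ∘ₗ j := LinearMap.ext fun y => (hg y).symm
  rw [h6, hv, ← hm]
  rfl

end Refl

end Run7.h692
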