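import Pool.Agent.Run7.h692.QciRes

set_option autoImplicit false
set_option linter.unusedSectionVars false
open scoped TensorProduct

namespace Run7.h692

section

variable {K R : Type} [Field K] [Ring R] [Algebra K R]
variable {X : Type} [AddCommGroup X] [Module R X] [Module K X] [IsScalarTower K R X]
variable {X0 X1 X2 X3 P : Type} [AddCommGroup X0] [AddCommGroup X1] [AddCommGroup X2]
  [AddCommGroup X3] [AddCommGroup P] [Module R X0] [Module R X1] [Module R X2] [Module R X3]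
  [Module R P]

variable (K R) in
theorem proj_ind (N : Type) [AddCommGroup N] [Module K N] : Module.Projective R (R ⊗[K] N) :=
  inferInstance

/-- a map vanishing on the syzygy factors -/
theorem exists_factor {N Y : Type} [AddCommGroup N] [Module R N] [Module K N]
    [IsScalarTower K R N] [AddCommGroup Y] [Module R Y] (f : R ⊗[K] N →ₗ[R] Y)
    (hf : ∀ z : Syz K R N, f z = 0) : ∃ g : N →ₗ[R] Y, ∀ z, g (actMap K R N z) = f z := by
  have hk : LinearMap.ker (actMap K R N) ≤ LinearMap.ker f := fun z hz => hf ⟨z, hz⟩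
  let e := (actMap K R N).quotKerEquivOfSurjective (actMap_surj K R N)
  refine ⟨(Submodule.liftQ _ f hk) ∘ₗ e.symm.toLinearMap, fun z => ?_⟩
  have h3 : e.symm (actMap K R N z) = Submodule.Quotient.mk z := by
    rw [LinearEquiv.symm_apply_eq]
    rfl
  change (Submodule.liftQ _ f hk) (e.symm (actMap K R N z)) = _
  rw [h3]
  rfl

/-- lifting maps from projective modules along an exact pair -/
theorem exists_lift {F Y Z W : Type} [AddCommGroup F] [AddCommGroup Y] [AddCommGroup Z]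
    [AddCommGroup W] [Module R F] [Module R Y] [Module R Z] [Module R W]
    [Module.Projective R F] (d : Y →ₗ[R] Z) (d' : Z →ₗ[R] W)
    (hex : ∀ z, d' z = 0 → ∃ y, d y = z) (f : F →ₗ[R] Z) (hf : ∀ u, d' (f u) = 0) :
    ∃ g : F →ₗ[R] Y, ∀ u, d (g u) = f u := by
  let f' : F →ₗ[R] LinearMap.range d := LinearMap.codRestrict _ f (fun u => by
    obtain ⟨y, hy⟩ := hex _ (hf u)
    exact ⟨y, hy⟩)
  obtain ⟨g, hg⟩ := Module.projective_lifting_property d.rangeRestrict f'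
    (LinearMap.surjective_rangeRestrict d)
  refine ⟨g, fun u => ?_⟩
  exact congrArg Subtype.val (LinearMap.congr_fun hg u)

theorem inj_extend {F P : Type} [AddCommGroup F] [Module R F] [AddCommGroup P] [Module R P]
    (hP : Module.Injective R P) (S : Submodule R F) (f : S →ₗ[R] P) :
    ∃ g : F →ₗ[R] P, ∀ z : S, g z = f z := by
  obtain ⟨g, hg⟩ := hP.out S.subtype S.injective_subtype f
  exact ⟨g, hg⟩

/-- a map from `R × X` given by an element -/
def elt {Y : Type} [AddCommGroup Y] [Module R Y] (y : Y) : (R × X) →ₗ[R] Y :=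
  (LinearMap.toSpanSingleton R Y y) ∘ₗ LinearMap.fst R R X

theorem elt_apply {Y : Type} [AddCommGroup Y] [Module R Y] (y : Y) (g : R × X) :
    elt y g = g.1 • y := rfl

variable (d0 : (R × X) →ₗ[R] X0) (d1 : X0 →ₗ[R] X1) (d2 : X1 →ₗ[R] X2) (d3 : X2 →ₗ[R] X3)
  (h0 : ∀ ψ : (R × X) →ₗ[R] (R × X), d0 ∘ₗ ψ = 0 → ψ = 0)
  (h1 : ∀ ψ : (R × X) →ₗ[R] X0, d1 ∘ₗ ψ = 0 → ∃ χ : (R × X) →ₗ[R] (R × X), ψ = d0 ∘ₗ χ)
  (h2 : ∀ ψ : (R × X) →ₗ[R] X1, d2 ∘ₗ ψ = 0 → ∃ χ : (R × X) →ₗ[R] X0, ψ = d1 ∘ₗ χ)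
  (h3 : ∀ ψ : (R × X) →ₗ[R] X2, d3 ∘ₗ ψ = 0 → ∃ χ : (R × X) →ₗ[R] X1, ψ = d2 ∘ₗ χ)
  (c1 : d1 ∘ₗ d0 = 0) (c2 : d2 ∘ₗ d1 = 0) (c3 : d3 ∘ₗ d2 = 0)
  (hP : Module.Injective R P) (α : (R × X) →ₗ[R] P) (β : P →ₗ[R] X0) (hαβ : d0 = β ∘ₗ α)

include h0 in
theorem d0_inj (g : R × X) (hg : d0 g = 0) : g = 0 := by
  have h4 := h0 (elt g) (LinearMap.ext fun u => by
    change d0 (u.1 • g) = 0
    rw [map_smul, hg, smul_zero])
  have h5 := LinearMap.congr_fun h4 (1, 0)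
  rw [elt_apply, one_smul] at h5
  exact h5

include h1 in
theorem ex0 (y : X0) (hy : d1 y = 0) : ∃ g, d0 g = y := by
  obtain ⟨χ, hχ⟩ := h1 (elt y) (LinearMap.ext fun u => by
    change d1 (u.1 • y) = 0
    rw [map_smul, hy, smul_zero])
  refine ⟨χ (1, 0), ?_⟩
  have h5 := LinearMap.congr_fun hχ (1, 0)
  rw [elt_apply, one_smul] at h5
  exact h5.symm

include h2 in
theorem ex1 (y : X1) (hy : d2 y = 0) : ∃ g, d1 g = y := by
  obtain ⟨χ, hχ⟩ := h2 (elt y) (LinearMap.ext fun u => by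
    change d2 (u.1 • y) = 0
    rw [map_smul, hy, smul_zero])
  refine ⟨χ (1, 0), ?_⟩
  have h5 := LinearMap.congr_fun hχ (1, 0)
  rw [elt_apply, one_smul] at h5
  exact h5.symm

include h0 h1 h2 c1 c2 hP hαβ in
/-- the first claim -/
theorem claim_one : E1 K R (R × X) (R × X) := by
  intro φ
  obtain ⟨α', hα'⟩ := inj_extend hP (Syz K R (R × X)) (α.comp φ)
  let ψ' : R ⊗[K] (R × X) →ₗ[R] X0 := β ∘ₗ α'
  have hψ' : ∀ z : Syz K R (R × X), ψ' z = d0 (φ z) := by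
    intro z
    change β (α' (z : R ⊗[K] (R × X))) = _
    rw [hα' z, hαβ]
    rfl
  obtain ⟨ψ'', hψ''⟩ := exists_factor (d1 ∘ₗ ψ') (fun z => by
    change d1 (ψ' z) = 0
    rw [hψ']
    exact LinearMap.congr_fun c1 (φ z))
  obtain ⟨χ, hχ⟩ := h2 ψ'' (LinearMap.ext fun u => by
    obtain ⟨z, rfl⟩ := actMap_surj K R (R × X) u
    change d2 (ψ'' (actMap K R (R × X) z)) = 0
    rw [hψ'']
    exact LinearMap.congr_fun c2 (ψ' z))
  have hpr : Module.Projective R (R ⊗[K] (R × X)) := inferInstance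
  obtain ⟨φ', hφ'⟩ := exists_lift d0 d1 (ex0 d0 d1 h1) (ψ' - χ ∘ₗ actMap K R (R × X)) (fun u => by
    rw [LinearMap.sub_apply, map_sub]
    have h4 : ψ'' (actMap K R (R × X) u) = d1 (ψ' u) := hψ'' u
    rw [hχ] at h4
    have h5 : d1 (χ (actMap K R (R × X) u)) = d1 (ψ' u) := h4
    rw [← h5]
    exact sub_self _)
  refine ⟨φ', fun z => ?_⟩
  rw [← sub_eq_zero]
  apply d0_inj d0 h0
  rw [map_sub, hφ', LinearMap.sub_apply, hψ']
  have h6 : (χ ∘ₗ actMap K R (R × X)) z = 0 := by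
    change χ (actMap K R (R × X) z) = 0
    have : actMap K R (R × X) (z : R ⊗[K] (R × X)) = 0 := z.2
    rw [this, map_zero]
  rw [h6, sub_zero, sub_self]

include h0 h1 h2 h3 c1 c2 c3 hP hαβ in
/-- the second claim -/
theorem claim_two {ι : Type} [Fintype ι] (e : X1 ≃ₗ[R] (ι → R × X)) :
    E1 K R (Syz K R (R × X)) (R × X) := by
  have hE1 : E1 K R (R × X) (R × X) := claim_one d0 d1 d2 h0 h1 h2 c1 c2 hP α β hαβ
  have hpr : Module.Projective R (R ⊗[K] (R × X)) := inferInstance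
  -- the intermediate claim
  have hmid : ∀ ψ : Syz K R (R × X) →ₗ[R] X1, (∀ z, d2 (ψ z) = 0) →
      ∃ ω : R ⊗[K] (R × X) →ₗ[R] X1, (∀ u, d2 (ω u) = 0) ∧
        ∀ z : Syz K R (R × X), ω z = ψ z := by
    intro ψ hψ
    choose ω0 hω0 using fun i => hE1 (LinearMap.proj i ∘ₗ e.toLinearMap ∘ₗ ψ)
    let ω' : R ⊗[K] (R × X) →ₗ[R] X1 := e.symm.toLinearMap ∘ₗ LinearMap.pi ω0
    have hω' : ∀ z : Syz K R (R × X), ω' z = ψ z := by
      intro z
      change e.symm (fun i => ω0 i z) = ψ z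
      rw [LinearEquiv.symm_apply_eq]
      funext i
      exact hω0 i z
    obtain ⟨θ, hθ⟩ := exists_factor (d2 ∘ₗ ω') (fun z => by
      change d2 (ω' z) = 0
      rw [hω', hψ])
    obtain ⟨ζ, hζ⟩ := h3 θ (LinearMap.ext fun u => by
      obtain ⟨z, rfl⟩ := actMap_surj K R (R × X) u
      change d3 (θ (actMap K R (R × X) z)) = 0
      rw [hθ]
      exact LinearMap.congr_fun c3 (ω' z))
    refine ⟨ω' - ζ ∘ₗ actMap K R (R × X), fun u => ?_, fun z => ?_⟩
    · rw [LinearMap.sub_apply, map_sub]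
      have h4 : θ (actMap K R (R × X) u) = d2 (ω' u) := hθ u
      rw [hζ] at h4
      have h5 : d2 (ζ (actMap K R (R × X) u)) = d2 (ω' u) := h4
      rw [← h5]
      exact sub_self _
    · rw [LinearMap.sub_apply, hω']
      have h6 : (ζ ∘ₗ actMap K R (R × X)) z = 0 := by
        change ζ (actMap K R (R × X) z) = 0
        have : actMap K R (R × X) (z : R ⊗[K] (R × X)) = 0 := z.2
        rw [this, map_zero]
      rw [h6, sub_zero]
  intro φ
  obtain ⟨α', hα'⟩ := inj_extend hP (Syz K R (Syz K R (R × X))) (α.comp φ)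
  let ψ' : R ⊗[K] (Syz K R (R × X)) →ₗ[R] X0 := β ∘ₗ α'
  have hψ' : ∀ z : Syz K R (Syz K R (R × X)), ψ' z = d0 (φ z) := by
    intro z
    change β (α' (z : R ⊗[K] (Syz K R (R × X)))) = _
    rw [hα' z, hαβ]
    rfl
  obtain ⟨ψ'', hψ''⟩ := exists_factor (K := K) (N := Syz K R (R × X)) (d1 ∘ₗ ψ') (fun z => by
    change d1 (ψ' z) = 0
    rw [hψ']
    exact LinearMap.congr_fun c1 (φ z))
  obtain ⟨ω, hω1, hω2⟩ := hmid ψ'' (fun u => by
    obtain ⟨z, rfl⟩ := actMap_surj K R (Syz K R (R × X)) u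
    rw [hψ'']
    exact LinearMap.congr_fun c2 (ψ' z))
  obtain ⟨χ', hχ'⟩ := exists_lift d1 d2 (ex1 d1 d2 h2) ω hω1
  let χ : Syz K R (R × X) →ₗ[R] X0 := χ' ∘ₗ (Syz K R (R × X)).subtype
  have hχ : ∀ u, d1 (χ u) = ψ'' u := by
    intro u
    change d1 (χ' u) = ψ'' u
    rw [hχ', hω2]
  have hpr2 : Module.Projective R (R ⊗[K] (Syz K R (R × X))) := proj_ind K R (Syz K R (R × X))
  obtain ⟨φ', hφ'⟩ := exists_lift d0 d1 (ex0 d0 d1 h1)
    (ψ' - χ ∘ₗ actMap K R (Syz K R (R × X))) (fun u => by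
    rw [LinearMap.sub_apply, map_sub]
    have h4 : ψ'' (actMap K R (Syz K R (R × X)) u) = d1 (ψ' u) := hψ'' u
    rw [← hχ] at h4
    rw [← h4]
    exact sub_self _)
  refine ⟨φ', fun z => ?_⟩
  rw [← sub_eq_zero]
  apply d0_inj d0 h0
  rw [map_sub, hφ', LinearMap.sub_apply, hψ']
  have h6 : (χ ∘ₗ actMap K R (Syz K R (R × X))) z = 0 := by
    change χ (actMap K R (Syz K R (R × X)) z) = 0
    have : actMap K R (Syz K R (R × X)) (z : R ⊗[K] (Syz K R (R × X))) = 0 := z.2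
    rw [this, map_zero]
  rw [h6, sub_zero, sub_self]

end

end Run7.h692
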