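import Mathlib

set_option autoImplicit false
open scoped TensorProduct
open CategoryTheory MulOpposite

namespace Run7.h692

section HB

variable (K A : Type) [Field K] [Ring A] [Algebra K A]
variable (Y X : Type) [AddCommGroup Y] [AddCommGroup X] [Module A Y] [Module A X]
  [Module K Y] [Module K X] [IsScalarTower K A Y] [IsScalarTower K A X]

/-- left action on `Hom_K(Y, X)` -/
noncomputable def actL : A →ₐ[K] Module.End K (Y →ₗ[K] X) where
  toFun a :=
    { toFun := fun h => (Algebra.lsmul K K X a).comp h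
      map_add' := fun h h' => by ext y; simp
      map_smul' := fun c h => by ext y; simp [smul_comm a c] }
  map_one' := by ext h y; simp
  map_mul' a b := by ext h y; simp
  map_zero' := by ext h y; simp
  map_add' a b := by ext h y; simp
  commutes' c := by ext h y; simp

/-- right action on `Hom_K(Y, X)` -/
noncomputable def actR : Aᵐᵒᵖ →ₐ[K] Module.End K (Y →ₗ[K] X) where
  toFun b :=
    { toFun := fun h => h.comp (Algebra.lsmul K K Y (unop b))
      map_add' := fun h h' => by ext y; simp
      map_smul' := fun c h => by ext y; simp }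
  map_one' := by ext h y; simp
  map_mul' a b := by ext h y; simp
  map_zero' := by ext h y; simp
  map_add' a b := by ext h y; simp
  commutes' c := by ext h y; simp

/-- the action of the enveloping algebra on `Hom_K(Y, X)` -/
noncomputable def actE : A ⊗[K] Aᵐᵒᵖ →ₐ[K] Module.End K (Y →ₗ[K] X) :=
  Algebra.TensorProduct.lift (actL K A Y X) (actR K A Y X) (fun a b => by
    apply LinearMap.ext
    intro h
    rfl)

/-- the bimodule `Hom_K(Y, X)` -/
@[nolint unusedArguments]
def HB (K A : Type) [Field K] [Ring A] [Algebra K A]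
    (Y X : Type) [AddCommGroup Y] [AddCommGroup X] [Module A Y] [Module A X]
    [Module K Y] [Module K X] [IsScalarTower K A Y] [IsScalarTower K A X] : Type := Y →ₗ[K] X

noncomputable instance : AddCommGroup (HB K A Y X) := inferInstanceAs (AddCommGroup (Y →ₗ[K] X))

noncomputable instance instModHB : Module (A ⊗[K] Aᵐᵒᵖ) (HB K A Y X) :=
  Module.compHom (Y →ₗ[K] X) (actE K A Y X).toRingHom

variable {K A Y X}

/-- evaluation of an element of `HB` -/
def HB.ev (h : HB K A Y X) : Y →ₗ[K] X := h

/-- constructor for `HB` -/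
def HB.mk (h : Y →ₗ[K] X) : HB K A Y X := h

@[simp] theorem HB.ev_mk (h : Y →ₗ[K] X) : (HB.mk h : HB K A Y X).ev = h := rfl

theorem HB.ext {h h' : HB K A Y X} (H : ∀ y, h.ev y = h'.ev y) : h = h' := LinearMap.ext H

theorem HB.ev_add (h h' : HB K A Y X) (y : Y) : (h + h').ev y = h.ev y + h'.ev y := rfl

theorem HB.ev_zero (y : Y) : (0 : HB K A Y X).ev y = 0 := rfl

theorem HB.ev_neg (h : HB K A Y X) (y : Y) : (-h).ev y = -h.ev y := rfl

theorem HB.ev_sub (h h' : HB K A Y X) (y : Y) : (h - h').ev y = h.ev y - h'.ev y := rfl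

theorem HB.smul_def (l : A ⊗[K] Aᵐᵒᵖ) (h : HB K A Y X) : l • h = HB.mk (actE K A Y X l h.ev) := rfl

theorem HB.smul_tmul (a : A) (b : Aᵐᵒᵖ) (h : HB K A Y X) (y : Y) :
    ((a ⊗ₜ[K] b) • h).ev y = a • h.ev (unop b • y) := by
  rw [HB.smul_def, HB.ev_mk]
  unfold actE
  rw [Algebra.TensorProduct.lift_tmul]
  rfl

/-- additive maps commuting with pure tensors are linear -/
def linOfTmul {M N : Type} [AddCommGroup M] [AddCommGroup N] [Module (A ⊗[K] Aᵐᵒᵖ) M]
    [Module (A ⊗[K] Aᵐᵒᵖ) N] (f : M →+ N)
    (hf : ∀ (a : A) (b : Aᵐᵒᵖ) (m : M), f ((a ⊗ₜ[K] b) • m) = (a ⊗ₜ[K] b) • f m) :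
    M →ₗ[A ⊗[K] Aᵐᵒᵖ] N where
  toFun := f
  map_add' := f.map_add
  map_smul' l m := by
    rw [RingHom.id_apply]
    induction l using TensorProduct.induction_on with
    | zero =>
      exact (congrArg f (zero_smul (A ⊗[K] Aᵐᵒᵖ) m)).trans
        (f.map_zero.trans (zero_smul (A ⊗[K] Aᵐᵒᵖ) (f m)).symm)
    | tmul a b => exact hf a b m
    | add x y hx hy => rw [add_smul, map_add, hx, hy, add_smul]

end HB

section functor

variable {K A : Type} [Field K] [Ring A] [Algebra K A]
variable {Y Y' X X' : Type} [AddCommGroup Y] [AddCommGroup X] [Module A Y] [Module A X]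
  [Module K Y] [Module K X] [IsScalarTower K A Y] [IsScalarTower K A X]
  [AddCommGroup Y'] [AddCommGroup X'] [Module A Y'] [Module A X']
  [Module K Y'] [Module K X'] [IsScalarTower K A Y'] [IsScalarTower K A X']

/-- functoriality in both variables -/
noncomputable def HB.map (g : Y' →ₗ[A] Y) (f : X →ₗ[A] X') :
    HB K A Y X →ₗ[A ⊗[K] Aᵐᵒᵖ] HB K A Y' X' :=
  linOfTmul
    { toFun := fun h => HB.mk ((f.restrictScalars K).comp (h.ev.comp (g.restrictScalars K)))
      map_zero' := by
        apply HB.ext; intro y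
        change f ((0 : HB K A Y X).ev (g y)) = 0
        rw [HB.ev_zero, map_zero]
      map_add' := fun h h' => by
        apply HB.ext; intro y
        change f ((h + h').ev (g y)) = f (h.ev (g y)) + f (h'.ev (g y))
        rw [HB.ev_add, map_add] }
    (fun a b h => by
      apply HB.ext; intro y
      change f (((a ⊗ₜ[K] b) • h).ev (g y)) = ((a ⊗ₜ[K] b) • (HB.mk ((f.restrictScalars K).comp (h.ev.comp (g.restrictScalars K))) : HB K A Y' X')).ev y
      rw [HB.smul_tmul, HB.smul_tmul, map_smul]
      change a • f (h.ev (unop b • g y)) = a • f (h.ev (g (unop b • y)))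
      rw [map_smul g])

theorem HB.map_ev (g : Y' →ₗ[A] Y) (f : X →ₗ[A] X') (h : HB K A Y X) (y : Y') :
    (HB.map g f h).ev y = f (h.ev (g y)) := rfl

end functor

end Run7.h692
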