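import Mathlib

set_option autoImplicit false
set_option linter.unusedSectionVars false

namespace Run7.h692

/-- `B` is a quantum complete intersection over `K`: it is generated by elements `x i` with
`x i ^ a i = 0`, `x i * x j = q i j • (x j * x i)` for `i ≠ j` (with `q i j * q j i = 1`, `2 ≤ a i`),
and has the dimension `∏ a i` of the algebra presented by these generators and relations. -/
structure IsQCI (K : Type) [Field K] {n : ℕ} (a : Fin n → ℕ) (q : Fin n → Fin n → K)
    (B : Type) [Ring B] [Algebra K B] (x : Fin n → B) : Prop where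
  two_le : ∀ i, 2 ≤ a i
  q_inv : ∀ i j, i ≠ j → q i j * q j i = 1
  pow_zero : ∀ i, x i ^ a i = 0
  comm : ∀ i j, i ≠ j → x i * x j = q i j • (x j * x i)
  gen : Algebra.adjoin K (Set.range x) = ⊤
  dim : Module.finrank K B = ∏ i, a i

section Mon

variable {K : Type} [Field K] {ι : Type} [DecidableEq ι] {C : Type} [Ring C] [Algebra K C]

/-- ordered monomials along a list -/
def mon (y : ι → C) (l : List ι) (e : ι → ℕ) : C := (l.map fun i => y i ^ e i).prod

theorem mon_cons (y : ι → C) (i : ι) (l : List ι) (e : ι → ℕ) :
    mon y (i :: l) e = y i ^ e i * mon y l e := by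
  simp [mon]

theorem mon_nil (y : ι → C) (e : ι → ℕ) : mon y [] e = 1 := rfl

theorem mon_congr (y : ι → C) (l : List ι) (e f : ι → ℕ) (h : ∀ i ∈ l, e i = f i) :
    mon y l e = mon y l f := by
  unfold mon
  congr 1
  exact List.map_congr_left fun i hi => by rw [h i hi]

theorem mon_zero (y : ι → C) (l : List ι) : mon y l (fun _ => 0) = 1 := by
  induction l with
  | nil => rfl
  | cons i l ih => rw [mon_cons, ih, pow_zero, mul_one]

/-- `q`-commutation passes to powers -/
theorem pow_comm_of (y z : C) (c : K) (h : y * z = c • (z * y)) (m : ℕ) :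
    y * z ^ m = c ^ m • (z ^ m * y) := by
  induction m with
  | zero => simp
  | succ m ih =>
    rw [pow_succ, ← mul_assoc, ih, smul_mul_assoc, mul_assoc, h, mul_smul_comm, smul_smul,
      ← mul_assoc, pow_succ]

theorem pow_comm_of' (y z : C) (c : K) (h : y * z = c • (z * y)) (m : ℕ) :
    y ^ m * z = c ^ m • (z * y ^ m) := by
  induction m with
  | zero => simp
  | succ m ih =>
    rw [pow_succ', mul_assoc, ih, mul_smul_comm, ← mul_assoc, h, smul_mul_assoc, smul_smul,
      mul_assoc, pow_succ]

variable (q : ι → ι → K) (a : ι → ℕ) (y : ι → C)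
  (hcomm : ∀ i j, i ≠ j → y i * y j = q i j • (y j * y i))
  (hpow : ∀ i, y i ^ a i = 0)

include hcomm in
theorem mul_mon (k : ι) : ∀ (l : List ι), k ∈ l → l.Nodup → ∀ e : ι → ℕ,
    ∃ c : K, y k * mon y l e = c • mon y l (Function.update e k (e k + 1)) := by
  intro l
  induction l with
  | nil => intro hk; simp at hk
  | cons i l ih =>
    intro hk hnd e
    rw [List.nodup_cons] at hnd
    by_cases hki : k = i
    · subst hki
      refine ⟨1, ?_⟩
      have h1 : mon y l (Function.update e k (e k + 1)) = mon y l e := by
        apply mon_congr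
        intro j hj
        have : j ≠ k := fun h => hnd.1 (h ▸ hj)
        rw [Function.update_of_ne this]
      rw [mon_cons, mon_cons, h1, Function.update_self, one_smul, pow_succ', mul_assoc]
    · have hkl : k ∈ l := by
        rcases List.mem_cons.mp hk with h | h
        · exact absurd h hki
        · exact h
      obtain ⟨c, hc⟩ := ih hkl hnd.2 e
      refine ⟨q k i ^ e i * c, ?_⟩
      have h2 : Function.update e k (e k + 1) i = e i := Function.update_of_ne (Ne.symm hki) _ _
      rw [mon_cons, mon_cons, h2, ← mul_assoc, pow_comm_of (y k) (y i) (q k i) (hcomm k i hki),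
        smul_mul_assoc, mul_assoc, hc, mul_smul_comm, smul_smul]

include hpow in
theorem mon_eq_zero (l : List ι) (k : ι) (hk : k ∈ l) (e : ι → ℕ) (he : a k ≤ e k) :
    mon y l e = 0 := by
  induction l with
  | nil => simp at hk
  | cons i l ih =>
    rw [mon_cons]
    rcases List.mem_cons.mp hk with h | h
    · subst h
      rw [← Nat.sub_add_cancel he, pow_add, hpow, mul_zero, zero_mul]
    · rw [ih h, mul_zero]

end Mon

section Span

variable {K : Type} [Field K] {n : ℕ} {C : Type} [Ring C] [Algebra K C]
variable (q : Fin n → Fin n → K) (a : Fin n → ℕ) (y : Fin n → C)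
  (hcomm : ∀ i j, i ≠ j → y i * y j = q i j • (y j * y i))
  (hpow : ∀ i, y i ^ a i = 0)

/-- the monomials with exponents in the box -/
def bmon (l : List (Fin n)) (e : (i : Fin n) → Fin (a i)) : C := mon y l (fun i => (e i : ℕ))

include hcomm hpow in
theorem mon_mem_span (l : List (Fin n)) (hl : ∀ i, i ∈ l) (e : Fin n → ℕ) :
    mon y l e ∈ Submodule.span K (Set.range (bmon a y l)) := by
  by_cases h : ∀ i, e i < a i
  · exact Submodule.subset_span ⟨fun i => ⟨e i, h i⟩, rfl⟩
  · push Not at h
    obtain ⟨i, hi⟩ := h
    rw [mon_eq_zero a y hpow l i (hl i) e hi]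
    exact Submodule.zero_mem _

include hcomm hpow in
theorem adjoin_le_span (l : List (Fin n)) (hl : ∀ i, i ∈ l) (hnd : l.Nodup) :
    Subalgebra.toSubmodule (Algebra.adjoin K (Set.range y)) ≤
      Submodule.span K (Set.range (bmon a y l)) := by
  set S := Submodule.span K (Set.range (bmon a y l)) with hS
  have h1 : (1 : C) ∈ S := by
    have := mon_mem_span q a y hcomm hpow l hl (fun _ => 0)
    rwa [mon_zero] at this
  have hmul : ∀ k, ∀ z ∈ S, y k * z ∈ S := by
    intro k z hz
    induction hz using Submodule.span_induction with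
    | mem z hz =>
      obtain ⟨e, rfl⟩ := hz
      obtain ⟨c, hc⟩ := mul_mon q y hcomm k l (hl k) hnd (fun i => (e i : ℕ))
      change y k * mon y l (fun i => (e i : ℕ)) ∈ S
      rw [hc]
      exact S.smul_mem c (mon_mem_span q a y hcomm hpow l hl _)
    | zero => rw [mul_zero]; exact S.zero_mem
    | add u v _ _ hu hv => rw [mul_add]; exact S.add_mem hu hv
    | smul c u _ hu => rw [mul_smul_comm]; exact S.smul_mem c hu
  have hall : ∀ w ∈ Algebra.adjoin K (Set.range y), ∀ z ∈ S, w * z ∈ S := by
    intro w hw
    induction hw using Algebra.adjoin_induction with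
    | mem w hw => obtain ⟨k, rfl⟩ := hw; exact hmul k
    | algebraMap r => intro z hz; rw [← Algebra.smul_def]; exact S.smul_mem r hz
    | add u v _ _ hu hv => intro z hz; rw [add_mul]; exact S.add_mem (hu z hz) (hv z hz)
    | mul u v _ _ hu hv => intro z hz; rw [mul_assoc]; exact hu _ (hv z hz)
  intro w hw
  have := hall w hw 1 h1
  rwa [mul_one] at this

include hcomm hpow in
theorem finrank_adjoin_le : Module.finrank K (Algebra.adjoin K (Set.range y)) ≤ ∏ i, a i ∧
    Module.Finite K (Algebra.adjoin K (Set.range y)) := by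
  have h := adjoin_le_span q a y hcomm hpow (List.finRange n) (fun i => List.mem_finRange i)
    (List.nodup_finRange n)
  have hfin : Module.Finite K (Submodule.span K (Set.range (bmon a y (List.finRange n)))) :=
    Module.Finite.span_of_finite K (Set.finite_range _)
  have h2 : Module.Finite K (Subalgebra.toSubmodule (Algebra.adjoin K (Set.range y))) :=
    Submodule.finiteDimensional_of_le h
  refine ⟨?_, h2⟩
  have h3 : Module.finrank K (Subalgebra.toSubmodule (Algebra.adjoin K (Set.range y))) ≤
      Module.finrank K (Submodule.span K (Set.range (bmon a y (List.finRange n)))) :=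
    Submodule.finrank_mono h
  have h4 := finrank_range_le_card (R := K) (bmon a y (List.finRange n))
  rw [Fintype.card_pi] at h4
  simp only [Fintype.card_fin] at h4
  exact h3.trans h4

end Span

end Run7.h692
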