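import Pool.Agent.Run7.h692.QciTorus

set_option autoImplicit false
set_option linter.unusedSectionVars false
open scoped TensorProduct

namespace Run7.h692

attribute [local instance] RM.acg RM.modK RM.modB RM.tower

section

variable {K : Type} [Field K] {n : ℕ} {a : Fin n → ℕ} {q : Fin n → Fin n → K}
  {B : Type} [Ring B] [Algebra K B] {x : Fin n → B}
  {N : Type} [AddCommGroup N] [Module B N] [Module K N] [IsScalarTower K B N]

/-- the coefficient map on `B ⊗ N` -/
noncomputable def kN (κ : B →ₗ[K] B) : B ⊗[K] N →ₗ[K] N :=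
  (actMap K B N).restrictScalars K ∘ₗ LinearMap.rTensor N κ

theorem kN_tmul (κ : B →ₗ[K] B) (b : B) (v : N) : kN κ (b ⊗ₜ[K] v) = κ b • v := rfl

/-- the span of the tensors with left component in the subalgebra generated by some of the
generators -/
def Spart (K : Type) [Field K] {n : ℕ} {B : Type} [Ring B] [Algebra K B] (x : Fin n → B)
    (N : Type) [AddCommGroup N] [Module B N] [Module K N] [IsScalarTower K B N]
    (s : Set (Fin n)) : Submodule K (B ⊗[K] N) :=
  Submodule.span K {z | ∃ r ∈ Algebra.adjoin K (x '' s), ∃ v : N, z = r ⊗ₜ[K] v}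

theorem Spart_mono {s t : Set (Fin n)} (hst : s ⊆ t) : Spart K x N s ≤ Spart K x N t := by
  apply Submodule.span_mono
  rintro _ ⟨r, hr, v, rfl⟩
  exact ⟨r, Algebra.adjoin_mono (Set.image_mono hst) hr, v, rfl⟩

theorem Spart_smul {s : Set (Fin n)} (k : Fin n) (hk : k ∈ s) (z : B ⊗[K] N)
    (hz : z ∈ Spart K x N s) : x k • z ∈ Spart K x N s := by
  induction hz using Submodule.span_induction with
  | mem z hz =>
    obtain ⟨r, hr, v, rfl⟩ := hz
    rw [TensorProduct.smul_tmul', smul_eq_mul]
    exact Submodule.subset_span ⟨x k * r, Subalgebra.mul_mem _ (Algebra.subset_adjoin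
      ⟨k, hk, rfl⟩) hr, v, rfl⟩
  | zero => rw [smul_zero]; exact Submodule.zero_mem _
  | add u v _ _ hu hv => rw [smul_add]; exact Submodule.add_mem _ hu hv
  | smul c u _ hu => rw [smul_comm]; exact Submodule.smul_mem _ c hu

/-- the twisting weights in the direction `i` -/
def wt (a : Fin n → ℕ) (q : Fin n → Fin n → K) (i k : Fin n) : K :=
  if k = i then 1 else q k i ^ a i

theorem wt_self (i : Fin n) : wt a q i i = 1 := if_pos rfl

theorem wt_of_ne (i k : Fin n) (h : k ≠ i) : wt a q i k = q k i ^ a i := if_neg h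

/-- the splitting data in the direction `i` -/
def HasSplit (K : Type) [Field K] {n : ℕ} (a : Fin n → ℕ) (q : Fin n → Fin n → K)
    {B : Type} [Ring B] [Algebra K B] (x : Fin n → B)
    (N : Type) [AddCommGroup N] [Module B N] [Module K N] [IsScalarTower K B N]
    (κ : B →ₗ[K] B) (i : Fin n) : Prop :=
  ∃ g : Syz K B N →ₗ[K] N, (∀ k, k ≠ i → ∀ z, g (x k • z) = q k i ^ a i • (x k • g z)) ∧
    ∀ z, g (x i • z) = x i • g z - kN κ (z : B ⊗[K] N)

/-- the twisted representation -/
theorem exists_twist (h : IsQCI K a q B x) (i : Fin n) : ∃ ρ : B →ₐ[K] Module.End K N,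
    ∀ k v, ρ (x k) v = wt a q i k • (x k • v) := by
  obtain ⟨ρ, hρ⟩ := h.lift (fun k => wt a q i k • opX K x N k) (by
    intro k l hkl
    change (wt a q i k • opX K x N k) * (wt a q i l • opX K x N l) =
      q k l • ((wt a q i l • opX K x N l) * (wt a q i k • opX K x N k))
    rw [smul_mul_smul_comm, smul_mul_smul_comm, opX_comm h k l hkl, smul_comm, mul_comm])
    (by
      intro k
      change (wt a q i k • opX K x N k) ^ a k = 0
      rw [smul_pow, opX_pow h, smul_zero])
  exact ⟨ρ, fun k v => LinearMap.congr_fun (hρ k) v⟩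

theorem wt_ne_zero (h : IsQCI K a q B x) (i k : Fin n) : wt a q i k ≠ 0 := by
  by_cases hk : k = i
  · rw [hk, wt_self]; exact one_ne_zero
  · rw [wt_of_ne i k hk]; exact pow_ne_zero _ (h.q_ne k i hk)

theorem E1_twist (h : IsQCI K a q B x) [Module.Finite K N] (h1 : E1 K B N N)
    {Ω : Type} [AddCommGroup Ω] [Module B Ω] [Module K Ω] [IsScalarTower K B Ω]
    (h2 : E1 K B Ω N) (i : Fin n) (ρ : B →ₐ[K] Module.End K N)
    (hρ : ∀ k v, ρ (x k) v = wt a q i k • (x k • v)) : E1 K B Ω (RM ρ) := by
  obtain ⟨σ, S, P, Q, hP, hQ, hPQ⟩ := exists_torus h h1 (fun k => (wt a q i k)⁻¹)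
    (fun k => inv_ne_zero (wt_ne_zero h i k))
  refine h2.of_retract S (fun s => h.lin (V := RM ρ) (W := N) (P s) ?_)
    (fun s => h.lin (V := N) (W := RM ρ) (Q s) ?_) ?_
  · intro k v
    rw [RM.smul_def, hρ]
    change P s (wt a q i k • (x k • RM.un v)) = x k • P s (RM.un v)
    rw [map_smul, hP, smul_smul, mul_inv_cancel₀ (wt_ne_zero h i k), one_smul]
  · intro k v
    rw [RM.smul_def, hρ]
    change Q s (x k • v) = wt a q i k • (x k • Q s v)
    rw [← hQ, smul_smul, mul_inv_cancel₀ (wt_ne_zero h i k), one_smul]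
  · intro v
    exact hPQ v

/-- the operators of the extension -/
def extOp (K : Type) [Field K] {n : ℕ} (a : Fin n → ℕ) (q : Fin n → Fin n → K)
    {B : Type} [Ring B] [Algebra K B] (x : Fin n → B)
    {N : Type} [AddCommGroup N] [Module B N] [Module K N] [IsScalarTower K B N]
    {Ω : Type} [AddCommGroup Ω] [Module B Ω] [Module K Ω] [IsScalarTower K B Ω]
    (c : Ω →ₗ[K] N) (i k : Fin n) : Module.End K (Ω × N) where
  toFun z := (x k • z.1, wt a q i k • (x k • z.2) + if k = i then c z.1 else 0)
  map_add' z z' := by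
    apply Prod.ext
    · change x k • (z.1 + z'.1) = x k • z.1 + x k • z'.1
      rw [smul_add]
    · change wt a q i k • (x k • (z.2 + z'.2)) + (if k = i then c (z.1 + z'.1) else 0) =
        (wt a q i k • (x k • z.2) + if k = i then c z.1 else 0) +
        (wt a q i k • (x k • z'.2) + if k = i then c z'.1 else 0)
      rw [smul_add, smul_add, map_add]
      split_ifs
      · abel
      · abel
  map_smul' r z := by
    apply Prod.ext
    · change x k • (r • z.1) = r • (x k • z.1)
      rw [smul_comm]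
    · change wt a q i k • (x k • (r • z.2)) + (if k = i then c (r • z.1) else 0) =
        r • (wt a q i k • (x k • z.2) + if k = i then c z.1 else 0)
      rw [smul_comm (x k) r, smul_comm _ r, map_smul, smul_add]
      split_ifs
      · rfl
      · rw [smul_zero]

section Gen

variable {Ω : Type} [AddCommGroup Ω] [Module B Ω] [Module K Ω] [IsScalarTower K B Ω]
  (c : Ω →ₗ[K] N) (i : Fin n)

theorem extOp_self (z : Ω × N) : extOp K a q x c i i z = (x i • z.1, x i • z.2 + c z.1) := by
  change (x i • z.1, wt a q i i • (x i • z.2) + if i = i then c z.1 else 0) = _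
  rw [if_pos rfl, wt_self, one_smul]

theorem extOp_ne (k : Fin n) (hk : k ≠ i) (z : Ω × N) :
    extOp K a q x c i k z = (x k • z.1, q k i ^ a i • (x k • z.2)) := by
  change (x k • z.1, wt a q i k • (x k • z.2) + if k = i then c z.1 else 0) = _
  rw [if_neg hk, wt_of_ne i k hk, add_zero]

theorem gen_comm (h : IsQCI K a q B x) {V : Type} [AddCommGroup V] [Module B V] [Module K V]
    [IsScalarTower K B V] (k l : Fin n) (hkl : k ≠ l) (z : V) :
    x k • x l • z = q k l • (x l • x k • z) := by
  rw [← mul_smul, h.comm k l hkl, smul_assoc, mul_smul]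

theorem extOp_rel (h : IsQCI K a q B x)
    (hc1 : ∀ k, k ≠ i → ∀ z, c (x k • z) = q k i ^ (a i - 1) • (x k • c z)) :
    ∀ k l, k ≠ l → extOp K a q x c i k * extOp K a q x c i l =
      q k l • (extOp K a q x c i l * extOp K a q x c i k) := by
  have hki : ∀ k, k ≠ i → extOp K a q x c i k * extOp K a q x c i i =
      q k i • (extOp K a q x c i i * extOp K a q x c i k) := by
    intro k hk
    apply LinearMap.ext
    intro z
    change extOp K a q x c i k (extOp K a q x c i i z) =
      q k i • extOp K a q x c i i (extOp K a q x c i k z)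
    rw [extOp_self, extOp_ne c i k hk, extOp_ne c i k hk, extOp_self]
    apply Prod.ext
    · exact gen_comm h k i hk z.1
    · change q k i ^ a i • (x k • (x i • z.2 + c z.1)) =
        q k i • (x i • (q k i ^ a i • (x k • z.2)) + c (x k • z.1))
      rw [hc1 k hk, smul_add, smul_add, smul_add, gen_comm h k i hk z.2]
      congr 1
      · rw [smul_comm (x i) (q k i ^ a i), smul_comm (q k i) (q k i ^ a i)]
      · rw [smul_smul, ← pow_succ', Nat.sub_add_cancel (h.a_pos i)]
  intro k l hkl
  by_cases hk : k = i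
  · subst hk
    rw [hki l (Ne.symm hkl), smul_smul, h.q_inv k l hkl, one_smul]
  · by_cases hl : l = i
    · subst hl
      exact hki k hk
    · apply LinearMap.ext
      intro z
      change extOp K a q x c i k (extOp K a q x c i l z) =
        q k l • extOp K a q x c i l (extOp K a q x c i k z)
      rw [extOp_ne c i l hl, extOp_ne c i k hk, extOp_ne c i k hk, extOp_ne c i l hl]
      apply Prod.ext
      · exact gen_comm h k l hkl z.1
      · change q k i ^ a i • (x k • (q l i ^ a i • (x l • z.2))) =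
          q k l • (q l i ^ a i • (x l • (q k i ^ a i • (x k • z.2))))
        rw [smul_comm (x k) (q l i ^ a i), smul_comm (x l) (q k i ^ a i),
          gen_comm h k l hkl z.2]
        simp only [smul_smul]
        congr 1
        ring

theorem extOp_pow (h : IsQCI K a q B x)
    (hc2 : ∀ z, ∑ j ∈ Finset.range (a i), x i ^ j • c (x i ^ (a i - 1 - j) • z) = 0) :
    ∀ k, extOp K a q x c i k ^ a k = 0 := by
  intro k
  by_cases hk : k = i
  · subst hk
    have key : ∀ m : ℕ, ∀ z, (extOp K a q x c k k ^ m) z = (x k ^ m • z.1,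
        x k ^ m • z.2 + ∑ j ∈ Finset.range m, x k ^ j • c (x k ^ (m - 1 - j) • z.1)) := by
      intro m
      induction m with
      | zero => intro z; simp
      | succ m ih =>
        intro z
        rw [pow_succ']
        change extOp K a q x c k k ((extOp K a q x c k k ^ m) z) = _
        rw [ih, extOp_self]
        apply Prod.ext
        · change x k • x k ^ m • z.1 = x k ^ (m + 1) • z.1
          rw [pow_succ', mul_smul]
        · change x k • (x k ^ m • z.2 + ∑ j ∈ Finset.range m, x k ^ j •
            c (x k ^ (m - 1 - j) • z.1)) + c (x k ^ m • z.1) =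
            x k ^ (m + 1) • z.2 + ∑ j ∈ Finset.range (m + 1), x k ^ j •
            c (x k ^ (m + 1 - 1 - j) • z.1)
          rw [smul_add, Finset.smul_sum, Finset.sum_range_succ', pow_succ', mul_smul,
            add_assoc]
          congr 1
          congr 1
          · refine Finset.sum_congr rfl fun j _ => ?_
            have h4 : m + 1 - 1 - (j + 1) = m - 1 - j := by omega
            rw [h4, pow_succ', mul_smul]
          · rw [pow_zero, one_smul]
            rfl
    apply LinearMap.ext
    intro z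
    rw [key (a k), hc2, h.pow_zero, zero_smul, zero_smul, add_zero]
    rfl
  · have key : ∀ m : ℕ, ∀ z, (extOp K a q x c i k ^ m) z = (x k ^ m • z.1,
        (q k i ^ a i) ^ m • (x k ^ m • z.2)) := by
      intro m
      induction m with
      | zero => intro z; simp
      | succ m ih =>
        intro z
        rw [pow_succ']
        change extOp K a q x c i k ((extOp K a q x c i k ^ m) z) = _
        rw [ih, extOp_ne c i k hk]
        apply Prod.ext
        · change x k • x k ^ m • z.1 = x k ^ (m + 1) • z.1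
          rw [pow_succ', mul_smul]
        · change q k i ^ a i • (x k • ((q k i ^ a i) ^ m • (x k ^ m • z.2))) =
            (q k i ^ a i) ^ (m + 1) • (x k ^ (m + 1) • z.2)
          rw [smul_comm (x k), smul_smul, ← pow_succ', pow_succ' (x k), mul_smul]
    apply LinearMap.ext
    intro z
    rw [key (a k), h.pow_zero, zero_smul, zero_smul, smul_zero]
    rfl

theorem split_gen (h : IsQCI K a q B x)
    (hc1 : ∀ k, k ≠ i → ∀ z, c (x k • z) = q k i ^ (a i - 1) • (x k • c z))
    (hc2 : ∀ z, ∑ j ∈ Finset.range (a i), x i ^ j • c (x i ^ (a i - 1 - j) • z) = 0)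
    (ρ : B →ₐ[K] Module.End K N) (hρ : ∀ k v, ρ (x k) v = wt a q i k • (x k • v))
    (hτ : E1 K B Ω (RM ρ)) :
    ∃ g : Ω →ₗ[K] N, (∀ k, k ≠ i → ∀ z, g (x k • z) = q k i ^ a i • (x k • g z)) ∧
    ∀ z, g (x i • z) = x i • g z - c z := by
  obtain ⟨θ, hθ⟩ := h.lift (extOp K a q x c i) (extOp_rel c i h hc1) (extOp_pow c i h hc2)
  let i0 : RM ρ →ₗ[K] RM θ := (LinearMap.inr K Ω N : N →ₗ[K] Ω × N)
  let p0 : RM θ →ₗ[K] Ω := (LinearMap.fst K Ω N : Ω × N →ₗ[K] Ω)
  have hi0 : ∀ k v, i0 (x k • v) = x k • i0 v := by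
    intro k v
    rw [RM.smul_def, RM.smul_def, hρ, hθ]
    change ((0 : Ω), wt a q i k • (x k • RM.un v)) =
      (x k • (0 : Ω), wt a q i k • (x k • RM.un v) + if k = i then c (0 : Ω) else 0)
    rw [smul_zero, map_zero, ite_self, add_zero]
  have hp0 : ∀ k v, p0 (x k • v) = x k • p0 v := by
    intro k v
    rw [RM.smul_def, hθ]
    rfl
  let ii : RM ρ →ₗ[B] RM θ := h.lin i0 hi0
  let pp : RM θ →ₗ[B] Ω := h.lin p0 hp0
  have hi : Function.Injective ii := fun u v huv => congrArg Prod.snd huv
  have hp : Function.Surjective pp := fun v => ⟨RM.of θ (v, 0), rfl⟩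
  have hip : Function.Exact ii pp := by
    intro z
    constructor
    · intro hz
      refine ⟨RM.of ρ (RM.un z).2, ?_⟩
      change ((0 : Ω), (RM.un z).2) = RM.un z
      exact Prod.ext hz.symm rfl
    · rintro ⟨u, rfl⟩
      rfl
  obtain ⟨r, hr⟩ := hτ.retr ii pp hi hip hp
  let g : Ω →ₗ[K] N :=
    { toFun := fun z => RM.un (r (RM.of θ (z, 0)))
      map_add' := fun u v => by
        have h5 : (RM.of θ (u + v, 0) : RM θ) = RM.of θ (u, 0) + RM.of θ (v, 0) := by
          change ((u + v, 0) : Ω × N) = (u + v, 0 + 0)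
          rw [add_zero]
        rw [h5, map_add]
        rfl
      map_smul' := fun c v => by
        have h5 : (RM.of θ (c • v, 0) : RM θ) = c • RM.of θ (v, 0) := by
          change ((c • v, 0) : Ω × N) = (c • v, c • 0)
          rw [smul_zero]
        have h6 : r (c • RM.of θ (v, 0)) = c • r (RM.of θ (v, 0)) := by
          rw [← algebraMap_smul B c (RM.of θ (v, 0)), map_smul, algebraMap_smul]
        rw [h5, h6]
        rfl }
  have hg : ∀ (z : Ω) (v : N), RM.un (r (RM.of θ (z, v))) = g z + v := by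
    intro z v
    have h5 : (RM.of θ (z, v) : RM θ) = RM.of θ (z, 0) + ii (RM.of ρ v) := by
      change ((z, v) : Ω × N) = (z + 0, 0 + v)
      rw [add_zero, zero_add]
    rw [h5, map_add, hr]
    rfl
  refine ⟨g, fun k hk z => ?_, fun z => ?_⟩
  · have h5 : (x k • RM.of θ (z, 0) : RM θ) = RM.of θ (x k • z, 0) := by
      rw [RM.smul_def, hθ]
      change extOp K a q x c i k (z, 0) = (x k • z, 0)
      rw [extOp_ne c i k hk, smul_zero, smul_zero]
    have h6 : r (RM.of θ (x k • z, 0)) = x k • r (RM.of θ (z, 0)) := by rw [← h5, map_smul]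
    change RM.un (r (RM.of θ (x k • z, 0))) = _
    rw [h6, RM.smul_def, hρ]
    change wt a q i k • (x k • g z) = _
    rw [wt_of_ne i k hk]
  · have h5 : (x i • RM.of θ (z, 0) : RM θ) = RM.of θ (x i • z, c z) := by
      rw [RM.smul_def, hθ]
      change extOp K a q x c i i (z, 0) = (x i • z, c z)
      rw [extOp_self, smul_zero, zero_add]
    have h6 : r (RM.of θ (x i • z, c z)) = x i • r (RM.of θ (z, 0)) := by
      rw [← h5, map_smul]
    have h7 := hg (x i • z) (c z)
    rw [h6, RM.smul_def, hρ] at h7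
    have h8 : wt a q i i • (x i • g z) = g (x i • z) + c z := h7
    rw [wt_self, one_smul] at h8
    rw [h8, add_sub_cancel_right]

end Gen

theorem kN_one (κ : B →ₗ[K] B) (i : Fin n)
    (hκ1 : ∀ k, k ≠ i → ∀ b, κ (x k * b) = q k i ^ (a i - 1) • (x k * κ b)) (k : Fin n)
    (hk : k ≠ i) (z : B ⊗[K] N) : kN κ (x k • z) = q k i ^ (a i - 1) • (x k • kN κ z) := by
  induction z using TensorProduct.induction_on with
  | zero => simp
  | tmul b v =>
    rw [TensorProduct.smul_tmul', smul_eq_mul, kN_tmul, kN_tmul, hκ1 k hk, smul_assoc, mul_smul]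
  | add u v hu hv => rw [smul_add, map_add, map_add, hu, hv, smul_add, smul_add]

theorem kN_two (κ : B →ₗ[K] B) (i : Fin n)
    (hκ2 : ∀ b, ∑ j ∈ Finset.range (a i), x i ^ j * κ (x i ^ (a i - 1 - j) * b) = b)
    (z : B ⊗[K] N) : ∑ j ∈ Finset.range (a i), x i ^ j • kN κ (x i ^ (a i - 1 - j) • z) =
      actMap K B N z := by
  induction z using TensorProduct.induction_on with
  | zero => simp
  | tmul b v =>
    rw [actMap_tmul]
    conv_rhs => rw [← hκ2 b, Finset.sum_smul]
    refine Finset.sum_congr rfl fun j _ => ?_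
    rw [TensorProduct.smul_tmul', smul_eq_mul, kN_tmul, mul_smul]
  | add u v hu hv =>
    rw [map_add, ← hu, ← hv, ← Finset.sum_add_distrib]
    refine Finset.sum_congr rfl fun j _ => ?_
    rw [smul_add, map_add, smul_add]

theorem kN_three (κ : B →ₗ[K] B) (i : Fin n)
    (hκ3 : ∀ r ∈ Algebra.adjoin K (x '' {k | k ≠ i}), ∀ j, j < a i →
      κ (x i ^ j * r) = if j = a i - 1 then r else 0) (z : B ⊗[K] N)
    (hz : z ∈ Spart K x N {k | k ≠ i}) (j : ℕ) (hj : j < a i) :
    kN κ (x i ^ j • z) = if j = a i - 1 then actMap K B N z else 0 := by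
  induction hz using Submodule.span_induction with
  | mem z hz =>
    obtain ⟨r, hr, v, rfl⟩ := hz
    rw [TensorProduct.smul_tmul', smul_eq_mul, kN_tmul, hκ3 r hr j hj, actMap_tmul]
    split_ifs
    · rfl
    · rw [zero_smul]
  | zero => rw [smul_zero, map_zero, map_zero, ite_self]
  | add u v _ _ hu hv =>
    rw [smul_add, map_add, hu, hv, map_add]
    split_ifs
    · rfl
    · rw [add_zero]
  | smul c u _ hu =>
    have h1 : actMap K B N (c • u) = c • actMap K B N u := by
      rw [← algebraMap_smul B c u, map_smul, algebraMap_smul]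
    rw [smul_comm, map_smul, hu, h1]
    split_ifs
    · rfl
    · rw [smul_zero]

theorem hasSplit (h : IsQCI K a q B x) [Module.Finite K N] (h1 : E1 K B N N)
    (h2 : E1 K B (Syz K B N) N) (i : Fin n) (κ : B →ₗ[K] B)
    (hκ1 : ∀ k, k ≠ i → ∀ b, κ (x k * b) = q k i ^ (a i - 1) • (x k * κ b))
    (hκ2 : ∀ b, ∑ j ∈ Finset.range (a i), x i ^ j * κ (x i ^ (a i - 1 - j) * b) = b) :
    HasSplit K a q x N κ i := by
  obtain ⟨ρ, hρ⟩ := exists_twist (N := N) h i
  have hτ := E1_twist h h1 h2 i ρ hρ
  let c : Syz K B N →ₗ[K] N := (kN κ) ∘ₗ ((Syz K B N).subtype.restrictScalars K)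
  have hc : ∀ z : Syz K B N, c z = kN κ (z : B ⊗[K] N) := fun z => rfl
  obtain ⟨g, hg1, hg2⟩ := split_gen c i h (fun k hk z => kN_one κ i hκ1 k hk z.1)
    (fun z => (kN_two κ i hκ2 z.1).trans z.2) ρ hρ hτ
  exact ⟨g, hg1, hg2⟩

end

end Run7.h692
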