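import Pool.Agent.Run7.h692.QciStruct

set_option autoImplicit false
set_option linter.unusedSectionVars false
open scoped TensorProduct

namespace Run7.h692

section

variable (K B : Type) [Field K] [Ring B] [Algebra K B]
variable (N : Type) [AddCommGroup N] [Module B N] [Module K N] [IsScalarTower K B N]

/-- the action map `B ⊗ N → N` -/
noncomputable def actMap : B ⊗[K] N →ₗ[B] N :=
  TensorProduct.AlgebraTensorModule.lift
    (LinearMap.toSpanSingleton B (N →ₗ[K] N) LinearMap.id)

theorem actMap_tmul (b : B) (y : N) : actMap K B N (b ⊗ₜ[K] y) = b • y := rfl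

theorem actMap_surj : Function.Surjective (actMap K B N) := fun y =>
  ⟨1 ⊗ₜ[K] y, by rw [actMap_tmul, one_smul]⟩

/-- the canonical syzygy -/
noncomputable abbrev Syz : Submodule B (B ⊗[K] N) := LinearMap.ker (actMap K B N)

/-- every map from the canonical syzygy of `N` to `Y` extends to `B ⊗ N`;
equivalently `Ext^1_B(N, Y) = 0` -/
def E1 (Y : Type) [AddCommGroup Y] [Module B Y] : Prop :=
  ∀ φ : Syz K B N →ₗ[B] Y, ∃ ψ : B ⊗[K] N →ₗ[B] Y, ∀ z : Syz K B N, ψ z = φ z

variable {K B N}

theorem mem_syz (z : B ⊗[K] N) : z ∈ Syz K B N ↔ actMap K B N z = 0 := LinearMap.mem_ker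

/-- the free module `B ⊗ N` has the universal property -/
noncomputable def indMap {E : Type} [AddCommGroup E] [Module B E] [Module K E]
    [IsScalarTower K B E] (f : N →ₗ[K] E) : B ⊗[K] N →ₗ[B] E :=
  TensorProduct.AlgebraTensorModule.lift
    (LinearMap.toSpanSingleton B (N →ₗ[K] E) f)

theorem indMap_tmul {E : Type} [AddCommGroup E] [Module B E] [Module K E]
    [IsScalarTower K B E] (f : N →ₗ[K] E) (b : B) (y : N) :
    indMap f (b ⊗ₜ[K] y) = b • f y := rfl

/-- splitting of extensions -/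
theorem E1.split {Y : Type} [AddCommGroup Y] [Module B Y] (h : E1 K B N Y)
    {E : Type} [AddCommGroup E] [Module B E] [Module K E] [IsScalarTower K B E]
    (i : Y →ₗ[B] E) (p : E →ₗ[B] N) (hi : Function.Injective i) (hip : Function.Exact i p)
    (hp : Function.Surjective p) : ∃ s : N →ₗ[B] E, ∀ y, p (s y) = y := by
  obtain ⟨s0, hs0⟩ := (p.restrictScalars K).exists_rightInverse_of_surjective
    (LinearMap.range_eq_top.mpr hp)
  let θ : B ⊗[K] N →ₗ[B] E := indMap s0
  have hθ : ∀ z, p (θ z) = actMap K B N z := by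
    intro z
    induction z using TensorProduct.induction_on with
    | zero => rw [map_zero, map_zero, map_zero]
    | tmul b y =>
      rw [indMap_tmul, map_smul, actMap_tmul]
      congr 1
      exact LinearMap.congr_fun hs0 y
    | add u v hu hv => rw [map_add, map_add, map_add, hu, hv]
  have hr : ∀ z : Syz K B N, θ z ∈ LinearMap.range i := by
    intro z
    have h1 : p (θ z) = 0 := by rw [hθ]; exact z.2
    exact (hip _).mp h1
  let φ : Syz K B N →ₗ[B] Y := (LinearEquiv.ofInjective i hi).symm.toLinearMap ∘ₗ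
    LinearMap.codRestrict _ (θ ∘ₗ (Syz K B N).subtype) hr
  have hφ : ∀ z : Syz K B N, i (φ z) = θ z := fun z =>
    LinearEquiv.ofInjective_symm_apply (h := hi) (f := i)
      (LinearMap.codRestrict _ (θ ∘ₗ (Syz K B N).subtype) hr z)
  obtain ⟨ψ, hψ⟩ := h φ
  let θ' : B ⊗[K] N →ₗ[B] E := θ - i ∘ₗ ψ
  have hk : LinearMap.ker (actMap K B N) ≤ LinearMap.ker θ' := by
    intro z hz
    rw [LinearMap.mem_ker, LinearMap.sub_apply, LinearMap.comp_apply]
    have h2 : ψ z = φ ⟨z, hz⟩ := hψ ⟨z, hz⟩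
    rw [h2, hφ, sub_self]
  let e := (actMap K B N).quotKerEquivOfSurjective (actMap_surj K B N)
  refine ⟨(Submodule.liftQ _ θ' hk) ∘ₗ e.symm.toLinearMap, fun y => ?_⟩
  obtain ⟨z, rfl⟩ := actMap_surj K B N y
  have h3 : e.symm (actMap K B N z) = Submodule.Quotient.mk z := by
    rw [LinearEquiv.symm_apply_eq]
    rfl
  change p ((Submodule.liftQ _ θ' hk) (e.symm (actMap K B N z))) = _
  rw [h3]
  change p (θ z - i (ψ z)) = _
  rw [map_sub, hip.apply_apply_eq_zero, sub_zero, hθ]

/-- the splitting, as a retraction -/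
theorem E1.retr {Y : Type} [AddCommGroup Y] [Module B Y] (h : E1 K B N Y)
    {E : Type} [AddCommGroup E] [Module B E] [Module K E] [IsScalarTower K B E]
    (i : Y →ₗ[B] E) (p : E →ₗ[B] N) (hi : Function.Injective i) (hip : Function.Exact i p)
    (hp : Function.Surjective p) : ∃ r : E →ₗ[B] Y, ∀ y, r (i y) = y := by
  obtain ⟨s, hs⟩ := h.split i p hi hip hp
  have hr : ∀ z : E, z - s (p z) ∈ LinearMap.range i := by
    intro z
    apply (hip _).mp
    rw [map_sub, hs, sub_self]
  refine ⟨(LinearEquiv.ofInjective i hi).symm.toLinearMap ∘ₗ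
    LinearMap.codRestrict (LinearMap.range i) (LinearMap.id - s ∘ₗ p) hr, fun y => hi ?_⟩
  have h1 := LinearEquiv.ofInjective_symm_apply (h := hi) (f := i)
    (LinearMap.codRestrict (LinearMap.range i) (LinearMap.id - s ∘ₗ p) hr (i y))
  refine h1.trans ?_
  change i y - s (p (i y)) = i y
  rw [hip.apply_apply_eq_zero, map_zero, sub_zero]

/-- passage to retracts of powers -/
theorem E1.of_retract {Y Y' : Type} [AddCommGroup Y] [Module B Y] [AddCommGroup Y']
    [Module B Y'] (h : E1 K B N Y) {ι : Type} (s : Finset ι) (f : ι → Y' →ₗ[B] Y)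
    (g : ι → Y →ₗ[B] Y') (hfg : ∀ y, ∑ i ∈ s, g i (f i y) = y) : E1 K B N Y' := by
  intro φ
  choose ψ hψ using fun i => h (f i ∘ₗ φ)
  refine ⟨∑ i ∈ s, g i ∘ₗ ψ i, fun z => ?_⟩
  rw [LinearMap.sum_apply]
  rw [← hfg (φ z)]
  refine Finset.sum_congr rfl fun i _ => ?_
  rw [LinearMap.comp_apply, hψ i z]
  rfl

end

end Run7.h692
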