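import Pool.Agent.Run7.h692.QciBasic

set_option autoImplicit false
set_option linter.unusedSectionVars false

namespace Run7.h692

section

variable {K : Type} [Field K] {n : ℕ} {a : Fin n → ℕ} {q : Fin n → Fin n → K}
  {B : Type} [Ring B] [Algebra K B] {x : Fin n → B}

theorem IsQCI.a_pos (h : IsQCI K a q B x) (i : Fin n) : 0 < a i := by
  have := h.two_le i; omega

theorem IsQCI.q_ne (h : IsQCI K a q B x) (i j : Fin n) (hij : i ≠ j) : q i j ≠ 0 :=
  left_ne_zero_of_mul_eq_one (h.q_inv i j hij)

theorem IsQCI.finite (h : IsQCI K a q B x) : Module.Finite K B := by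
  apply Module.finite_of_finrank_pos
  rw [h.dim]
  exact Finset.prod_pos fun i _ => h.a_pos i

/-- the universal property -/
theorem IsQCI.lift (h : IsQCI K a q B x) {C : Type} [Ring C] [Algebra K C] (y : Fin n → C)
    (hcomm : ∀ i j, i ≠ j → y i * y j = q i j • (y j * y i)) (hpow : ∀ i, y i ^ a i = 0) :
    ∃ φ : B →ₐ[K] C, ∀ i, φ (x i) = y i := by
  have hfB := h.finite
  let z : Fin n → B × C := fun i => (x i, y i)
  let S := Algebra.adjoin K (Set.range z)
  have hz1 : ∀ i j, i ≠ j → z i * z j = q i j • (z j * z i) := fun i j hij =>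
    Prod.ext (h.comm i j hij) (hcomm i j hij)
  have hz2 : ∀ i, z i ^ a i = 0 := fun i => Prod.ext (h.pow_zero i) (hpow i)
  obtain ⟨hS, hfS⟩ := finrank_adjoin_le q a z hz1 hz2
  let π : S →ₐ[K] B := (AlgHom.fst K B C).comp S.val
  have hsurj : Function.Surjective π := by
    have h1 : (⊤ : Subalgebra K B) ≤ π.range := by
      rw [← h.gen]
      apply Algebra.adjoin_le
      rintro _ ⟨i, rfl⟩
      exact ⟨⟨z i, Algebra.subset_adjoin ⟨i, rfl⟩⟩, rfl⟩
    intro b
    exact h1 (Algebra.mem_top : b ∈ (⊤ : Subalgebra K B))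
  have hfr : Module.finrank K S = Module.finrank K B := by
    apply le_antisymm
    · rw [h.dim]; exact hS
    · exact LinearMap.finrank_le_finrank_of_surjective (f := π.toLinearMap) hsurj
  have hinj : Function.Injective π :=
    (LinearMap.injective_iff_surjective_of_finrank_eq_finrank hfr (f := π.toLinearMap)).mpr hsurj
  let e : S ≃ₐ[K] B := AlgEquiv.ofBijective π ⟨hinj, hsurj⟩
  refine ⟨((AlgHom.snd K B C).comp S.val).comp e.symm.toAlgHom, fun i => ?_⟩
  have h2 : e.symm (x i) = ⟨z i, Algebra.subset_adjoin ⟨i, rfl⟩⟩ := by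
    rw [AlgEquiv.symm_apply_eq]
    rfl
  change ((AlgHom.snd K B C).comp S.val) (e.symm (x i)) = y i
  rw [h2]
  rfl

theorem IsQCI.ext_of_gen (h : IsQCI K a q B x) {P : B → Prop} (b : B)
    (h0 : ∀ c : K, P (algebraMap K B c)) (hx : ∀ i, P (x i))
    (hadd : ∀ u v, P u → P v → P (u + v)) (hmul : ∀ u v, P u → P v → P (u * v)) : P b := by
  have hb : b ∈ Algebra.adjoin K (Set.range x) := by rw [h.gen]; trivial
  induction hb using Algebra.adjoin_induction with
  | mem w hw => obtain ⟨k, rfl⟩ := hw; exact hx k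
  | algebraMap r => exact h0 r
  | add u v _ _ hu hv => exact hadd u v hu hv
  | mul u v _ _ hu hv => exact hmul u v hu hv

/-- the basis of ordered monomials -/
theorem IsQCI.exists_basis (h : IsQCI K a q B x) (l : List (Fin n)) (hl : ∀ i, i ∈ l)
    (hnd : l.Nodup) : ∃ b : Module.Basis ((i : Fin n) → Fin (a i)) K B,
      ∀ e, b e = mon x l (fun i => (e i : ℕ)) := by
  have hfB := h.finite
  have h1 : ⊤ ≤ Submodule.span K (Set.range (bmon a x l)) := by
    have h2 := adjoin_le_span q a x h.comm h.pow_zero l hl hnd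
    rw [h.gen] at h2
    exact h2
  have h3 : Fintype.card ((i : Fin n) → Fin (a i)) = Module.finrank K B := by
    rw [h.dim, Fintype.card_pi]
    simp
  refine ⟨basisOfTopLeSpanOfCardEqFinrank (bmon a x l) h1 h3, fun e => ?_⟩
  rw [coe_basisOfTopLeSpanOfCardEqFinrank]
  rfl

/-- monomials multiply to nonzero multiples of monomials -/
theorem mon_mul_mon {ι : Type} [DecidableEq ι] {C : Type} [Ring C] [Algebra K C]
    (q : ι → ι → K) (y : ι → C) (hcomm : ∀ i j, i ≠ j → y i * y j = q i j • (y j * y i))
    (hq : ∀ i j, i ≠ j → q i j ≠ 0) :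
    ∀ (l : List ι), l.Nodup → ∀ e f : ι → ℕ,
      ∃ c : K, c ≠ 0 ∧ mon y l e * mon y l f = c • mon y l (fun i => e i + f i) := by
  have key : ∀ (l : List ι) (k : ι), k ∉ l → ∀ (e : ι → ℕ) (m : ℕ),
      ∃ c : K, c ≠ 0 ∧ mon y l e * y k ^ m = c • (y k ^ m * mon y l e) := by
    intro l
    induction l with
    | nil =>
      intro k _ e m
      exact ⟨1, one_ne_zero, by rw [mon_nil, one_mul, mul_one, one_smul]⟩
    | cons i l ih =>
      intro k hk e m
      rw [List.mem_cons, not_or] at hk
      obtain ⟨c, hc0, hc⟩ := ih k hk.2 e m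
      have h1 := pow_comm_of (K := K) (y i ^ e i) (y k) (q i k ^ e i)
        (pow_comm_of' (y i) (y k) (q i k) (hcomm i k (Ne.symm hk.1)) (e i)) m
      refine ⟨(q i k ^ e i) ^ m * c, mul_ne_zero (pow_ne_zero _ (pow_ne_zero _
        (hq i k (Ne.symm hk.1)))) hc0, ?_⟩
      rw [mon_cons, mul_assoc, hc, mul_smul_comm, ← mul_assoc, h1, smul_mul_assoc, smul_smul,
        mul_assoc, mul_comm c]
  intro l
  induction l with
  | nil =>
    intro _ e f
    exact ⟨1, one_ne_zero, by rw [mon_nil, mon_nil, mon_nil, one_mul, one_smul]⟩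
  | cons i l ih =>
    intro hnd e f
    rw [List.nodup_cons] at hnd
    obtain ⟨c, hc0, hc⟩ := ih hnd.2 e f
    obtain ⟨d, hd0, hd⟩ := key l i hnd.1 e (f i)
    refine ⟨d * c, mul_ne_zero hd0 hc0, ?_⟩
    rw [mon_cons, mon_cons, mon_cons, mul_assoc, ← mul_assoc (mon y l e), hd, smul_mul_assoc,
      mul_smul_comm, mul_assoc, hc, mul_smul_comm, mul_smul_comm, smul_smul, ← mul_assoc, pow_add]

/-- the Frobenius form -/
theorem IsQCI.exists_form (h : IsQCI K a q B x) : ∃ lam : B →ₗ[K] K,
    (∀ b, (∀ c, lam (c * b) = 0) → b = 0) ∧ (∀ b, (∀ c, lam (b * c) = 0) → b = 0) := by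
  classical
  obtain ⟨bs, hbs⟩ := h.exists_basis (List.finRange n) (fun i => List.mem_finRange i)
    (List.nodup_finRange n)
  let top : (i : Fin n) → Fin (a i) := fun i => ⟨a i - 1, by have := h.a_pos i; omega⟩
  let lam : B →ₗ[K] K := bs.coord top
  let co : ((i : Fin n) → Fin (a i)) → ((i : Fin n) → Fin (a i)) := fun e i =>
    ⟨a i - 1 - (e i : ℕ), by have := h.a_pos i; omega⟩
  have hzero : ∀ (e f : (i : Fin n) → Fin (a i)) (i : Fin n), (e i : ℕ) + (f i : ℕ) ≠ a i - 1 →
      lam (bs e * bs f) = 0 := by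
    intro e f i hi
    obtain ⟨c, hc0, hc⟩ := mon_mul_mon q x h.comm h.q_ne (List.finRange n)
      (List.nodup_finRange n) (fun i => (e i : ℕ)) (fun i => (f i : ℕ))
    rw [hbs, hbs, hc, map_smul]
    by_cases hb : ∀ j, (e j : ℕ) + (f j : ℕ) < a j
    · have h1 : mon x (List.finRange n) (fun j => (e j : ℕ) + (f j : ℕ)) =
          bs (fun j => ⟨(e j : ℕ) + (f j : ℕ), hb j⟩) := by rw [hbs]
      have h2 : (fun j => ⟨(e j : ℕ) + (f j : ℕ), hb j⟩ : (i : Fin n) → Fin (a i)) ≠ top := by
        intro h3
        apply hi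
        have := congrArg (fun g => ((g i : Fin (a i)) : ℕ)) h3
        exact this
      rw [h1]
      change c • bs.coord top (bs _) = 0
      rw [Module.Basis.coord_apply, Module.Basis.repr_self, Finsupp.single_eq_of_ne (Ne.symm h2),
        smul_zero]
    · push Not at hb
      obtain ⟨j, hj⟩ := hb
      rw [mon_eq_zero a x h.pow_zero _ j (List.mem_finRange j) _ hj, map_zero, smul_zero]
  have hone : ∀ (e f : (i : Fin n) → Fin (a i)), (∀ i, (e i : ℕ) + (f i : ℕ) = a i - 1) →
      lam (bs e * bs f) ≠ 0 := by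
    intro e f hi
    obtain ⟨c, hc0, hc⟩ := mon_mul_mon q x h.comm h.q_ne (List.finRange n)
      (List.nodup_finRange n) (fun i => (e i : ℕ)) (fun i => (f i : ℕ))
    rw [hbs, hbs, hc, map_smul]
    have h1 : mon x (List.finRange n) (fun j => (e j : ℕ) + (f j : ℕ)) = bs top := by
      rw [hbs]
      exact mon_congr x _ _ _ fun j _ => hi j
    rw [h1]
    change c • bs.coord top (bs _) ≠ 0
    rw [Module.Basis.coord_apply, Module.Basis.repr_self, Finsupp.single_eq_same, smul_eq_mul,
      mul_one]
    exact hc0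
  refine ⟨lam, fun b hb => ?_, fun b hb => ?_⟩
  · apply bs.ext_elem
    intro e
    rw [map_zero, Finsupp.zero_apply]
    have h1 := hb (bs (co e))
    rw [← bs.sum_repr b, Finset.mul_sum, map_sum, Finset.sum_eq_single e] at h1
    · rw [mul_smul_comm, map_smul, smul_eq_mul, mul_eq_zero] at h1
      rcases h1 with h1 | h1
      · rw [← bs.sum_repr b]; exact h1 |> fun h => by simpa using h
      · exfalso
        refine hone (co e) e (fun i => ?_) h1
        change a i - 1 - (e i : ℕ) + (e i : ℕ) = a i - 1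
        have := (e i).2; omega
    · intro f _ hfe
      rw [mul_smul_comm, map_smul]
      obtain ⟨i, hi⟩ : ∃ i, f i ≠ e i := by
        by_contra hne
        push Not at hne
        exact hfe (funext hne)
      rw [hzero (co e) f i, smul_zero]
      intro h2
      apply hi
      apply Fin.ext
      have h3 : a i - 1 - (e i : ℕ) + (f i : ℕ) = a i - 1 := h2
      have := (e i).2; have := (f i).2; omega
    · intro hne; exact absurd (Finset.mem_univ e) hne
  · apply bs.ext_elem
    intro e
    rw [map_zero, Finsupp.zero_apply]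
    have h1 := hb (bs (co e))
    rw [← bs.sum_repr b, Finset.sum_mul, map_sum, Finset.sum_eq_single e] at h1
    · rw [smul_mul_assoc, map_smul, smul_eq_mul, mul_eq_zero] at h1
      rcases h1 with h1 | h1
      · rw [← bs.sum_repr b]; exact h1 |> fun h => by simpa using h
      · exfalso
        refine hone e (co e) (fun i => ?_) h1
        change (e i : ℕ) + (a i - 1 - (e i : ℕ)) = a i - 1
        have := (e i).2; omega
    · intro f _ hfe
      rw [smul_mul_assoc, map_smul]
      obtain ⟨i, hi⟩ : ∃ i, f i ≠ e i := by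
        by_contra hne
        push Not at hne
        exact hfe (funext hne)
      rw [hzero f (co e) i, smul_zero]
      intro h2
      apply hi
      apply Fin.ext
      have h3 : (f i : ℕ) + (a i - 1 - (e i : ℕ)) = a i - 1 := h2
      have := (e i).2; have := (f i).2; omega
    · intro hne; exact absurd (Finset.mem_univ e) hne

/-- the relative coefficient map in the direction `i` -/
theorem IsQCI.exists_kappa (h : IsQCI K a q B x) (i : Fin n) : ∃ κ : B →ₗ[K] B,
    (∀ k, k ≠ i → ∀ b, κ (x k * b) = q k i ^ (a i - 1) • (x k * κ b)) ∧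
    (∀ b, ∑ j ∈ Finset.range (a i), x i ^ j * κ (x i ^ (a i - 1 - j) * b) = b) ∧
    (∀ r ∈ Algebra.adjoin K (x '' {k | k ≠ i}), ∀ j, j < a i →
      κ (x i ^ j * r) = if j = a i - 1 then r else 0) := by
  classical
  let l : List (Fin n) := (Finset.univ.erase i).toList
  have hil : i ∉ l := by simp [l]
  have hkl : ∀ k, k ≠ i → k ∈ l := fun k hk => by simp [l, hk]
  have hndl : l.Nodup := Finset.nodup_toList _
  have hmem : ∀ k, k ∈ i :: l := fun k => by
    by_cases hk : k = i
    · rw [hk]; exact List.mem_cons_self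
    · exact List.mem_cons_of_mem _ (hkl k hk)
  have hnd : (i :: l).Nodup := List.nodup_cons.mpr ⟨hil, hndl⟩
  obtain ⟨bs, hbs⟩ := h.exists_basis (i :: l) hmem hnd
  let κ : B →ₗ[K] B := bs.constr K (fun e => if (e i : ℕ) = a i - 1 then
    mon x l (fun k => (e k : ℕ)) else 0)
  -- the value on monomials
  have hval : ∀ (j : ℕ) (e : Fin n → ℕ), j < a i →
      κ (x i ^ j * mon x l e) = if j = a i - 1 then mon x l e else 0 := by
    intro j e hj
    by_cases hb : ∀ k, k ≠ i → e k < a k
    · let e' : (k : Fin n) → Fin (a k) := fun k => if hk : k = i then ⟨j, by rw [hk]; exact hj⟩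
        else ⟨e k, hb k hk⟩
      have he'i : (e' i : ℕ) = j := by simp [e']
      have he' : ∀ k, k ≠ i → (e' k : ℕ) = e k := fun k hk => by simp [e', hk]
      have h1 : mon x l (fun k => (e' k : ℕ)) = mon x l e := by
        apply mon_congr
        intro k hk
        exact he' k (fun h => hil (h ▸ hk))
      have h2 : x i ^ j * mon x l e = bs e' := by
        rw [hbs, mon_cons, he'i, h1]
      rw [h2]
      change bs.constr K _ (bs e') = _
      rw [Module.Basis.constr_basis, he'i, h1]
    · push Not at hb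
      obtain ⟨k, hk, hk2⟩ := hb
      rw [mon_eq_zero a x h.pow_zero l k (hkl k hk) e hk2, mul_zero, map_zero, ite_self]
  -- the span of the monomials along `l`
  let R : Submodule K B := Submodule.span K (Set.range (fun e : Fin n → ℕ => mon x l e))
  have hvalR : ∀ r ∈ R, ∀ j, j < a i → κ (x i ^ j * r) = if j = a i - 1 then r else 0 := by
    intro r hr j hj
    induction hr using Submodule.span_induction with
    | mem z hz => obtain ⟨e, rfl⟩ := hz; exact hval j e hj
    | zero => rw [mul_zero, map_zero, ite_self]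
    | add u v _ _ hu hv => rw [mul_add, map_add, hu, hv]; split_ifs <;> simp
    | smul c u _ hu => rw [mul_smul_comm, map_smul, hu]; split_ifs <;> simp
  have hR1 : (1 : B) ∈ R := Submodule.subset_span ⟨fun _ => 0, mon_zero x l⟩
  have hRmul : ∀ k, k ≠ i → ∀ r ∈ R, x k * r ∈ R := by
    intro k hk r hr
    induction hr using Submodule.span_induction with
    | mem z hz =>
      obtain ⟨e, rfl⟩ := hz
      obtain ⟨c, hc⟩ := mul_mon q x h.comm k l (hkl k hk) hndl e
      change x k * mon x l e ∈ R
      rw [hc]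
      exact R.smul_mem c (Submodule.subset_span ⟨_, rfl⟩)
    | zero => rw [mul_zero]; exact R.zero_mem
    | add u v _ _ hu hv => rw [mul_add]; exact R.add_mem hu hv
    | smul c u _ hu => rw [mul_smul_comm]; exact R.smul_mem c hu
  have hRadj : ∀ r ∈ Algebra.adjoin K (x '' {k | k ≠ i}), r ∈ R := by
    have hall : ∀ w ∈ Algebra.adjoin K (x '' {k | k ≠ i}), ∀ z ∈ R, w * z ∈ R := by
      intro w hw
      induction hw using Algebra.adjoin_induction with
      | mem w hw => obtain ⟨k, hk, rfl⟩ := hw; exact hRmul k hk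
      | algebraMap r => intro z hz; rw [← Algebra.smul_def]; exact R.smul_mem r hz
      | add u v _ _ hu hv => intro z hz; rw [add_mul]; exact R.add_mem (hu z hz) (hv z hz)
      | mul u v _ _ hu hv => intro z hz; rw [mul_assoc]; exact hu _ (hv z hz)
    intro r hr
    have := hall r hr 1 hR1
    rwa [mul_one] at this
  -- every element is a sum of `x i ^ m * r`
  have hind : ∀ (P : B → Prop), (∀ u v, P u → P v → P (u + v)) → (∀ (c : K) u, P u → P (c • u)) →
      (∀ m, m < a i → ∀ r ∈ R, P (x i ^ m * r)) → ∀ b, P b := by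
    intro P hadd hsm hP b
    rw [← bs.sum_repr b]
    have h0 : P 0 := by
      have := hP 0 (h.a_pos i) 0 R.zero_mem
      rwa [mul_zero] at this
    apply Finset.sum_induction _ P hadd h0
    intro e _
    apply hsm
    rw [hbs, mon_cons]
    exact hP _ (e i).2 _ (Submodule.subset_span ⟨_, rfl⟩)
  refine ⟨κ, fun k hk => ?_, ?_, fun r hr => hvalR r (hRadj r hr)⟩
  · apply hind
    · intro u v hu hv
      rw [mul_add, map_add, map_add, hu, hv, mul_add, smul_add]
    · intro c u hu
      rw [mul_smul_comm, map_smul, map_smul, hu, mul_smul_comm, smul_comm]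
    · intro m hm r hr
      rw [← mul_assoc, pow_comm_of (x k) (x i) (q k i) (h.comm k i hk), smul_mul_assoc, map_smul,
        mul_assoc, hvalR _ (hRmul k hk r hr) m hm, hvalR r hr m hm]
      split_ifs with hma
      · rw [hma]
      · rw [smul_zero, mul_zero, smul_zero]
  · apply hind
    · intro u v hu hv
      conv_rhs => rw [← hu, ← hv]
      rw [← Finset.sum_add_distrib]
      exact Finset.sum_congr rfl fun j _ => by rw [mul_add, map_add, mul_add]
    · intro c u hu
      conv_rhs => rw [← hu]
      rw [Finset.smul_sum]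
      exact Finset.sum_congr rfl fun j _ => by rw [mul_smul_comm, map_smul, mul_smul_comm]
    · intro m hm r hr
      have hai := h.a_pos i
      rw [Finset.sum_eq_single m]
      · rw [← mul_assoc, ← pow_add]
        have h1 : a i - 1 - m + m = a i - 1 := by omega
        rw [h1, hvalR r hr _ (by omega), if_pos rfl]
      · intro j hj hjm
        rw [Finset.mem_range] at hj
        rw [← mul_assoc, ← pow_add]
        by_cases hlt : a i - 1 - j + m < a i
        · rw [hvalR r hr _ hlt, if_neg (by omega), mul_zero]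
        · have h2 : x i ^ (a i - 1 - j + m) = 0 := by
            rw [← Nat.sub_add_cancel (not_lt.mp hlt), pow_add, h.pow_zero, mul_zero]
          rw [h2, zero_mul, map_zero, mul_zero]
      · intro hne
        exact absurd (Finset.mem_range.mpr hm) hne

end

end Run7.h692
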