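import Pool.Agent.Run7.h692.Torus3
import Pool.Agent.Run7.h692.QciRes

set_option autoImplicit false
set_option linter.unusedSectionVars false
open scoped TensorProduct

namespace Run7.h692

section RM

variable {K B V : Type} [Field K] [Ring B] [Algebra K B] [AddCommGroup V] [Module K V]

/-- the module of a representation -/
@[nolint unusedArguments]
def RM (_ρ : B →ₐ[K] Module.End K V) : Type := V

variable (ρ : B →ₐ[K] Module.End K V)

/-- the additive group of a representation -/
@[reducible]
def RM.acg : AddCommGroup (RM ρ) := inferInstanceAs (AddCommGroup V)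

attribute [local instance] RM.acg

/-- the vector space of a representation -/
@[reducible]
def RM.modK : Module K (RM ρ) := inferInstanceAs (Module K V)

attribute [local instance] RM.modK

/-- the module structure of a representation -/
@[reducible]
def RM.modB : Module B (RM ρ) := Module.compHom V ρ.toRingHom

attribute [local instance] RM.modB

/-- the underlying vector -/
def RM.of (v : V) : RM ρ := v

variable {ρ}

/-- the underlying vector -/
def RM.un (v : RM ρ) : V := v

theorem RM.smul_def (b : B) (v : RM ρ) : b • v = RM.of ρ (ρ b (RM.un v)) := rfl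

theorem RM.smulK_def (c : K) (v : RM ρ) : c • v = RM.of ρ (c • (RM.un v)) := rfl

theorem RM.tower : IsScalarTower K B (RM ρ) := ⟨fun c b v => by
  rw [RM.smul_def, RM.smul_def, RM.smulK_def, map_smul]
  rfl⟩

end RM

attribute [local instance] RM.acg RM.modK RM.modB RM.tower

section Lin

variable {K : Type} [Field K] {n : ℕ} {a : Fin n → ℕ} {q : Fin n → Fin n → K}
  {B : Type} [Ring B] [Algebra K B] {x : Fin n → B}

/-- a `K`-linear map commuting with the generators is `B`-linear -/
theorem IsQCI.map_smul_of (h : IsQCI K a q B x) {V W : Type} [AddCommGroup V] [AddCommGroup W]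
    [Module K V] [Module K W] [Module B V] [Module B W] [IsScalarTower K B V]
    [IsScalarTower K B W] (f : V →ₗ[K] W) (hf : ∀ k v, f (x k • v) = x k • f v) (b : B) :
    ∀ v, f (b • v) = b • f v := by
  refine h.ext_of_gen (P := fun b => ∀ v, f (b • v) = b • f v) b ?_ ?_ ?_ ?_
  · intro c v
    rw [algebraMap_smul, algebraMap_smul, map_smul]
  · exact fun k v => hf k v
  · intro u w hu hw v
    rw [add_smul, add_smul, map_add, hu, hw]
  · intro u w hu hw v
    rw [mul_smul, mul_smul, hu, hw]

/-- the resulting linear map -/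
def IsQCI.lin (h : IsQCI K a q B x) {V W : Type} [AddCommGroup V] [AddCommGroup W]
    [Module K V] [Module K W] [Module B V] [Module B W] [IsScalarTower K B V]
    [IsScalarTower K B W] (f : V →ₗ[K] W) (hf : ∀ k v, f (x k • v) = x k • f v) : V →ₗ[B] W where
  toFun := f
  map_add' := map_add f
  map_smul' b v := h.map_smul_of f hf b v

end Lin

section Inner

variable {K : Type} [Field K] {n : ℕ} {a : Fin n → ℕ} {q : Fin n → Fin n → K}
  {B : Type} [Ring B] [Algebra K B] {x : Fin n → B}
  {N : Type} [AddCommGroup N] [Module B N] [Module K N] [IsScalarTower K B N]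

/-- the operator of a generator -/
def opX (K : Type) [Field K] {n : ℕ} {B : Type} [Ring B] [Algebra K B] (x : Fin n → B)
    (N : Type) [AddCommGroup N] [Module B N] [Module K N] [IsScalarTower K B N] (k : Fin n) :
    Module.End K N := Algebra.lsmul K K N (x k)

theorem opX_apply (k : Fin n) (v : N) : opX K x N k v = x k • v := rfl

/-- the block operators -/
def blk (x : Fin n → B) (D : Fin n → Module.End K N) (k : Fin n) : Module.End K (N × N) where
  toFun z := (x k • z.1 + D k z.2, x k • z.2)
  map_add' z w := by
    ext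
    · change x k • (z.1 + w.1) + D k (z.2 + w.2) = (x k • z.1 + D k z.2) + (x k • w.1 + D k w.2)
      rw [smul_add, map_add]; abel
    · change x k • (z.2 + w.2) = x k • z.2 + x k • w.2
      rw [smul_add]
  map_smul' c z := by
    ext
    · change x k • (c • z.1) + D k (c • z.2) = c • (x k • z.1 + D k z.2)
      rw [smul_add, map_smul, smul_comm]
    · change x k • (c • z.2) = c • (x k • z.2)
      rw [smul_comm]

theorem blk_apply (D : Fin n → Module.End K N) (k : Fin n) (z : N × N) :
    blk x D k z = (x k • z.1 + D k z.2, x k • z.2) := rfl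

/-- derivations into the endomorphisms are inner -/
theorem inner_of_E1 (h : IsQCI K a q B x) (hN : E1 K B N N) (D : Fin n → Module.End K N)
    (hcomm : ∀ i j, i ≠ j → blk x D i * blk x D j = q i j • (blk x D j * blk x D i))
    (hpow : ∀ i, blk x D i ^ a i = 0) :
    ∃ Φ : Module.End K N, ∀ k, D k = Φ * opX K x N k - opX K x N k * Φ := by
  obtain ⟨ρ, hρ⟩ := h.lift (blk x D) hcomm hpow
  let i0 : N →ₗ[K] RM ρ := (LinearMap.inl K N N : N →ₗ[K] N × N)
  let p0 : RM ρ →ₗ[K] N := (LinearMap.snd K N N : N × N →ₗ[K] N)
  have hi0 : ∀ k v, i0 (x k • v) = x k • i0 v := by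
    intro k v
    rw [RM.smul_def, hρ]
    change ((x k • v, 0) : N × N) = blk x D k (v, 0)
    rw [blk_apply, map_zero, add_zero, smul_zero]
  have hp0 : ∀ k v, p0 (x k • v) = x k • p0 v := by
    intro k v
    rw [RM.smul_def, hρ]
    rfl
  let i : N →ₗ[B] RM ρ := h.lin i0 hi0
  let p : RM ρ →ₗ[B] N := h.lin p0 hp0
  have hi : Function.Injective i := fun u v huv => congrArg Prod.fst huv
  have hp : Function.Surjective p := fun v => ⟨RM.of ρ (0, v), rfl⟩
  have hip : Function.Exact i p := by
    intro z
    constructor
    · intro hz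
      refine ⟨(RM.un z).1, ?_⟩
      change ((RM.un z).1, (0 : N)) = RM.un z
      exact Prod.ext rfl hz.symm
    · rintro ⟨u, rfl⟩
      rfl
  obtain ⟨s, hs⟩ := hN.split i p hi hip hp
  let Φ : Module.End K N :=
    { toFun := fun v => (RM.un (s v)).1
      map_add' := fun u v => by rw [map_add]; rfl
      map_smul' := fun c v => by
        have : s (c • v) = c • s v := by
          rw [← algebraMap_smul B c v, map_smul, algebraMap_smul]
        rw [this]; rfl }
  refine ⟨Φ, fun k => LinearMap.ext fun v => ?_⟩
  have h2 : (RM.un (s v)).2 = v := hs v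
  have h1 : s (x k • v) = x k • s v := map_smul s _ _
  have h3 : (RM.un (s (x k • v))).1 = x k • (RM.un (s v)).1 + D k (RM.un (s v)).2 := by
    rw [h1, RM.smul_def, hρ]
    rfl
  rw [h2] at h3
  change D k v = (RM.un (s (x k • v))).1 - x k • (RM.un (s v)).1
  rw [h3, add_sub_cancel_left]

/-- the condition carried along the recursion -/
def Good (x : Fin n → B) (i : Fin n) (Φ : Module.End K N) : Prop :=
  (∀ l, l ≠ i → Φ * opX K x N l = opX K x N l * Φ) ∧
  (∀ m : ℕ, ∃ Ψ : Module.End K N, Φ * opX K x N i ^ m = opX K x N i ^ m * Ψ)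

theorem opX_comm (h : IsQCI K a q B x) (k l : Fin n) (hkl : k ≠ l) :
    opX K x N k * opX K x N l = q k l • (opX K x N l * opX K x N k) := by
  apply LinearMap.ext
  intro v
  change x k • x l • v = q k l • (x l • x k • v)
  rw [← mul_smul, h.comm k l hkl, smul_assoc, mul_smul]

theorem opX_pow (h : IsQCI K a q B x) (k : Fin n) : opX K x N k ^ a k = 0 := by
  change (Algebra.lsmul K K N (x k)) ^ a k = 0
  rw [← map_pow, h.pow_zero, map_zero]

theorem good_step (h : IsQCI K a q B x) (hN : E1 K B N N) (i : Fin n) (Φ : Module.End K N)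
    (hΦ : Good x i Φ) : ∃ Φ' : Module.End K N, Good x i Φ' ∧
      Φ' * opX K x N i = opX K x N i * (Φ' + Φ) := by
  classical
  let D : Fin n → Module.End K N := fun k => if k = i then opX K x N i * Φ else 0
  have hDi : D i = opX K x N i * Φ := if_pos rfl
  have hDl : ∀ l, l ≠ i → D l = 0 := fun l hl => if_neg hl
  have hq1 : ∀ k l, k ≠ l → q k l * q l k = 1 := h.q_inv
  -- commutation of `x l` with `x i Φ`
  have hil : ∀ l, l ≠ i → ∀ v, x l • (x i • Φ v) = q l i • (x i • Φ (x l • v)) := by
    intro l hl v
    have h1 : Φ (x l • v) = x l • Φ v := LinearMap.congr_fun (hΦ.1 l hl) v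
    rw [h1, ← mul_smul, h.comm l i hl, smul_assoc, mul_smul]
  have hcomm : ∀ k l, k ≠ l → blk x D k * blk x D l = q k l • (blk x D l * blk x D k) := by
    intro k l hkl
    apply LinearMap.ext
    intro z
    change blk x D k (blk x D l z) = q k l • blk x D l (blk x D k z)
    simp only [blk_apply]
    apply Prod.ext
    · change x k • (x l • z.1 + D l z.2) + D k (x l • z.2) =
        q k l • (x l • (x k • z.1 + D k z.2) + D l (x k • z.2))
      have h0 : x k • x l • z.1 = q k l • x l • x k • z.1 :=
        LinearMap.congr_fun (opX_comm (N := N) h k l hkl) z.1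
      by_cases hki : k = i
      · have hli : l ≠ i := fun hli => hkl (hki.trans hli.symm)
        subst hki
        rw [hDl l hli, hDi]
        simp only [LinearMap.zero_apply, add_zero, smul_add]
        rw [h0]
        congr 1
        change x k • Φ (x l • z.2) = q k l • x l • x k • Φ z.2
        rw [hil l hli, smul_smul, hq1 k l hkl, one_smul]
      · by_cases hli : l = i
        · subst hli
          rw [hDl k hki, hDi]
          simp only [LinearMap.zero_apply, add_zero, smul_add]
          rw [h0]
          congr 1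
          change x k • (x l • Φ z.2) = q k l • (x l • Φ (x k • z.2))
          exact hil k hki z.2
        · rw [hDl k hki, hDl l hli]
          simp only [LinearMap.zero_apply, add_zero]
          exact h0
    · exact LinearMap.congr_fun (opX_comm (N := N) h k l hkl) z.2
  have hpow : ∀ k, blk x D k ^ a k = 0 := by
    intro k
    by_cases hki : k = i
    · subst hki
      choose Ψ hΨ using hΦ.2
      have key : ∀ m : ℕ, ∃ Θ : Module.End K N, ∀ z : N × N, (blk x D k ^ m) z =
          (x k ^ m • z.1 + x k ^ m • Θ z.2, x k ^ m • z.2) := by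
        intro m
        induction m with
        | zero => exact ⟨0, fun z => by simp⟩
        | succ m ih =>
          obtain ⟨Θ, hΘ⟩ := ih
          refine ⟨Θ + Ψ m, fun z => ?_⟩
          rw [pow_succ']
          change blk x D k ((blk x D k ^ m) z) = _
          rw [hΘ, blk_apply, hDi]
          have h1 : Φ (x k ^ m • z.2) = x k ^ m • Ψ m z.2 := by
            have h2 := LinearMap.congr_fun (hΨ m) z.2
            have h3 : ∀ v : N, (opX K x N k ^ m) v = x k ^ m • v := by
              intro v
              change ((Algebra.lsmul K K N (x k)) ^ m) v = _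
              rw [← map_pow]
              rfl
            change Φ ((opX K x N k ^ m) z.2) = (opX K x N k ^ m) (Ψ m z.2) at h2
            rwa [h3, h3] at h2
          apply Prod.ext
          · change x k • (x k ^ m • z.1 + x k ^ m • Θ z.2) + x k • Φ (x k ^ m • z.2) =
              x k ^ (m + 1) • z.1 + x k ^ (m + 1) • (Θ z.2 + Ψ m z.2)
            rw [h1, pow_succ', smul_add, smul_add, mul_smul, mul_smul, mul_smul, add_assoc]
          · change x k • x k ^ m • z.2 = x k ^ (m + 1) • z.2
            rw [pow_succ', mul_smul]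
      obtain ⟨Θ, hΘ⟩ := key (a k)
      apply LinearMap.ext
      intro z
      rw [hΘ, h.pow_zero]
      simp
    · have key : ∀ m : ℕ, ∀ z : N × N, (blk x D k ^ m) z = (x k ^ m • z.1, x k ^ m • z.2) := by
        intro m
        induction m with
        | zero => exact fun z => by simp
        | succ m ih =>
          intro z
          rw [pow_succ']
          change blk x D k ((blk x D k ^ m) z) = _
          rw [ih, blk_apply, hDl k hki, pow_succ', mul_smul, mul_smul, LinearMap.zero_apply,
            add_zero]
      apply LinearMap.ext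
      intro z
      rw [key, h.pow_zero]
      simp
  obtain ⟨Φ', hΦ'⟩ := inner_of_E1 h hN D hcomm hpow
  have h4 : Φ' * opX K x N i = opX K x N i * (Φ' + Φ) := by
    have h5 := hΦ' i
    rw [hDi, eq_sub_iff_add_eq] at h5
    rw [← h5, mul_add, add_comm]
  refine ⟨Φ', ⟨fun l hl => ?_, fun m => ?_⟩, h4⟩
  · have h5 := hΦ' l
    rw [hDl l hl] at h5
    exact (sub_eq_zero.mp h5.symm)
  · choose Ψ hΨ using hΦ.2
    induction m with
    | zero => exact ⟨Φ', by rw [pow_zero, mul_one, one_mul]⟩
    | succ m ih =>
      obtain ⟨Ψ', hΨ'⟩ := ih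
      refine ⟨Ψ' + Ψ m, ?_⟩
      rw [pow_succ', ← mul_assoc, h4, mul_assoc, add_mul, hΨ', hΨ m, ← mul_add, ← mul_assoc]

theorem good_one (i : Fin n) : Good x i (1 : Module.End K N) :=
  ⟨fun l _ => by rw [one_mul, mul_one], fun m => ⟨1, by rw [one_mul, mul_one]⟩⟩

theorem exists_seq (h : IsQCI K a q B x) (hN : E1 K B N N) (i : Fin n) :
    ∃ Φ : ℕ → Module.End K N, Φ 0 = 1 ∧
      (∀ k, Φ (k + 1) * opX K x N i = opX K x N i * (Φ (k + 1) + Φ k)) ∧
      (∀ k l, l ≠ i → Φ k * opX K x N l = opX K x N l * Φ k) := by
  choose g hg1 hg2 using fun (Φ : {Φ : Module.End K N // Good x i Φ}) =>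
    good_step h hN i Φ.1 Φ.2
  let f : ℕ → {Φ : Module.End K N // Good x i Φ} := fun k =>
    Nat.rec ⟨1, good_one i⟩ (fun _ Φ => ⟨g Φ, hg1 Φ⟩) k
  refine ⟨fun k => (f k).1, rfl, fun k => hg2 (f k), fun k l hl => (f k).2.1 l hl⟩

/-- **torus invariance**: twisting a rigid module by an element of the torus gives a direct
summand of a finite power of the module -/
theorem exists_torus (h : IsQCI K a q B x) [Module.Finite K N] (hN : E1 K B N N)
    (w : Fin n → K) (hw : ∀ k, w k ≠ 0) :
    ∃ (σ : Type) (S : Finset σ) (P Q : σ → Module.End K N),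
      (∀ s k v, P s (x k • v) = w k • (x k • P s v)) ∧
      (∀ s k v, w k • Q s (x k • v) = x k • Q s v) ∧
      (∀ v, ∑ s ∈ S, Q s (P s v) = v) := by
  classical
  let b := Module.finBasis K N
  let e := LinearMap.toMatrixAlgEquiv b
  obtain ⟨T, T', h1, h2, h3⟩ := matrix_torus (fun k => e (opX K x N k)) (fun i => by
    obtain ⟨Φ, hΦ0, hΦi, hΦl⟩ := exists_seq h hN i
    refine ⟨fun k => e (Φ k), ?_, ?_, ?_⟩
    · change e (Φ 0) = 1
      rw [hΦ0]
      exact map_one e
    · intro k
      change e (Φ (k + 1)) * e (opX K x N i) = e (opX K x N i) * (e (Φ (k + 1)) + e (Φ k))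
      rw [← map_add, ← map_mul, hΦi, map_mul]
    · intro k l hl
      change e (Φ k) * e (opX K x N l) = e (opX K x N l) * e (Φ k)
      rw [← map_mul, hΦl k l hl, map_mul]) w hw
  obtain ⟨σ, S, P, Q, g1, g2, g3⟩ := matrix_descent (fun k => e (opX K x N k)) w T T' h1 h2 h3
  refine ⟨σ, S, fun s => e.symm (P s), fun s => e.symm (Q s), ?_, ?_, ?_⟩
  · intro s k v
    have h4 : e.symm (P s) * opX K x N k = w k • (opX K x N k * e.symm (P s)) := by
      apply e.injective
      rw [map_mul, AlgEquiv.apply_symm_apply, g1, map_smul, map_mul, AlgEquiv.apply_symm_apply]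
    exact LinearMap.congr_fun h4 v
  · intro s k v
    have h4 : w k • (e.symm (Q s) * opX K x N k) = opX K x N k * e.symm (Q s) := by
      apply e.injective
      rw [map_smul, map_mul, AlgEquiv.apply_symm_apply, g2, map_mul, AlgEquiv.apply_symm_apply]
    exact LinearMap.congr_fun h4 v
  · intro v
    have h4 : ∑ s ∈ S, e.symm (Q s) * e.symm (P s) = 1 := by
      apply e.injective
      rw [map_sum, map_one, ← g3]
      refine Finset.sum_congr rfl fun s _ => ?_
      rw [map_mul, AlgEquiv.apply_symm_apply, AlgEquiv.apply_symm_apply]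
    have h5 := LinearMap.congr_fun h4 v
    rw [LinearMap.sum_apply] at h5
    exact h5

end Inner

end Run7.h692
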