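import Pool.Agent.Helper426_Tach.ExtS

set_option autoImplicit false
set_option linter.unusedSectionVars false
open CategoryTheory Pool.Agent.Helper426Tach

namespace Run7.h692

section

variable {S : Type} [Ring S] {F M T : Type} [AddCommGroup F] [AddCommGroup M] [AddCommGroup T]
  [Module S F] [Module S M] [Module S T]

theorem factor_gen (p : F →ₗ[S] M) (hp : Function.Surjective p) (ψ : F →ₗ[S] T)
    (h : ∀ z ∈ LinearMap.ker p, ψ z = 0) : ∃ ψ' : M →ₗ[S] T, ∀ z, ψ' (p z) = ψ z := by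
  have hk : LinearMap.ker p ≤ LinearMap.ker ψ := fun z hz => h z hz
  refine ⟨(Submodule.liftQ _ ψ hk) ∘ₗ (p.quotKerEquivOfSurjective hp).symm.toLinearMap,
    fun z => ?_⟩
  have h4 : (p.quotKerEquivOfSurjective hp).symm (p z) = Submodule.Quotient.mk z := by
    rw [LinearEquiv.symm_apply_eq]
    rfl
  change (Submodule.liftQ _ ψ hk) ((p.quotKerEquivOfSurjective hp).symm (p z)) = _
  rw [h4]
  rfl

variable [IsNoetherianRing S]

theorem exists_res (W : Type) [AddCommGroup W] [Module S W] [Module.Finite S W]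
    (T : Type) [AddCommGroup T] [Module S T]
    (h1 : Subsingleton (Abelian.Ext.{0} (ModuleCat.of S W) (ModuleCat.of S T) 1))
    (h2 : Subsingleton (Abelian.Ext.{0} (ModuleCat.of S W) (ModuleCat.of S T) 2)) :
    ∃ (n0 n1 n2 n3 : ℕ) (p0 : (Fin n0 → S) →ₗ[S] W) (D1 : (Fin n1 → S) →ₗ[S] (Fin n0 → S))
      (D2 : (Fin n2 → S) →ₗ[S] (Fin n1 → S)) (D3 : (Fin n3 → S) →ₗ[S] (Fin n2 → S)),
      Function.Surjective p0 ∧ (∀ z, p0 (D1 z) = 0) ∧ (∀ z, D1 (D2 z) = 0) ∧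
      (∀ z, D2 (D3 z) = 0) ∧
      (∀ ψ : (Fin n0 → S) →ₗ[S] T, ψ ∘ₗ D1 = 0 → ∃ ψ' : W →ₗ[S] T, ∀ z, ψ' (p0 z) = ψ z) ∧
      (∀ ψ : (Fin n1 → S) →ₗ[S] T, ψ ∘ₗ D2 = 0 → ∃ χ : (Fin n0 → S) →ₗ[S] T, χ ∘ₗ D1 = ψ) ∧
      (∀ ψ : (Fin n2 → S) →ₗ[S] T, ψ ∘ₗ D3 = 0 → ∃ χ : (Fin n1 → S) →ₗ[S] T, χ ∘ₗ D2 = ψ) := by
  obtain ⟨n0, p0, hp0⟩ := Module.Finite.exists_fin' S W
  obtain ⟨n1, p1, hp1⟩ := Module.Finite.exists_fin' S (LinearMap.ker p0)
  obtain ⟨n2, p2, hp2⟩ := Module.Finite.exists_fin' S (LinearMap.ker p1)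
  obtain ⟨n3, p3, hp3⟩ := Module.Finite.exists_fin' S (LinearMap.ker p2)
  have hext1 : ∀ ψ : LinearMap.ker p0 →ₗ[S] T,
      ∃ χ : (Fin n0 → S) →ₗ[S] T, χ ∘ₗ (LinearMap.ker p0).subtype = ψ := fun ψ =>
    ext_of_ez (A := ModuleCat.of S (LinearMap.ker p0)) (B := ModuleCat.of S (Fin n0 → S))
      (C := ModuleCat.of S W) (Y := ModuleCat.of S T)
      (LinearMap.ker p0).subtype p0 (LinearMap.ker p0).injective_subtype
      (LinearMap.exact_subtype_ker_map p0) hp0 h1 ψ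
  have hshift : Subsingleton (Abelian.Ext.{0} (ModuleCat.of S (LinearMap.ker p0))
      (ModuleCat.of S T) 1) := by
    refine ez_contra1 (A := ModuleCat.of S (LinearMap.ker p0))
      (B := ModuleCat.of S (Fin n0 → S)) (C := ModuleCat.of S W)
      (LinearMap.ker p0).subtype p0 (LinearMap.ker p0).injective_subtype
      (LinearMap.exact_subtype_ker_map p0) hp0 ?_ h2
    exact ez_projective (P := ModuleCat.of S (Fin n0 → S))
      (inferInstanceAs (Module.Projective S (Fin n0 → S))) 0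
  have hext2 : ∀ ψ : LinearMap.ker p1 →ₗ[S] T,
      ∃ χ : (Fin n1 → S) →ₗ[S] T, χ ∘ₗ (LinearMap.ker p1).subtype = ψ := fun ψ =>
    ext_of_ez (A := ModuleCat.of S (LinearMap.ker p1)) (B := ModuleCat.of S (Fin n1 → S))
      (C := ModuleCat.of S (LinearMap.ker p0)) (Y := ModuleCat.of S T)
      (LinearMap.ker p1).subtype p1 (LinearMap.ker p1).injective_subtype
      (LinearMap.exact_subtype_ker_map p1) hp1 hshift ψ
  refine ⟨n0, n1, n2, n3, p0, (LinearMap.ker p0).subtype ∘ₗ p1, (LinearMap.ker p1).subtype ∘ₗ p2,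
    (LinearMap.ker p2).subtype ∘ₗ p3, hp0, fun z => (p1 z).2, fun z => ?_, fun z => ?_, ?_, ?_, ?_⟩
  · have h3 : p1 ((p2 z : LinearMap.ker p1) : Fin n1 → S) = 0 := (p2 z).2
    change ((p1 ((p2 z : LinearMap.ker p1) : Fin n1 → S) : LinearMap.ker p0) : Fin n0 → S) = 0
    rw [h3]; rfl
  · have h3 : p2 ((p3 z : LinearMap.ker p2) : Fin n2 → S) = 0 := (p3 z).2
    change ((p2 ((p3 z : LinearMap.ker p2) : Fin n2 → S) : LinearMap.ker p1) : Fin n1 → S) = 0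
    rw [h3]; rfl
  · intro ψ hψ
    apply factor_gen p0 hp0
    intro z hz
    obtain ⟨y, hy⟩ := hp1 ⟨z, hz⟩
    have h3 := LinearMap.congr_fun hψ y
    change ψ ((p1 y : LinearMap.ker p0) : Fin n0 → S) = 0 at h3
    rw [hy] at h3
    exact h3
  · intro ψ hψ
    obtain ⟨ψ', hψ'⟩ := factor_gen p1 hp1 ψ (by
      intro z hz
      obtain ⟨y, hy⟩ := hp2 ⟨z, hz⟩
      have h3 := LinearMap.congr_fun hψ y
      change ψ ((p2 y : LinearMap.ker p1) : Fin n1 → S) = 0 at h3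
      rw [hy] at h3
      exact h3)
    obtain ⟨χ, hχ⟩ := hext1 ψ'
    refine ⟨χ, LinearMap.ext fun z => ?_⟩
    rw [← hψ' z, ← hχ]
    rfl
  · intro ψ hψ
    obtain ⟨ψ', hψ'⟩ := factor_gen p2 hp2 ψ (by
      intro z hz
      obtain ⟨y, hy⟩ := hp3 ⟨z, hz⟩
      have h3 := LinearMap.congr_fun hψ y
      change ψ ((p3 y : LinearMap.ker p2) : Fin n2 → S) = 0 at h3
      rw [hy] at h3
      exact h3)
    obtain ⟨χ, hχ⟩ := hext2 ψ'
    refine ⟨χ, LinearMap.ext fun z => ?_⟩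
    rw [← hψ' z, ← hχ]
    rfl

end

end Run7.h692
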