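import Pool.Agent.Run7.h692.Van3
import Pool.Agent.Helper426_Tach.QF3
import Pool.Agent.Helper426_TauT.Center

set_option autoImplicit false
set_option linter.unusedSectionVars false
open scoped TensorProduct
open CategoryTheory MulOpposite Pool.Agent.Helper426Tach Pool.Agent.Helper426GSC
  Pool.Agent.Helper426TauT

namespace Run7.h692

section Dual

variable {K A : Type} [Field K] [Ring A] [Algebra K A] [FiniteDimensional K A]

/-- the regular right module -/
def opReg : Aᵐᵒᵖ ≃ₗ[Aᵐᵒᵖ] A where
  toFun x := unop x
  invFun x := op x
  map_add' _ _ := rfl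
  map_smul' _ _ := rfl
  left_inv _ := rfl
  right_inv _ := rfl

omit [Algebra K A] [FiniteDimensional K A] in
theorem proj_opReg : Module.Projective Aᵐᵒᵖ A := Module.Projective.of_equiv opReg

/-- functionals on the dual are evaluations -/
theorem exists_eval (θ : QD K A →ₗ[K] K) : ∃ x : A, ∀ f : QD K A, θ f = ev f x := by
  obtain ⟨x, hx⟩ := (Module.bijective_dual_eval K A).2 θ
  exact ⟨x, fun f => (LinearMap.congr_fun hx f).symm⟩

theorem eval_unique (x y : A) (h : ∀ f : QD K A, ev f x = ev f y) : x = y := by
  rw [← sub_eq_zero]
  apply (Module.forall_dual_apply_eq_zero_iff K (x - y)).mp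
  intro f
  have h1 := h (mkQ f)
  rw [ev_mkQ, ev_mkQ] at h1
  rw [map_sub, h1, sub_self]

theorem smulK_eq (c : K) (f : QD K A) : c • f = algebraMap K A c • f := by
  rw [algebraMap_smul]

/-- a left self-injective algebra has a right projective dual -/
theorem dual_proj_op (hA : Module.Injective A A) : Module.Projective Aᵐᵒᵖ (QD K A) := by
  classical
  obtain ⟨n, e, he⟩ := qd_embedding (k := K) (A := A) A
  obtain ⟨r, hr⟩ := hA.out e he LinearMap.id
  have hθ : ∀ (g : QD K A) (i : Fin n), ∃ x : A, ∀ f : QD K A,
      ev g (r (Pi.single i f)) = ev f x := by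
    intro g i
    apply exists_eval
      (θ := { toFun := fun f => ev g (r (Pi.single i f))
              map_add' := fun f f' => by
                rw [Pi.single_add, map_add, ev_add']
              map_smul' := fun c f => by
                rw [smulK_eq, Pi.single_smul, map_smul, RingHom.id_apply]
                change ev g ((algebraMap K A c) * r (Pi.single i f)) = c * _
                rw [← Algebra.smul_def, ev_smul'] })
  choose s0 hs0 using hθ
  let s : QD K A →ₗ[Aᵐᵒᵖ] (Fin n → A) :=
    { toFun := fun g i => s0 g i
      map_add' := fun g g' => by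
        funext i
        apply eval_unique (K := K)
        intro f
        rw [← hs0, Pi.add_apply, ev_add', ← hs0, ← hs0, ev_add]
      map_smul' := fun c g => by
        funext i
        apply eval_unique (K := K)
        intro f
        change ev f (s0 (c • g) i) = ev f (s0 g i * unop c)
        have h1 : ev f (s0 g i * unop c) = ev (unop c • f) (s0 g i) := rfl
        rw [← hs0, ev_op, h1, ← hs0, Pi.single_smul, map_smul]
        rfl }
  let p : (Fin n → A) →ₗ[Aᵐᵒᵖ] QD K A :=
    { toFun := fun x => ∑ i, op (x i) • e 1 i
      map_add' := fun x y => by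
        rw [← Finset.sum_add_distrib]
        refine Finset.sum_congr rfl fun i _ => ?_
        rw [Pi.add_apply, MulOpposite.op_add, add_smul]
      map_smul' := fun c x => by
        rw [RingHom.id_apply, Finset.smul_sum]
        refine Finset.sum_congr rfl fun i _ => ?_
        rw [← mul_smul]
        rfl }
  have hev : ∀ (F : Fin n → QD K A) (y : A), ev (∑ i, F i) y = ∑ i, ev (F i) y := by
    intro F y
    let evL : QD K A →+ K := AddMonoidHom.mk' (fun f => ev f y) (fun f g => ev_add f g y)
    exact map_sum evL F _
  have hpp : Module.Projective Aᵐᵒᵖ (Fin n → A) := projective_pi _ fun _ => proj_opReg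
  refine Module.Projective.of_split s p (LinearMap.ext fun g => ?_)
  apply qd_ext
  intro y
  change ev (∑ i, op (s0 g i) • e 1 i) y = ev g y
  rw [hev]
  have h1 : ∀ i, ev (op (s0 g i) • e 1 i) y = ev g (r (Pi.single i (y • e 1 i))) := by
    intro i
    rw [hs0, ev_op, ev_smul, unop_op]
  rw [Finset.sum_congr rfl fun i _ => h1 i]
  let evg : A →+ K := AddMonoidHom.mk' (fun z => ev g z) (fun z w => ev_add' g z w)
  have h2 : ∑ i, ev g (r (Pi.single i (y • e 1 i))) = ev g (∑ i, r (Pi.single i (y • e 1 i))) :=
    (map_sum evg _ _).symm
  rw [h2, ← map_sum]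
  have h3 : ∑ i, (Pi.single i (y • e 1 i) : Fin n → QD K A) = e y := by
    rw [Finset.univ_sum_single (fun i => y • e 1 i)]
    have h4 : e y = y • e 1 := by rw [← map_smul, smul_eq_mul, mul_one]
    rw [h4]
    rfl
  rw [h3]
  have h5 : r (e y) = y := hr y
  rw [h5]

/-- a right self-injective algebra has a left projective dual -/
theorem dual_proj (hA : Module.Injective Aᵐᵒᵖ A) : Module.Projective A (QD K A) := by
  classical
  have hfA : Module.Finite Aᵐᵒᵖ A := by
    refine Module.Finite.of_surjective (LinearMap.toSpanSingleton Aᵐᵒᵖ A 1) (fun z => ⟨op z, ?_⟩)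
    rw [LinearMap.toSpanSingleton_apply]
    change 1 * z = z
    rw [one_mul]
  obtain ⟨n, e, he⟩ := qd_embedding_op (k := K) (A := A) A
  obtain ⟨r, hr⟩ := hA.out e he LinearMap.id
  have hrs : ∀ (c : A) (v : Fin n → QD K A), r (op c • v) = r v * c := fun c v => map_smul r _ _
  have hθ : ∀ (g : QD K A) (i : Fin n), ∃ x : A, ∀ f : QD K A,
      ev g (r (Pi.single i f)) = ev f x := by
    intro g i
    apply exists_eval
      (θ := { toFun := fun f => ev g (r (Pi.single i f))
              map_add' := fun f f' => by
                rw [Pi.single_add, map_add, ev_add']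
              map_smul' := fun c f => by
                have h1 : (c • f : QD K A) = op (algebraMap K A c) • f := by
                  apply qd_ext
                  intro x
                  rw [ev_op, unop_op, ← Algebra.smul_def, ev_smulK, ev_smul']
                rw [h1, Pi.single_smul, hrs, RingHom.id_apply, ← Algebra.commutes,
                  ← Algebra.smul_def, ev_smul']
                rfl })
  choose s0 hs0 using hθ
  let s : QD K A →ₗ[A] (Fin n → A) :=
    { toFun := fun g i => s0 g i
      map_add' := fun g g' => by
        funext i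
        apply eval_unique (K := K)
        intro f
        rw [← hs0, Pi.add_apply, ev_add', ← hs0, ← hs0, ev_add]
      map_smul' := fun c g => by
        funext i
        apply eval_unique (K := K)
        intro f
        change ev f (s0 (c • g) i) = ev f (c * s0 g i)
        have h1 : ev f (c * s0 g i) = ev (op c • f) (s0 g i) := by rw [ev_op, unop_op]
        rw [← hs0, ev_smul, h1, ← hs0, Pi.single_smul, hrs] }
  let p : (Fin n → A) →ₗ[A] QD K A :=
    { toFun := fun x => ∑ i, x i • e 1 i
      map_add' := fun x y => by
        rw [← Finset.sum_add_distrib]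
        refine Finset.sum_congr rfl fun i _ => ?_
        rw [Pi.add_apply, add_smul]
      map_smul' := fun c x => by
        rw [RingHom.id_apply, Finset.smul_sum]
        refine Finset.sum_congr rfl fun i _ => ?_
        rw [← mul_smul]
        rfl }
  have hev : ∀ (F : Fin n → QD K A) (y : A), ev (∑ i, F i) y = ∑ i, ev (F i) y := by
    intro F y
    let evL : QD K A →+ K := AddMonoidHom.mk' (fun f => ev f y) (fun f g => ev_add f g y)
    exact map_sum evL F _
  refine Module.Projective.of_split s p (LinearMap.ext fun g => ?_)
  apply qd_ext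
  intro y
  change ev (∑ i, s0 g i • e 1 i) y = ev g y
  rw [hev]
  have h1 : ∀ i, ev (s0 g i • e 1 i) y = ev g (r (Pi.single i (op y • e 1 i))) := by
    intro i
    rw [hs0, ev_op, ev_smul, unop_op]
  rw [Finset.sum_congr rfl fun i _ => h1 i]
  let evg : A →+ K := AddMonoidHom.mk' (fun z => ev g z) (fun z w => ev_add' g z w)
  have h2 : ∑ i, ev g (r (Pi.single i (op y • e 1 i))) =
      ev g (∑ i, r (Pi.single i (op y • e 1 i))) := (map_sum evg _ _).symm
  rw [h2, ← map_sum]
  have h3 : ∑ i, (Pi.single i (op y • e 1 i) : Fin n → QD K A) = e y := by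
    rw [Finset.univ_sum_single (fun i => op y • e 1 i)]
    have h4 : e y = op y • e 1 := by
      rw [← map_smul]
      congr 1
      change y = 1 * y
      rw [one_mul]
    rw [h4]
    rfl
  rw [h3]
  have h5 : r (e y) = y := hr y
  rw [h5]

theorem injective_of_linearEquiv {R : Type} [Ring R] {M N : Type} [AddCommGroup M]
    [AddCommGroup N] [Module R M] [Module R N] (e : M ≃ₗ[R] N) (h : Module.Injective R M) :
    Module.Injective R N :=
  inj_of_retract e.symm.toLinearMap e.toLinearMap (LinearMap.ext fun x => e.apply_symm_apply x) h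

variable (K) in
include K in
/-- left self-injective implies right self-injective -/
theorem inj_op_of_inj (hA : Module.Injective A A) : Module.Injective Aᵐᵒᵖ A := by
  have hfin : Module.Finite K Aᵐᵒᵖ := Module.Finite.equiv (MulOpposite.opLinearEquiv K)
  obtain ⟨h1, h2⟩ := center_artin K Aᵐᵒᵖ
  have h3 : Module.Injective Aᵐᵒᵖ Aᵐᵒᵖ :=
    selfinjective_of_projective (R := Aᵐᵒᵖ) (ModuleCat.of Aᵐᵒᵖ (QD K A)) qd_finite_op
      qd_injective_op (fun M hM => qd_embedding_op M) (dual_proj_op hA)
  exact injective_of_linearEquiv opReg h3

variable (K) in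
/-- left self-injective implies left projective dual -/
theorem dual_proj_of_inj (hA : Module.Injective A A) : Module.Projective A (QD K A) :=
  dual_proj (inj_op_of_inj K hA)

variable (K) in
include K in
/-- finitely generated modules are torsionless -/
theorem torsionless_of_inj (hA : Module.Injective A A) (M : Type) [AddCommGroup M] [Module A M]
    [Module.Finite A M] (m : M) (hm : ∀ f : M →ₗ[A] A, f m = 0) : m = 0 := by
  have hp := dual_proj_of_inj K hA
  have hf : Module.Finite A (QD K A) := qd_finite
  obtain ⟨n, e, he⟩ := qd_embedding (k := K) (A := A) M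
  obtain ⟨k, p, hp'⟩ := Module.Finite.exists_fin' A (QD K A)
  obtain ⟨s, hs⟩ := Module.projective_lifting_property p LinearMap.id hp'
  apply he
  rw [map_zero]
  funext i
  have hsi : Function.Injective s := by
    intro a b hab
    have h1 : p (s a) = a := LinearMap.congr_fun hs a
    have h2 : p (s b) = b := LinearMap.congr_fun hs b
    rw [← h1, hab, h2]
  apply hsi
  rw [Pi.zero_apply, map_zero]
  funext j
  exact hm ((LinearMap.proj j) ∘ₗ s ∘ₗ (LinearMap.proj i) ∘ₗ e)

end Dual

end Run7.h692
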