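import Mathlib

set_option autoImplicit false
set_option linter.unusedSectionVars false

namespace Run7.h692

section Deg

variable {L : Type} [Field L]

/-- a degree function for a unit of infinite order -/
theorem exists_deg (u : Lˣ) (hu : ∀ k : ℤ, u ^ k = 1 → k = 0) :
    ∃ g : L → ℤ, ∀ μ : L, μ ≠ 0 → g (u * μ) = g μ + 1 := by
  classical
  let Q := Lˣ ⧸ Subgroup.zpowers u
  have h1 : ∀ y : Lˣ, ∃ k : ℤ, u ^ k = (Quotient.out (QuotientGroup.mk y : Q))⁻¹ * y := by
    intro y
    have h2 : (QuotientGroup.mk (Quotient.out (QuotientGroup.mk y : Q)) : Q) =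
        QuotientGroup.mk y := Quotient.out_eq' _
    rw [QuotientGroup.eq] at h2
    obtain ⟨k, hk⟩ := h2
    exact ⟨k, hk⟩
  choose g hg using h1
  have h3 : ∀ y : Lˣ, g (u * y) = g y + 1 := by
    intro y
    have h4 : (QuotientGroup.mk (u * y) : Q) = QuotientGroup.mk y := by
      rw [QuotientGroup.eq]
      refine ⟨-1, ?_⟩
      change u ^ (-1 : ℤ) = _
      rw [zpow_neg_one, mul_inv_rev, mul_comm y⁻¹, mul_assoc, inv_mul_cancel, mul_one]
    have h5 := hg (u * y)
    rw [h4] at h5
    have h6 : u ^ (g (u * y) - (g y + 1)) = 1 := by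
      rw [zpow_sub, h5, zpow_add, hg y, zpow_one]
      rw [mul_comm u y, ← mul_assoc, mul_inv_cancel]
    have := hu _ h6
    omega
  refine ⟨fun μ => if h : μ = 0 then 0 else g (Units.mk0 μ h), fun μ hμ => ?_⟩
  have h7 : (u : L) * μ ≠ 0 := mul_ne_zero u.ne_zero hμ
  beta_reduce
  rw [dif_neg hμ, dif_neg h7, ← h3]
  congr 1
  apply Units.ext
  rfl

end Deg

section OnePar

variable {L : Type} [Field L] [IsAlgClosed L] {V : Type} [AddCommGroup V] [Module L V]
  [FiniteDimensional L V]

theorem ext_gen (f : Module.End L V) {S T : V →ₗ[L] V}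
    (h : ∀ μ, ∀ w ∈ f.maxGenEigenspace μ, S w = T w) : S = T := by
  have h1 : (⊤ : Submodule L V) ≤ LinearMap.eqLocus S T := by
    rw [← Module.End.iSup_maxGenEigenspace_eq_top f]
    exact iSup_le fun μ w hw => h μ w hw
  exact LinearMap.ext fun w => h1 (Submodule.mem_top : w ∈ ⊤)

theorem exists_scal (f : Module.End L V) (c : L → L) :
    ∃ T : Module.End L V, ∀ μ, ∀ w ∈ f.maxGenEigenspace μ, T w = c μ • w := by
  classical
  have hind : DirectSum.IsInternal f.maxGenEigenspace := by
    rw [DirectSum.isInternal_submodule_iff_iSupIndep_and_iSup_eq_top]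
    exact ⟨Module.End.independent_maxGenEigenspace f, Module.End.iSup_maxGenEigenspace_eq_top f⟩
  let e := LinearEquiv.ofBijective (DirectSum.coeLinearMap f.maxGenEigenspace) hind
  let T0 : (DirectSum L fun μ => f.maxGenEigenspace μ) →ₗ[L] V :=
    DirectSum.toModule L L V (fun μ => c μ • (f.maxGenEigenspace μ).subtype)
  refine ⟨T0 ∘ₗ e.symm.toLinearMap, fun μ w hw => ?_⟩
  have h1 : e.symm w = DirectSum.lof L L (fun μ => f.maxGenEigenspace μ) μ ⟨w, hw⟩ := by
    rw [LinearEquiv.symm_apply_eq]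
    exact (DirectSum.coeLinearMap_lof f.maxGenEigenspace μ ⟨w, hw⟩).symm
  change T0 (e.symm w) = _
  rw [h1, DirectSum.toModule_lof]
  rfl

theorem shift_mem (f Y : Module.End L V) (u : Lˣ) (hY : f * Y = (u : L) • (Y * f)) (μ : L)
    (w : V) (hw : w ∈ f.maxGenEigenspace μ) : Y w ∈ f.maxGenEigenspace (u * μ) := by
  rw [Module.End.mem_maxGenEigenspace] at hw ⊢
  obtain ⟨k, hk⟩ := hw
  refine ⟨k, ?_⟩
  have h1 : (f - (u * μ : L) • (1 : Module.End L V)) * Y =
      (u : L) • (Y * (f - μ • (1 : Module.End L V))) := by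
    rw [sub_mul, hY, mul_sub, smul_sub, smul_mul_assoc, one_mul, mul_smul_comm, mul_one, smul_smul]
  have h2 : ∀ k : ℕ, (f - (u * μ : L) • (1 : Module.End L V)) ^ k * Y =
      (u : L) ^ k • (Y * (f - μ • (1 : Module.End L V)) ^ k) := by
    intro k
    induction k with
    | zero => simp
    | succ k ih =>
      rw [pow_succ', mul_assoc, ih, mul_smul_comm, ← mul_assoc, h1, smul_mul_assoc, smul_smul,
        mul_assoc, ← pow_succ', ← pow_succ]
  have h3 := LinearMap.congr_fun (h2 k) w
  change ((f - (u * μ : L) • (1 : Module.End L V)) ^ k) (Y w) = _ at h3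
  rw [h3]
  change (u : L) ^ k • Y (((f - μ • (1 : Module.End L V)) ^ k) w) = 0
  rw [hk, map_zero, smul_zero]

/-- the one-parameter group -/
theorem exists_onePar (f : Module.End L V) (hf : Function.Injective f) (u : Lˣ)
    (hu : ∀ k : ℤ, u ^ k = 1 → k = 0) (v : Lˣ) : ∃ T T' : Module.End L V,
    T * T' = 1 ∧ T' * T = 1 ∧
    (∀ Y : Module.End L V, f * Y = (u : L) • (Y * f) → T * Y = (v : L) • (Y * T)) ∧
    (∀ Z : Module.End L V, f * Z = Z * f → T * Z = Z * T) := by
  obtain ⟨g, hg⟩ := exists_deg u hu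
  obtain ⟨T, hT⟩ := exists_scal f (fun μ => ((v ^ g μ : Lˣ) : L))
  obtain ⟨T', hT'⟩ := exists_scal f (fun μ => ((v ^ (- g μ) : Lˣ) : L))
  refine ⟨T, T', ?_, ?_, ?_, ?_⟩
  · apply ext_gen f
    intro μ w hw
    change T (T' w) = w
    rw [hT' μ w hw, map_smul, hT μ w hw, smul_smul, ← Units.val_mul, ← zpow_add]
    simp
  · apply ext_gen f
    intro μ w hw
    change T' (T w) = w
    rw [hT μ w hw, map_smul, hT' μ w hw, smul_smul, ← Units.val_mul, ← zpow_add]
    simp
  · intro Y hY
    apply ext_gen f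
    intro μ w hw
    by_cases hμ : μ = 0
    · have hw0 : w = 0 := by
        rw [Module.End.mem_maxGenEigenspace, hμ] at hw
        obtain ⟨k, hk⟩ := hw
        rw [zero_smul, sub_zero] at hk
        have hfk : Function.Injective (f ^ k) := by
          rw [Module.End.coe_pow]
          exact hf.iterate k
        exact hfk (hk.trans (map_zero _).symm)
      rw [hw0, map_zero, map_zero]
    · change T (Y w) = (v : L) • Y (T w)
      rw [hT _ _ (shift_mem f Y u hY μ w hw), hT μ w hw, hg μ hμ, map_smul, smul_smul, zpow_add,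
        zpow_one, Units.val_mul, mul_comm]
  · intro Z hZ
    apply ext_gen f
    intro μ w hw
    change T (Z w) = Z (T w)
    have h1 : Z w ∈ f.maxGenEigenspace μ := by
      have h2 := shift_mem f Z 1 (by rw [Units.val_one, one_smul]; exact hZ) μ w hw
      rwa [Units.val_one, one_mul] at h2
    rw [hT _ _ h1, hT μ w hw, map_smul]

end OnePar

end Run7.h692
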