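import Pool.Agent.Run7.h692.Torus

set_option autoImplicit false
set_option linter.unusedSectionVars false

namespace Run7.h692

/-- an algebraically closed field containing the power series over `K` -/
abbrev LL (K : Type) [Field K] : Type := AlgebraicClosure (FractionRing (PowerSeries K))

section

variable {K : Type} [Field K]

theorem ps_inj : Function.Injective (algebraMap (PowerSeries K) (LL K)) := by
  rw [IsScalarTower.algebraMap_eq (PowerSeries K) (FractionRing (PowerSeries K)) (LL K)]
  exact (RingHom.injective (algebraMap (FractionRing (PowerSeries K)) (LL K))).comp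
    (IsFractionRing.injective (PowerSeries K) (FractionRing (PowerSeries K)))

theorem one_add_X_pow (k : ℕ) (h : (1 + PowerSeries.X : PowerSeries K) ^ k = 1) : k = 0 := by
  have h1 : ((1 + Polynomial.X : Polynomial K) ^ k) = 1 := by
    apply Polynomial.coe_injective K
    rw [Polynomial.coe_pow, Polynomial.coe_add, Polynomial.coe_X, Polynomial.coe_one]
    exact h
  have h2 := congrArg Polynomial.natDegree h1
  rw [Polynomial.natDegree_pow, Polynomial.natDegree_one] at h2
  have h3 : (1 + Polynomial.X : Polynomial K).natDegree = 1 := by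
    rw [add_comm, ← Polynomial.C_1]
    exact Polynomial.natDegree_X_add_C 1
  rw [h3, mul_one] at h2
  exact h2

/-- the unit `1 + t` of `L` -/
theorem exists_unit : ∃ u : (LL K)ˣ, (u : LL K) = algebraMap (PowerSeries K) (LL K)
    (1 + PowerSeries.X) ∧ ∀ k : ℤ, u ^ k = 1 → k = 0 := by
  have h0 : algebraMap (PowerSeries K) (LL K) (1 + PowerSeries.X) ≠ 0 := by
    rw [Ne, map_eq_zero_iff _ ps_inj]
    intro h
    have := congrArg (PowerSeries.coeff 0) h
    simp at this
  have hnat : ∀ k : ℕ, (Units.mk0 _ h0) ^ k = 1 → k = 0 := by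
    intro k hk
    apply one_add_X_pow (K := K)
    apply ps_inj
    rw [map_pow, map_one]
    have := congrArg Units.val hk
    rw [Units.val_pow_eq_pow_val] at this
    exact this
  refine ⟨Units.mk0 _ h0, rfl, fun k hk => ?_⟩
  obtain ⟨m, rfl | rfl⟩ := Int.eq_nat_or_neg k
  · rw [zpow_natCast] at hk
    rw [hnat m hk]; rfl
  · rw [zpow_neg, zpow_natCast, inv_eq_one] at hk
    rw [hnat m hk]; rfl

theorem C_tower (c : K) : algebraMap (PowerSeries K) (LL K) (PowerSeries.C c) =
    algebraMap K (LL K) c := by
  rw [IsScalarTower.algebraMap_apply K (PowerSeries K) (LL K)]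
  rfl

variable {m : ℕ} {n : ℕ}

theorem matrix_step (X : Fin n → Matrix (Fin m) (Fin m) K) (i : Fin n)
    (Φ : ℕ → Matrix (Fin m) (Fin m) K) (h0 : Φ 0 = 1)
    (hi : ∀ k, Φ (k + 1) * X i = X i * (Φ (k + 1) + Φ k))
    (hl : ∀ k l, l ≠ i → Φ k * X l = X l * Φ k) (v : K) (hv : v ≠ 0) :
    ∃ T T' : Matrix (Fin m) (Fin m) (LL K), T * T' = 1 ∧ T' * T = 1 ∧
      (T * (X i).map (algebraMap K (LL K)) =
        (algebraMap K (LL K) v) • ((X i).map (algebraMap K (LL K)) * T)) ∧
      (∀ l, l ≠ i → T * (X l).map (algebraMap K (LL K)) = (X l).map (algebraMap K (LL K)) * T) := by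
  classical
  let φ : Matrix (Fin m) (Fin m) (PowerSeries K) :=
    Matrix.of fun r s => PowerSeries.mk fun k => Φ k r s
  have hφ : ∀ r s k, PowerSeries.coeff k (φ r s) = Φ k r s := by
    intro r s k
    change PowerSeries.coeff k (PowerSeries.mk fun k => Φ k r s) = _
    rw [PowerSeries.coeff_mk]
  have hl' : ∀ l, l ≠ i → φ * (X l).map PowerSeries.C = (X l).map PowerSeries.C * φ := by
    intro l hli
    ext r s k
    rw [Matrix.mul_apply, Matrix.mul_apply, map_sum, map_sum]
    have h1 : (Φ k * X l) r s = (X l * Φ k) r s := by rw [hl k l hli]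
    rw [Matrix.mul_apply, Matrix.mul_apply] at h1
    simp only [Matrix.map_apply, PowerSeries.coeff_mul_C, PowerSeries.coeff_C_mul, hφ]
    exact h1
  have hi' : φ * (X i).map PowerSeries.C =
      (1 + PowerSeries.X : PowerSeries K) • ((X i).map PowerSeries.C * φ) := by
    ext r s k
    rw [Matrix.smul_apply, Matrix.mul_apply, Matrix.mul_apply, smul_eq_mul, add_mul, one_mul,
      map_add, map_sum, map_sum]
    cases k with
    | zero =>
      rw [PowerSeries.coeff_zero_X_mul, add_zero]
      simp only [Matrix.map_apply, PowerSeries.coeff_mul_C, PowerSeries.coeff_C_mul, hφ]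
      have h1 : (Φ 0 * X i) r s = (X i * Φ 0) r s := by rw [h0, one_mul, mul_one]
      rw [Matrix.mul_apply, Matrix.mul_apply] at h1
      exact h1
    | succ k =>
      rw [PowerSeries.coeff_succ_X_mul, map_sum]
      simp only [Matrix.map_apply, PowerSeries.coeff_mul_C, PowerSeries.coeff_C_mul, hφ]
      have h1 : (Φ (k + 1) * X i) r s = (X i * (Φ (k + 1) + Φ k)) r s := by rw [hi k]
      rw [mul_add, Matrix.add_apply, Matrix.mul_apply, Matrix.mul_apply, Matrix.mul_apply] at h1
      exact h1
  have hunit : IsUnit φ := by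
    rw [Matrix.isUnit_iff_isUnit_det, PowerSeries.isUnit_iff_constantCoeff]
    rw [RingHom.map_det]
    have h1 : (PowerSeries.constantCoeff (R := K)).mapMatrix φ = 1 := by
      rw [← h0]
      ext r s
      rw [RingHom.mapMatrix_apply, Matrix.map_apply, ← PowerSeries.coeff_zero_eq_constantCoeff_apply,
        hφ]
    rw [h1, Matrix.det_one]
    exact isUnit_one
  let Ψ := φ.map (algebraMap (PowerSeries K) (LL K))
  have hΨu : IsUnit Ψ := by
    have := hunit.map (algebraMap (PowerSeries K) (LL K)).mapMatrix
    exact this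
  have hC : ∀ l, ((X l).map PowerSeries.C).map (algebraMap (PowerSeries K) (LL K)) =
      (X l).map (algebraMap K (LL K)) := by
    intro l
    ext r s
    rw [Matrix.map_apply, Matrix.map_apply, Matrix.map_apply, C_tower]
  have hΨl : ∀ l, l ≠ i → Ψ * (X l).map (algebraMap K (LL K)) =
      (X l).map (algebraMap K (LL K)) * Ψ := by
    intro l hli
    have := congrArg (fun M => M.map (algebraMap (PowerSeries K) (LL K))) (hl' l hli)
    simp only [Matrix.map_mul, hC] at this
    exact this
  obtain ⟨u, hu, hu2⟩ := exists_unit (K := K)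
  have hΨi : Ψ * (X i).map (algebraMap K (LL K)) =
      (u : LL K) • ((X i).map (algebraMap K (LL K)) * Ψ) := by
    have h1 := congrArg (fun M => M.map (algebraMap (PowerSeries K) (LL K))) hi'
    have h2 : ((1 + PowerSeries.X : PowerSeries K) • ((X i).map PowerSeries.C * φ)).map
        (algebraMap (PowerSeries K) (LL K)) = (u : LL K) • (((X i).map PowerSeries.C * φ).map
        (algebraMap (PowerSeries K) (LL K))) := by
      ext r s
      rw [Matrix.map_apply, Matrix.smul_apply, Matrix.smul_apply, Matrix.map_apply, smul_eq_mul,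
        smul_eq_mul, map_mul, hu]
    simp only [h2] at h1
    simp only [Matrix.map_mul, hC] at h1
    exact h1
  let e := Matrix.toLinAlgEquiv' (R := LL K) (n := Fin m)
  have hinj : Function.Injective (e Ψ) := by
    have h1 : IsUnit (e Ψ) := hΨu.map e
    exact ((Module.End.isUnit_iff _).mp h1).1
  obtain ⟨T, T', hT1, hT2, hTi, hTl⟩ := exists_onePar (e Ψ) hinj u hu2
    (Units.mk0 (algebraMap K (LL K) v) (by rw [Ne, map_eq_zero]; exact hv))
  refine ⟨e.symm T, e.symm T', ?_, ?_, ?_, ?_⟩
  · rw [← map_mul, hT1, map_one]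
  · rw [← map_mul, hT2, map_one]
  · apply e.injective
    rw [map_mul, AlgEquiv.apply_symm_apply, hTi, map_smul, map_mul, AlgEquiv.apply_symm_apply]
    · rfl
    · rw [← map_mul, hΨi, map_smul, map_mul]
  · intro l hli
    apply e.injective
    rw [map_mul, AlgEquiv.apply_symm_apply, hTl, map_mul, AlgEquiv.apply_symm_apply]
    rw [← map_mul, hΨl l hli, map_mul]

end

end Run7.h692
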