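import Pool.Agent.Run7.h692.Torus2

set_option autoImplicit false
set_option linter.unusedSectionVars false

namespace Run7.h692

section

variable {K : Type} [Field K] {m n : ℕ}

theorem matrix_torus (X : Fin n → Matrix (Fin m) (Fin m) K)
    (H : ∀ i : Fin n, ∃ Φ : ℕ → Matrix (Fin m) (Fin m) K, Φ 0 = 1 ∧
      (∀ k, Φ (k + 1) * X i = X i * (Φ (k + 1) + Φ k)) ∧
      (∀ k l, l ≠ i → Φ k * X l = X l * Φ k)) (w : Fin n → K) (hw : ∀ k, w k ≠ 0) :
    ∃ T T' : Matrix (Fin m) (Fin m) (LL K), T * T' = 1 ∧ T' * T = 1 ∧
      ∀ k, T * (X k).map (algebraMap K (LL K)) =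
        (algebraMap K (LL K) (w k)) • ((X k).map (algebraMap K (LL K)) * T) := by
  classical
  have key : ∀ s : Finset (Fin n), ∃ T T' : Matrix (Fin m) (Fin m) (LL K),
      T * T' = 1 ∧ T' * T = 1 ∧ ∀ k, T * (X k).map (algebraMap K (LL K)) =
        (if k ∈ s then algebraMap K (LL K) (w k) else 1) •
          ((X k).map (algebraMap K (LL K)) * T) := by
    intro s
    induction s using Finset.induction_on with
    | empty =>
      refine ⟨1, 1, one_mul 1, one_mul 1, fun k => ?_⟩
      rw [if_neg (Finset.notMem_empty k), one_smul, one_mul, mul_one]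
    | insert i s hi ih =>
      obtain ⟨T, T', h1, h2, h3⟩ := ih
      obtain ⟨Φ, hΦ0, hΦi, hΦl⟩ := H i
      obtain ⟨U, U', g1, g2, g3, g4⟩ := matrix_step X i Φ hΦ0 hΦi hΦl (w i) (hw i)
      refine ⟨U * T, T' * U', ?_, ?_, fun k => ?_⟩
      · rw [mul_assoc, ← mul_assoc T, h1, one_mul, g1]
      · rw [mul_assoc, ← mul_assoc U', g2, one_mul, h2]
      · rw [mul_assoc, h3 k]
        by_cases hki : k = i
        · subst hki
          rw [if_neg hi, if_pos (Finset.mem_insert_self k s), one_smul, ← mul_assoc, g3,
            smul_mul_assoc, mul_assoc]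
        · rw [mul_smul_comm, ← mul_assoc, g4 k hki, mul_assoc]
          by_cases hks : k ∈ s
          · rw [if_pos hks, if_pos (Finset.mem_insert_of_mem hks)]
          · rw [if_neg hks, if_neg (by rw [Finset.mem_insert, not_or]; exact ⟨hki, hks⟩)]
  obtain ⟨T, T', h1, h2, h3⟩ := key Finset.univ
  refine ⟨T, T', h1, h2, fun k => ?_⟩
  rw [h3 k, if_pos (Finset.mem_univ k)]

/-- descent to the ground field -/
theorem matrix_descent (X : Fin n → Matrix (Fin m) (Fin m) K) (w : Fin n → K)
    (T T' : Matrix (Fin m) (Fin m) (LL K)) (h1 : T * T' = 1) (h2 : T' * T = 1)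
    (h3 : ∀ k, T * (X k).map (algebraMap K (LL K)) =
        (algebraMap K (LL K) (w k)) • ((X k).map (algebraMap K (LL K)) * T)) :
    ∃ (σ : Type) (S : Finset σ) (P Q : σ → Matrix (Fin m) (Fin m) K),
      (∀ s k, P s * X k = w k • (X k * P s)) ∧ (∀ s k, w k • (Q s * X k) = X k * Q s) ∧
      ∑ s ∈ S, Q s * P s = 1 := by
  classical
  let b := Module.Basis.ofVectorSpace K (LL K)
  obtain ⟨p, hp⟩ := (Algebra.linearMap K (LL K)).exists_leftInverse_of_injective
    (LinearMap.ker_eq_bot.mpr (algebraMap K (LL K)).injective)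
  have hp1 : ∀ c : K, p (algebraMap K (LL K) c) = c := fun c => LinearMap.congr_fun hp c
  have h4 : ∀ k, (algebraMap K (LL K) (w k)) • (T' * (X k).map (algebraMap K (LL K))) =
      (X k).map (algebraMap K (LL K)) * T' := by
    intro k
    have h5 : T' * (T * (X k).map (algebraMap K (LL K))) * T' =
        (X k).map (algebraMap K (LL K)) * T' := by
      rw [← mul_assoc, h2, one_mul]
    rw [← h5, h3 k, mul_smul_comm, smul_mul_assoc, mul_assoc, mul_assoc, h1, mul_one]
  refine ⟨_, Finset.univ.biUnion fun i => Finset.univ.biUnion fun j => (b.repr (T i j)).support,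
    fun s => Matrix.of fun i j => b.repr (T i j) s,
    fun s => Matrix.of fun i j => p (b s * T' i j), ?_, ?_, ?_⟩
  · intro s k
    ext i j
    rw [Matrix.mul_apply, Matrix.smul_apply, Matrix.mul_apply]
    have h6 := congrArg (fun M => b.repr (M i j) s) (h3 k)
    simp only [Matrix.smul_apply, Matrix.mul_apply, Matrix.map_apply, map_sum,
      Finsupp.coe_finsetSum, Finset.sum_apply] at h6
    have h7 : ∀ r, b.repr (T i r * algebraMap K (LL K) (X k r j)) s =
        b.repr (T i r) s * X k r j := by
      intro r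
      rw [mul_comm, ← Algebra.smul_def, map_smul, Finsupp.smul_apply, smul_eq_mul, mul_comm]
    have h8 : b.repr (algebraMap K (LL K) (w k) •
        ∑ r, algebraMap K (LL K) (X k i r) * T r j) s = w k • ∑ r, X k i r * b.repr (T r j) s := by
      rw [smul_eq_mul, ← Algebra.smul_def, map_smul, Finsupp.smul_apply, map_sum,
        Finsupp.coe_finsetSum, Finset.sum_apply]
      congr 1
      refine Finset.sum_congr rfl fun r _ => ?_
      rw [← Algebra.smul_def, map_smul, Finsupp.smul_apply, smul_eq_mul]
    rw [h8] at h6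
    simp only [h7] at h6
    exact h6
  · intro s k
    ext i j
    rw [Matrix.smul_apply, Matrix.mul_apply, Matrix.mul_apply]
    have h6 := congrArg (fun M => p (b s * M i j)) (h4 k)
    simp only [Matrix.smul_apply, Matrix.mul_apply, Matrix.map_apply] at h6
    have h7 : p (b s * (algebraMap K (LL K) (w k) •
        ∑ r, T' i r * algebraMap K (LL K) (X k r j))) = w k • ∑ r, p (b s * T' i r) * X k r j := by
      rw [smul_eq_mul, ← Algebra.smul_def, mul_smul_comm, map_smul, Finset.mul_sum, map_sum]
      congr 1
      refine Finset.sum_congr rfl fun r _ => ?_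
      rw [← mul_assoc, mul_comm _ (algebraMap K (LL K) (X k r j)), ← Algebra.smul_def, map_smul,
        smul_eq_mul, mul_comm]
    have h8 : p (b s * ∑ r, algebraMap K (LL K) (X k i r) * T' r j) =
        ∑ r, X k i r * p (b s * T' r j) := by
      rw [Finset.mul_sum, map_sum]
      refine Finset.sum_congr rfl fun r _ => ?_
      rw [← Algebra.smul_def, mul_smul_comm, map_smul, smul_eq_mul]
    rw [h7, h8] at h6
    exact h6
  · ext i j
    rw [Matrix.sum_apply]
    simp only [Matrix.mul_apply, Matrix.of_apply]
    rw [Finset.sum_comm]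
    have h5 : ∀ r, ∑ s ∈ (Finset.univ.biUnion fun i => Finset.univ.biUnion fun j =>
        (b.repr (T i j)).support), p (b s * T' i r) * b.repr (T r j) s = p (T' i r * T r j) := by
      intro r
      have h6 : T r j = ∑ s ∈ (Finset.univ.biUnion fun i => Finset.univ.biUnion fun j =>
          (b.repr (T i j)).support), b.repr (T r j) s • b s := by
        conv_lhs => rw [← b.linearCombination_repr (T r j)]
        rw [Finsupp.linearCombination_apply, Finsupp.sum]
        apply Finset.sum_subset
        · intro s hs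
          rw [Finset.mem_biUnion]
          refine ⟨r, Finset.mem_univ _, ?_⟩
          rw [Finset.mem_biUnion]
          exact ⟨j, Finset.mem_univ _, hs⟩
        · intro s _ hs
          rw [Finsupp.notMem_support_iff] at hs
          rw [hs, zero_smul]
      conv_rhs => rw [h6]
      rw [Finset.mul_sum, map_sum]
      refine Finset.sum_congr rfl fun s _ => ?_
      rw [mul_smul_comm, map_smul, smul_eq_mul, mul_comm, mul_comm (b s)]
    rw [Finset.sum_congr rfl fun r _ => h5 r, ← map_sum]
    have h7 : ∑ r, T' i r * T r j = (T' * T) i j := (Matrix.mul_apply).symm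
    rw [h7, h2, Matrix.one_apply, Matrix.one_apply]
    split_ifs with hij
    · have := hp1 1
      rwa [map_one] at this
    · exact map_zero p

end

end Run7.h692
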