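import Pool.Agent.Run7.h692.HomBimod
import Pool.Agent.Helper426_Tach.ExtS
import Pool.Agent.Helper426_GSC.Bimod

set_option autoImplicit false
open scoped TensorProduct
open CategoryTheory MulOpposite Pool.Agent.Helper426Tach Pool.Agent.Helper426GSC

namespace Run7.h692

section QDK

variable (K A : Type) [Field K] [Ring A] [Algebra K A]

noncomputable instance : Module K (QD K A) := inferInstanceAs (Module K (A →ₗ[K] K))

theorem ev_smulK (c : K) (f : QD K A) (x : A) : ev (c • f) x = c * ev f x := rfl

instance : IsScalarTower K A (QD K A) := ⟨fun c a f => by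
  apply qd_ext
  intro x
  rw [ev_smul, ev_smulK, ev_smul, mul_smul_comm]
  exact ev_smul' f c (x * a)⟩

end QDK

section base

variable {K A : Type} [Field K] [Ring A] [Algebra K A]

/-- the map `A ⊗ Aᵐᵒᵖ → Hom_K(D(A), A)`, `a ⊗ b ↦ (f ↦ f(b) a)`, as an additive map -/
noncomputable def baseFun : A ⊗[K] Aᵐᵒᵖ →ₗ[K] (QD K A →ₗ[K] A) :=
  TensorProduct.lift
    (LinearMap.mk₂ K (fun (a : A) (b : Aᵐᵒᵖ) =>
      ({ toFun := fun f => ev f (unop b) • a
         map_add' := fun f g => by rw [ev_add, add_smul]
         map_smul' := fun c f => by rw [ev_smulK, mul_smul]; rfl } : QD K A →ₗ[K] A))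
      (fun a a' b => by
        ext f
        change ev f (unop b) • (a + a') = ev f (unop b) • a + ev f (unop b) • a'
        rw [smul_add])
      (fun c a b => by
        ext f
        change ev f (unop b) • (c • a) = c • (ev f (unop b) • a)
        rw [smul_comm])
      (fun a b b' => by
        ext f
        change ev f (unop b + unop b') • a = ev f (unop b) • a + ev f (unop b') • a
        rw [ev_add', add_smul])
      (fun c a b => by
        ext f
        change ev f (c • unop b) • a = c • (ev f (unop b) • a)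
        rw [ev_smul', mul_smul]))

theorem baseFun_tmul (a : A) (b : Aᵐᵒᵖ) (f : QD K A) :
    baseFun (a ⊗ₜ[K] b) f = ev f (unop b) • a := rfl

variable [FiniteDimensional K A]

theorem baseFun_bij : Function.Bijective (baseFun (K := K) (A := A)) := by
  let e1 : Aᵐᵒᵖ ≃ₗ[K] Module.Dual K (Module.Dual K A) :=
    (MulOpposite.opLinearEquiv K).symm ≪≫ₗ Module.evalEquiv K A
  let e : A ⊗[K] Aᵐᵒᵖ ≃ₗ[K] (QD K A →ₗ[K] A) :=
    (TensorProduct.comm K A Aᵐᵒᵖ) ≪≫ₗ (TensorProduct.congr e1 (LinearEquiv.refl K A)) ≪≫ₗ
      dualTensorHomEquiv K (Module.Dual K A) A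
  have h : (baseFun (K := K) (A := A)) = e.toLinearMap := by
    apply TensorProduct.ext'
    intro a b
    apply LinearMap.ext
    intro f
    rfl
  rw [h]
  exact e.bijective

end base

end Run7.h692
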