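import Pool.Agent.Run7.h692.Van

set_option autoImplicit false
open scoped TensorProduct
open CategoryTheory MulOpposite Pool.Agent.Helper426Tach Pool.Agent.Helper426GSC

namespace Run7.h692

section base

variable {K A : Type} [Field K] [Ring A] [Algebra K A]

/-- `baseFun` is linear over the enveloping algebra -/
noncomputable def baseLin : A ⊗[K] Aᵐᵒᵖ →ₗ[A ⊗[K] Aᵐᵒᵖ] HB K A (QD K A) A :=
  linOfTmul
    { toFun := fun t => HB.mk (baseFun t)
      map_zero' := by
        apply HB.ext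
        intro f
        change baseFun (0 : A ⊗[K] Aᵐᵒᵖ) f = 0
        rw [map_zero]
        rfl
      map_add' := fun s t => by
        apply HB.ext
        intro f
        change baseFun (s + t) f = baseFun s f + baseFun t f
        rw [map_add]
        rfl }
    (fun a b t => by
      apply HB.ext
      intro f
      rw [HB.smul_tmul]
      change baseFun ((a ⊗ₜ[K] b) • t) f = a • baseFun t (unop b • f)
      induction t using TensorProduct.induction_on with
      | zero => rw [smul_zero, map_zero, LinearMap.zero_apply, LinearMap.zero_apply, smul_zero]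
      | tmul x y =>
        rw [smul_eq_mul, Algebra.TensorProduct.tmul_mul_tmul, baseFun_tmul, baseFun_tmul, ev_smul,
          unop_mul, smul_eq_mul, mul_smul_comm]
      | add x y hx hy =>
        rw [smul_add, map_add, map_add, LinearMap.add_apply, LinearMap.add_apply, hx, hy, smul_add])

theorem baseLin_bij [FiniteDimensional K A] : Function.Bijective (baseLin (K := K) (A := A)) := by
  have h := baseFun_bij (K := K) (A := A)
  constructor
  · intro s t hst
    exact h.1 (congrArg HB.ev hst)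
  · intro y
    obtain ⟨t, ht⟩ := h.2 y.ev
    exact ⟨t, congrArg HB.mk ht⟩

end base

section Van

variable {K A : Type} [Field K] [Ring A] [Algebra K A] [Module (A ⊗[K] Aᵐᵒᵖ) A]

/-- vanishing of the positive self-extensions of the bimodule `A` with values in `M` -/
def VanE (K A : Type) [Field K] [Ring A] [Algebra K A] [Module (A ⊗[K] Aᵐᵒᵖ) A]
    (M : Type) [AddCommGroup M] [Module (A ⊗[K] Aᵐᵒᵖ) M] : Prop :=
  ∀ i : ℕ, Subsingleton (Abelian.Ext.{0} (ModuleCat.of (A ⊗[K] Aᵐᵒᵖ) A)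
    (ModuleCat.of (A ⊗[K] Aᵐᵒᵖ) M) (i + 1))

theorem VanE.retract {M N : Type} [AddCommGroup M] [AddCommGroup N] [Module (A ⊗[K] Aᵐᵒᵖ) M]
    [Module (A ⊗[K] Aᵐᵒᵖ) N] (s : N →ₗ[A ⊗[K] Aᵐᵒᵖ] M) (r : M →ₗ[A ⊗[K] Aᵐᵒᵖ] N)
    (hrs : r ∘ₗ s = LinearMap.id) (h : VanE K A M) : VanE K A N := fun i =>
  ez_retract_right (Y := ModuleCat.of (A ⊗[K] Aᵐᵒᵖ) N) (W := ModuleCat.of (A ⊗[K] Aᵐᵒᵖ) M)
    s r hrs (h i)

theorem VanE.pow {M : Type} [AddCommGroup M] [Module (A ⊗[K] Aᵐᵒᵖ) M]
    (h : VanE K A M) (n : ℕ) : VanE K A (Fin n → M) := fun i =>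
  ez_pow_right (Y := ModuleCat.of (A ⊗[K] Aᵐᵒᵖ) M) (h i) n

theorem VanE.cok {M N P : Type} [AddCommGroup M] [AddCommGroup N] [AddCommGroup P]
    [Module (A ⊗[K] Aᵐᵒᵖ) M] [Module (A ⊗[K] Aᵐᵒᵖ) N] [Module (A ⊗[K] Aᵐᵒᵖ) P]
    (f : M →ₗ[A ⊗[K] Aᵐᵒᵖ] N) (g : N →ₗ[A ⊗[K] Aᵐᵒᵖ] P) (hf : Function.Injective f)
    (hfg : Function.Exact f g) (hg : Function.Surjective g) (hM : VanE K A M)
    (hN : VanE K A N) : VanE K A P := fun i =>
  ez_cov3 (A := ModuleCat.of (A ⊗[K] Aᵐᵒᵖ) M) (B := ModuleCat.of (A ⊗[K] Aᵐᵒᵖ) N)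
    (C := ModuleCat.of (A ⊗[K] Aᵐᵒᵖ) P) f g hf hfg hg (hN i) (hM (i + 1))

theorem van_base [FiniteDimensional K A] (h : VanE K A (A ⊗[K] Aᵐᵒᵖ)) :
    VanE K A (HB K A (QD K A) A) := by
  let e := LinearEquiv.ofBijective (baseLin (K := K) (A := A)) baseLin_bij
  refine VanE.retract e.symm.toLinearMap e.toLinearMap ?_ h
  exact LinearMap.ext fun x => e.apply_symm_apply x

end Van

section Bifun

variable {K A : Type} [Field K] [Ring A] [Algebra K A] [Module (A ⊗[K] Aᵐᵒᵖ) A]
variable {Y Y' X X' X'' : Type} [AddCommGroup Y] [AddCommGroup X] [Module A Y] [Module A X]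
  [Module K Y] [Module K X] [IsScalarTower K A Y] [IsScalarTower K A X]
  [AddCommGroup Y'] [AddCommGroup X'] [Module A Y'] [Module A X']
  [Module K Y'] [Module K X'] [IsScalarTower K A Y'] [IsScalarTower K A X']
  [AddCommGroup X''] [Module A X''] [Module K X''] [IsScalarTower K A X'']

theorem van_retract_right (s : X' →ₗ[A] X) (r : X →ₗ[A] X') (hrs : r ∘ₗ s = LinearMap.id)
    (h : VanE K A (HB K A Y X)) : VanE K A (HB K A Y X') := by
  refine VanE.retract (HB.map LinearMap.id s) (HB.map LinearMap.id r) ?_ h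
  refine LinearMap.ext fun x => HB.ext fun y => ?_
  exact LinearMap.congr_fun hrs (x.ev y)

theorem van_retract_left (s : Y' →ₗ[A] Y) (r : Y →ₗ[A] Y') (hrs : r ∘ₗ s = LinearMap.id)
    (h : VanE K A (HB K A Y X)) : VanE K A (HB K A Y' X) := by
  refine VanE.retract (HB.map r LinearMap.id) (HB.map s LinearMap.id) ?_ h
  refine LinearMap.ext fun x => HB.ext fun y => ?_
  exact congrArg x.ev (LinearMap.congr_fun hrs y)

omit [Module (A ⊗[K] Aᵐᵒᵖ) A] in
theorem hb_sum_ev {n : ℕ} (h : Fin n → HB K A Y X) (y : Y) :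
    (∑ i, h i).ev y = ∑ i, (h i).ev y := by
  classical
  induction (Finset.univ : Finset (Fin n)) using Finset.induction_on with
  | empty => rw [Finset.sum_empty, Finset.sum_empty, HB.ev_zero]
  | insert a s ha ih => rw [Finset.sum_insert ha, Finset.sum_insert ha, HB.ev_add, ih]

theorem van_pow_right (h : VanE K A (HB K A Y X)) (n : ℕ) :
    VanE K A (HB K A Y (Fin n → X)) := by
  classical
  let s : HB K A Y (Fin n → X) →ₗ[A ⊗[K] Aᵐᵒᵖ] (Fin n → HB K A Y X) :=
    LinearMap.pi fun i => HB.map LinearMap.id (LinearMap.proj i)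
  let r : (Fin n → HB K A Y X) →ₗ[A ⊗[K] Aᵐᵒᵖ] HB K A Y (Fin n → X) :=
    ∑ i, (HB.map LinearMap.id (LinearMap.single A (fun _ => X) i)) ∘ₗ LinearMap.proj i
  refine VanE.retract s r ?_ (h.pow n)
  refine LinearMap.ext fun x => HB.ext fun y => ?_
  have h1 : r (s x) = ∑ i, (HB.map LinearMap.id (LinearMap.single A (fun _ => X) i)) (s x i) := by
    simp only [r, LinearMap.sum_apply, LinearMap.comp_apply, LinearMap.proj_apply]
  change (r (s x)).ev y = x.ev y
  rw [h1, hb_sum_ev]
  funext j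
  rw [Finset.sum_apply]
  have h2 : ∀ i, ((HB.map LinearMap.id (LinearMap.single A (fun _ => X) i)) (s x i)).ev y j =
      if j = i then x.ev y i else 0 := by
    intro i
    change (Pi.single i (x.ev y i) : Fin n → X) j = _
    rw [Pi.single_apply]
  rw [Finset.sum_congr rfl fun i _ => h2 i, Finset.sum_ite_eq, if_pos (Finset.mem_univ j)]

theorem van_pow_left (h : VanE K A (HB K A Y X)) (n : ℕ) :
    VanE K A (HB K A (Fin n → Y) X) := by
  classical
  let s : HB K A (Fin n → Y) X →ₗ[A ⊗[K] Aᵐᵒᵖ] (Fin n → HB K A Y X) :=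
    LinearMap.pi fun i => HB.map (LinearMap.single A (fun _ => Y) i) LinearMap.id
  let r : (Fin n → HB K A Y X) →ₗ[A ⊗[K] Aᵐᵒᵖ] HB K A (Fin n → Y) X :=
    ∑ i, (HB.map (LinearMap.proj i : (Fin n → Y) →ₗ[A] Y) LinearMap.id) ∘ₗ LinearMap.proj i
  refine VanE.retract s r ?_ (h.pow n)
  refine LinearMap.ext fun x => HB.ext fun y => ?_
  have h1 : r (s x) = ∑ i, (HB.map (LinearMap.proj i : (Fin n → Y) →ₗ[A] Y) LinearMap.id)
      (s x i) := by
    simp only [r, LinearMap.sum_apply, LinearMap.comp_apply, LinearMap.proj_apply]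
  change (r (s x)).ev y = x.ev y
  rw [h1, hb_sum_ev]
  have h2 : ∀ i, ((HB.map (LinearMap.proj i : (Fin n → Y) →ₗ[A] Y) LinearMap.id) (s x i)).ev y =
      x.ev (Pi.single i (y i)) := fun i => rfl
  rw [Finset.sum_congr rfl fun i _ => h2 i, ← map_sum, Finset.univ_sum_single]

theorem van_ses_right (f : X' →ₗ[A] X) (g : X →ₗ[A] X'') (hf : Function.Injective f)
    (hfg : Function.Exact f g) (hg : Function.Surjective g)
    (h1 : VanE K A (HB K A Y X')) (h2 : VanE K A (HB K A Y X)) : VanE K A (HB K A Y X'') := by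
  refine VanE.cok (HB.map LinearMap.id f) (HB.map LinearMap.id g) ?_ ?_ ?_ h1 h2
  · intro u v huv
    refine HB.ext fun y => hf ?_
    exact congrArg (fun z => z.ev y) huv
  · intro u
    constructor
    · intro hu
      have h3 : ∀ y, u.ev y ∈ LinearMap.range (f.restrictScalars K) := by
        intro y
        have h4 : g (u.ev y) = 0 := congrArg (fun z => z.ev y) hu
        obtain ⟨z, hz⟩ := (hfg _).1 h4
        exact ⟨z, hz⟩
      let e := LinearEquiv.ofInjective (f.restrictScalars K) hf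
      refine ⟨HB.mk (e.symm.toLinearMap ∘ₗ LinearMap.codRestrict _ u.ev h3), HB.ext fun y => ?_⟩
      change (f.restrictScalars K) (e.symm (LinearMap.codRestrict _ u.ev h3 y)) = u.ev y
      have h5 := LinearEquiv.ofInjective_symm_apply (h := hf) (f := f.restrictScalars K)
        (LinearMap.codRestrict _ u.ev h3 y)
      exact h5
    · rintro ⟨v, rfl⟩
      refine HB.ext fun y => ?_
      exact hfg.apply_apply_eq_zero (v.ev y)
  · intro v
    obtain ⟨s, hs⟩ := (g.restrictScalars K).exists_rightInverse_of_surjective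
      (LinearMap.range_eq_top.mpr hg)
    refine ⟨HB.mk (s ∘ₗ v.ev), HB.ext fun y => ?_⟩
    exact LinearMap.congr_fun hs (v.ev y)

theorem van_ses_left (f : Y →ₗ[A] Y') (g : Y' →ₗ[A] X) (hf : Function.Injective f)
    (hfg : Function.Exact f g) (hg : Function.Surjective g)
    (h1 : VanE K A (HB K A X X')) (h2 : VanE K A (HB K A Y' X')) : VanE K A (HB K A Y X') := by
  refine VanE.cok (HB.map g LinearMap.id) (HB.map f LinearMap.id) ?_ ?_ ?_ h1 h2
  · intro u v huv
    refine HB.ext fun y => ?_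
    obtain ⟨z, rfl⟩ := hg y
    exact congrArg (fun w => w.ev z) huv
  · intro u
    constructor
    · intro hu
      obtain ⟨s, hs⟩ := (g.restrictScalars K).exists_rightInverse_of_surjective
        (LinearMap.range_eq_top.mpr hg)
      refine ⟨HB.mk (u.ev ∘ₗ s), HB.ext fun y => ?_⟩
      change u.ev (s (g y)) = u.ev y
      have h3 : g (s (g y) - y) = 0 := by
        rw [map_sub, sub_eq_zero]
        exact LinearMap.congr_fun hs (g y)
      obtain ⟨z, hz⟩ := (hfg _).1 h3
      have h4 : u.ev (f z) = 0 := congrArg (fun w => w.ev z) hu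
      rw [hz, map_sub, sub_eq_zero] at h4
      exact h4
    · rintro ⟨v, rfl⟩
      refine HB.ext fun y => ?_
      change v.ev (g (f y)) = 0
      rw [hfg.apply_apply_eq_zero, map_zero]
  · intro v
    obtain ⟨s, hs⟩ := (f.restrictScalars K).exists_leftInverse_of_injective
      (LinearMap.ker_eq_bot.mpr hf)
    refine ⟨HB.mk (v.ev ∘ₗ s), HB.ext fun y => ?_⟩
    exact congrArg v.ev (LinearMap.congr_fun hs y)

end Bifun

end Run7.h692
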