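import Pool.Agent.Run7.h692.Van2

set_option autoImplicit false
open scoped TensorProduct
open CategoryTheory MulOpposite Pool.Agent.Helper426Tach Pool.Agent.Helper426GSC

namespace Run7.h692

section Induct

variable {K A : Type} [Field K] [Ring A] [Algebra K A] [Module (A ⊗[K] Aᵐᵒᵖ) A]
  [FiniteDimensional K A]

/-- finitely generated modules over a finite-dimensional algebra: presentation -/
theorem exists_pres (X : Type) [AddCommGroup X] [Module A X] [Module.Finite A X] :
    ∃ (n : ℕ) (p : (Fin n → A) →ₗ[A] X), Function.Surjective p :=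
  Module.Finite.exists_fin' A X

omit [Module (A ⊗[K] Aᵐᵒᵖ) A] in
variable (K A) in
include K in
theorem isNoeth : IsNoetherianRing A := isNoetherian_of_tower K inferInstance

theorem van_pd (Y : Type) [AddCommGroup Y] [Module A Y] [Module K Y] [IsScalarTower K A Y]
    (hY : VanE K A (HB K A Y A)) (n : ℕ) :
    ∀ (X : Type) [AddCommGroup X] [Module A X] [Module K X] [IsScalarTower K A X]
      [Module.Finite A X], HasProjectiveDimensionLT (ModuleCat.of A X) (n + 1) →
      VanE K A (HB K A Y X) := by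
  have hN : IsNoetherianRing A := isNoeth K A
  induction n with
  | zero =>
    intro X _ _ _ _ _ hX
    obtain ⟨m, p, hp⟩ := exists_pres (A := A) X
    have hpr : Projective (ModuleCat.of A X) := projective_iff_hasProjectiveDimensionLT_one.mpr hX
    have hpr' : Module.Projective A X := (IsProjective.iff_projective X).mpr hpr
    obtain ⟨s, hs⟩ := Module.projective_lifting_property p LinearMap.id hp
    exact van_retract_right s p hs (van_pow_right hY m)
  | succ n ih =>
    intro X _ _ _ _ _ hX
    obtain ⟨m, p, hp⟩ := exists_pres (A := A) X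
    have hex : Function.Exact (LinearMap.ker p).subtype p := LinearMap.exact_subtype_ker_map p
    have hS := sc_shortExact (A := ModuleCat.of A (LinearMap.ker p))
      (B := ModuleCat.of A (Fin m → A)) (C := ModuleCat.of A X)
      (LinearMap.ker p).subtype p (LinearMap.ker p).injective_subtype hex hp
    have hF : Projective (ModuleCat.of A (Fin m → A)) :=
      (IsProjective.iff_projective (Fin m → A)).mp inferInstance
    have hX' : HasProjectiveDimensionLT (ModuleCat.of A (LinearMap.ker p)) (n + 1) :=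
      (hS.hasProjectiveDimensionLT_X₃_iff n hF).mp hX
    exact van_ses_right (LinearMap.ker p).subtype p (LinearMap.ker p).injective_subtype
      hex hp (ih (LinearMap.ker p) hX') (van_pow_right hY m)

theorem van_id (X : Type) [AddCommGroup X] [Module A X] [Module K X] [IsScalarTower K A X]
    (hX : VanE K A (HB K A (QD K A) X)) (n : ℕ) :
    ∀ (Y : Type) [AddCommGroup Y] [Module A Y] [Module K Y] [IsScalarTower K A Y]
      [Module.Finite A Y], HasInjectiveDimensionLT (ModuleCat.of A Y) (n + 1) →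
      VanE K A (HB K A Y X) := by
  have hfQ : Module.Finite A (QD K A) := qd_finite
  induction n with
  | zero =>
    intro Y _ _ _ _ _ hY
    obtain ⟨m, e, he⟩ := qd_embedding (k := K) (A := A) Y
    have hin : Injective (ModuleCat.of A Y) := injective_iff_hasInjectiveDimensionLT_one.mpr hY
    have hin' : Module.Injective A Y := (Module.injective_iff_injective_object A Y).mpr hin
    obtain ⟨r, hr⟩ := hin'.out e he LinearMap.id
    exact van_retract_left e r (LinearMap.ext hr) (van_pow_left hX m)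
  | succ n ih =>
    intro Y _ _ _ _ _ hY
    obtain ⟨m, e, he⟩ := qd_embedding (k := K) (A := A) Y
    have hex : Function.Exact e (LinearMap.range e).mkQ := by
      intro x
      change (LinearMap.range e).mkQ x = 0 ↔ x ∈ LinearMap.range e
      rw [Submodule.mkQ_apply, Submodule.Quotient.mk_eq_zero]
    have hS := sc_shortExact (A := ModuleCat.of A Y) (B := ModuleCat.of A (Fin m → QD K A))
      (C := ModuleCat.of A ((Fin m → QD K A) ⧸ LinearMap.range e))
      e (LinearMap.range e).mkQ he hex (Submodule.mkQ_surjective _)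
    have hQinj : Module.Injective A (QD K A) := qd_injective
    have hF' : Module.Injective A (Fin m → QD K A) := inferInstance
    have hF : Injective (ModuleCat.of A (Fin m → QD K A)) :=
      (Module.injective_iff_injective_object A (Fin m → QD K A)).mp hF'
    have hY' : HasInjectiveDimensionLT
        (ModuleCat.of A ((Fin m → QD K A) ⧸ LinearMap.range e)) (n + 1) :=
      (hS.hasInjectiveDimensionLT_X₃_iff n hF).mpr hY
    exact van_ses_left e (LinearMap.range e).mkQ he hex (Submodule.mkQ_surjective _)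
      (ih _ hY') (van_pow_left hX m)

end Induct

section Split

variable {K A : Type} [Field K] [Ring A] [Algebra K A] [Module (A ⊗[K] Aᵐᵒᵖ) A]
variable {X F : Type} [AddCommGroup X] [AddCommGroup F] [Module A X] [Module A F]
  [Module K X] [Module K F] [IsScalarTower K A X] [IsScalarTower K A F]

theorem smul_idHB (hc : ∀ (a : A) (b : Aᵐᵒᵖ) (x : A), (a ⊗ₜ[K] b) • x = a * x * unop b)
    (l : A ⊗[K] Aᵐᵒᵖ) (x : X) :
    (l • (HB.mk LinearMap.id : HB K A X X)).ev x = (l • (1 : A)) • x := by
  induction l using TensorProduct.induction_on with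
  | zero =>
    have h1 : (0 : A ⊗[K] Aᵐᵒᵖ) • (HB.mk LinearMap.id : HB K A X X) = 0 :=
      zero_smul (A ⊗[K] Aᵐᵒᵖ) (HB.mk LinearMap.id : HB K A X X)
    have h2 : (0 : A ⊗[K] Aᵐᵒᵖ) • (1 : A) = 0 := zero_smul (A ⊗[K] Aᵐᵒᵖ) (1 : A)
    rw [h1, h2, HB.ev_zero, zero_smul]
  | tmul a b =>
    rw [HB.smul_tmul, hc, mul_one, mul_smul]
    rfl
  | add u v hu hv =>
    rw [add_smul, add_smul, HB.ev_add, hu, hv, add_smul]

theorem split_of_van (hc : ∀ (a : A) (b : Aᵐᵒᵖ) (x : A), (a ⊗ₜ[K] b) • x = a * x * unop b)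
    (p : F →ₗ[A] X) (hp : Function.Surjective p)
    (hv : VanE K A (HB K A X (LinearMap.ker p))) : ∃ t : X →ₗ[A] F, p ∘ₗ t = LinearMap.id := by
  obtain ⟨s0, hs0⟩ := (p.restrictScalars K).exists_rightInverse_of_surjective
    (LinearMap.range_eq_top.mpr hp)
  let s : HB K A X F := HB.mk s0
  let μ : A ⊗[K] Aᵐᵒᵖ →ₗ[A ⊗[K] Aᵐᵒᵖ] A := LinearMap.toSpanSingleton (A ⊗[K] Aᵐᵒᵖ) A 1
  have hμ : Function.Surjective μ := by
    intro a
    refine ⟨a ⊗ₜ[K] 1, ?_⟩
    rw [LinearMap.toSpanSingleton_apply, hc, mul_one, unop_one, mul_one]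
  let j : HB K A X (LinearMap.ker p) →ₗ[A ⊗[K] Aᵐᵒᵖ] HB K A X F :=
    HB.map LinearMap.id (LinearMap.ker p).subtype
  have hj : Function.Injective j := by
    intro u v huv
    refine HB.ext fun y => Subtype.ext ?_
    exact congrArg (fun z => z.ev y) huv
  let u : LinearMap.ker μ →ₗ[A ⊗[K] Aᵐᵒᵖ] HB K A X F :=
    (LinearMap.toSpanSingleton (A ⊗[K] Aᵐᵒᵖ) (HB K A X F) s) ∘ₗ (LinearMap.ker μ).subtype
  have hu : ∀ w : LinearMap.ker μ, u w ∈ LinearMap.range j := by
    intro w
    have h1 : ∀ x, p ((u w).ev x) = 0 := by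
      intro x
      have h2 : p ((u w).ev x) =
          (HB.map (LinearMap.id : X →ₗ[A] X) p ((w : A ⊗[K] Aᵐᵒᵖ) • s)).ev x := rfl
      have h3 : HB.map (LinearMap.id : X →ₗ[A] X) p s = HB.mk LinearMap.id :=
        HB.ext fun x => LinearMap.congr_fun hs0 x
      have h4 : (w : A ⊗[K] Aᵐᵒᵖ) • (1 : A) = 0 := w.2
      rw [h2, map_smul, h3, smul_idHB hc, h4, zero_smul]
    refine ⟨HB.mk (LinearMap.codRestrict ((LinearMap.ker p).restrictScalars K) (u w).ev h1), ?_⟩
    exact HB.ext fun x => rfl
  let f : LinearMap.ker μ →ₗ[A ⊗[K] Aᵐᵒᵖ] HB K A X (LinearMap.ker p) :=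
    (LinearEquiv.ofInjective j hj).symm.toLinearMap ∘ₗ LinearMap.codRestrict _ u hu
  have hjf : ∀ w, j (f w) = u w := fun w =>
    LinearEquiv.ofInjective_symm_apply (h := hj) (f := j) (LinearMap.codRestrict _ u hu w)
  have hex : Function.Exact (LinearMap.ker μ).subtype μ := LinearMap.exact_subtype_ker_map μ
  obtain ⟨ψ, hψ⟩ := ext_of_ez (A := ModuleCat.of (A ⊗[K] Aᵐᵒᵖ) (LinearMap.ker μ))
    (B := ModuleCat.of (A ⊗[K] Aᵐᵒᵖ) (A ⊗[K] Aᵐᵒᵖ)) (C := ModuleCat.of (A ⊗[K] Aᵐᵒᵖ) A)
    (Y := ModuleCat.of (A ⊗[K] Aᵐᵒᵖ) (HB K A X (LinearMap.ker p)))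
    (LinearMap.ker μ).subtype μ (LinearMap.ker μ).injective_subtype hex hμ (hv 0) f
  let t : HB K A X F := s - j (ψ 1)
  have ht : ∀ w : A ⊗[K] Aᵐᵒᵖ, w • (1 : A) = 0 → w • t = 0 := by
    intro w hw
    have h1 : w • j (ψ 1) = w • s := by
      have h2 : ψ w = f ⟨w, hw⟩ := LinearMap.congr_fun hψ ⟨w, hw⟩
      have h3 : ψ w = w • ψ 1 := by rw [← map_smul, smul_eq_mul, mul_one]
      have h4 : j (ψ w) = w • s := by rw [h2, hjf]; rfl
      rw [← h4, h3, map_smul]
    rw [smul_sub, h1, sub_self]
  have htl : ∀ (a : A) (x : X), t.ev (a • x) = a • t.ev x := by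
    intro a x
    have h1 : ((a ⊗ₜ[K] (1 : Aᵐᵒᵖ)) - ((1 : A) ⊗ₜ[K] op a)) • (1 : A) = 0 := by
      rw [sub_smul, hc, hc, unop_one, unop_op, mul_one, mul_one, one_mul, one_mul, sub_self]
    have h2 := congrArg (fun z => z.ev x) (ht _ h1)
    have h3 : a • t.ev ((1 : A) • x) - (1 : A) • t.ev (a • x) = 0 := by
      rw [sub_smul] at h2
      have h4 : (((a ⊗ₜ[K] (1 : Aᵐᵒᵖ)) • t) - ((1 : A) ⊗ₜ[K] op a) • t).ev x = 0 := h2
      rw [HB.ev_sub, HB.smul_tmul, HB.smul_tmul, unop_one, unop_op] at h4
      exact h4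
    rw [one_smul, one_smul, sub_eq_zero] at h3
    exact h3.symm
  refine ⟨{ toFun := t.ev
            map_add' := map_add t.ev
            map_smul' := htl }, LinearMap.ext fun x => ?_⟩
  let z : LinearMap.ker p := HB.ev (K := K) (A := A) (Y := X) (X := LinearMap.ker p) (ψ 1) x
  change p (s.ev x - (z : F)) = x
  rw [map_sub]
  have h5 : p (z : F) = 0 := z.2
  rw [h5, sub_zero]
  exact LinearMap.congr_fun hs0 x

end Split

section Retr

variable {A : Type} [Ring A] {X F : Type} [AddCommGroup X] [AddCommGroup F] [Module A X]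
  [Module A F]

theorem split_of_retr (p : F →ₗ[A] X) (hp : Function.Surjective p)
    (ρ : F →ₗ[A] LinearMap.ker p) (hρ : ∀ x : LinearMap.ker p, ρ x = x) :
    ∃ t : X →ₗ[A] F, p ∘ₗ t = LinearMap.id := by
  have hk : LinearMap.ker p ≤ LinearMap.ker (LinearMap.id - (LinearMap.ker p).subtype ∘ₗ ρ) := by
    intro x hx
    rw [LinearMap.mem_ker, LinearMap.sub_apply, LinearMap.id_apply, sub_eq_zero]
    exact (congrArg Subtype.val (hρ ⟨x, hx⟩)).symm
  refine ⟨(Submodule.liftQ (LinearMap.ker p) _ hk) ∘ₗ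
    (p.quotKerEquivOfSurjective hp).symm.toLinearMap, LinearMap.ext fun x => ?_⟩
  obtain ⟨y, rfl⟩ := hp x
  have h2 : (p.quotKerEquivOfSurjective hp).symm (p y) = Submodule.Quotient.mk y := by
    rw [LinearEquiv.symm_apply_eq]
    rfl
  change p ((Submodule.liftQ (LinearMap.ker p) _ hk)
    ((p.quotKerEquivOfSurjective hp).symm (p y))) = p y
  rw [h2]
  change p (y - (ρ y : F)) = p y
  rw [map_sub]
  have h3 : p (ρ y : F) = 0 := (ρ y).2
  rw [h3, sub_zero]

end Retr

section Main

variable {K A : Type} [Field K] [Ring A] [Algebra K A] [FiniteDimensional K A]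

variable (K) in
include K in
/-- over a self-injective finite-dimensional algebra finite projective dimension means
projective -/
theorem proj_of_selfinj (hA : Module.Injective A A) (n : ℕ) :
    ∀ (X : Type) [AddCommGroup X] [Module A X] [Module.Finite A X],
      HasProjectiveDimensionLT (ModuleCat.of A X) (n + 1) → Module.Projective A X := by
  have hN : IsNoetherianRing A := isNoeth K A
  induction n with
  | zero =>
    intro X _ _ _ hX
    have hpr : Projective (ModuleCat.of A X) := projective_iff_hasProjectiveDimensionLT_one.mpr hX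
    exact (IsProjective.iff_projective X).mpr hpr
  | succ n ih =>
    intro X _ _ _ hX
    obtain ⟨m, p, hp⟩ := exists_pres (A := A) X
    have hex : Function.Exact (LinearMap.ker p).subtype p := LinearMap.exact_subtype_ker_map p
    have hS := sc_shortExact (A := ModuleCat.of A (LinearMap.ker p))
      (B := ModuleCat.of A (Fin m → A)) (C := ModuleCat.of A X)
      (LinearMap.ker p).subtype p (LinearMap.ker p).injective_subtype hex hp
    have hF : Projective (ModuleCat.of A (Fin m → A)) :=
      (IsProjective.iff_projective (Fin m → A)).mp inferInstance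
    have hX' : HasProjectiveDimensionLT (ModuleCat.of A (LinearMap.ker p)) (n + 1) :=
      (hS.hasProjectiveDimensionLT_X₃_iff n hF).mp hX
    have hpr : Module.Projective A (LinearMap.ker p) := ih _ hX'
    have hfin : Module.Finite A (LinearMap.ker p) := inferInstance
    obtain ⟨r, q, hq⟩ := exists_pres (A := A) (LinearMap.ker p)
    obtain ⟨σ, hσ⟩ := Module.projective_lifting_property q LinearMap.id hq
    have hinjp : Module.Injective A (Fin r → A) := inferInstance
    obtain ⟨g, hg⟩ := hinjp.out (LinearMap.ker p).subtype (LinearMap.ker p).injective_subtype σ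
    let ρ : (Fin m → A) →ₗ[A] LinearMap.ker p := q ∘ₗ g
    have hρ : ∀ x : LinearMap.ker p, ρ x = x := by
      intro x
      change q (g x) = x
      have h1 : g (x : Fin m → A) = σ x := hg x
      rw [h1]
      exact LinearMap.congr_fun hσ x
    obtain ⟨t, ht⟩ := split_of_retr p hp ρ hρ
    exact Module.Projective.of_split t p ht

/-- the main statement -/
theorem projective_of_van [Module (A ⊗[K] Aᵐᵒᵖ) A]
    (hc : ∀ (a : A) (b : Aᵐᵒᵖ) (x : A), (a ⊗ₜ[K] b) • x = a * x * unop b)
    (hv : VanE K A (A ⊗[K] Aᵐᵒᵖ))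
    (X : Type) [AddCommGroup X] [Module A X] [Module.Finite A X] (n m : ℕ)
    (hpd : HasProjectiveDimensionLT (ModuleCat.of A X) (n + 1))
    (hid : HasInjectiveDimensionLT (ModuleCat.of A X) (m + 1)) : Module.Projective A X := by
  have hN : IsNoetherianRing A := isNoeth K A
  let _ : Module K X := Module.compHom X (algebraMap K A)
  have hst : IsScalarTower K A X := ⟨fun c r x => by
    rw [Algebra.smul_def, mul_smul]
    rfl⟩
  obtain ⟨r, p, hp⟩ := exists_pres (A := A) X
  have hpdker : ∃ n', HasProjectiveDimensionLT (ModuleCat.of A (LinearMap.ker p)) (n' + 1) := by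
    have hex : Function.Exact (LinearMap.ker p).subtype p := LinearMap.exact_subtype_ker_map p
    have hS := sc_shortExact (A := ModuleCat.of A (LinearMap.ker p))
      (B := ModuleCat.of A (Fin r → A)) (C := ModuleCat.of A X)
      (LinearMap.ker p).subtype p (LinearMap.ker p).injective_subtype hex hp
    have hF : Projective (ModuleCat.of A (Fin r → A)) :=
      (IsProjective.iff_projective (Fin r → A)).mp inferInstance
    refine ⟨n, (hS.hasProjectiveDimensionLT_X₃_iff n hF).mp ?_⟩
    exact hasProjectiveDimensionLT_of_ge _ (n + 1) (n + 2) (by omega)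
  obtain ⟨n', hn'⟩ := hpdker
  have h1 : VanE K A (HB K A (QD K A) (LinearMap.ker p)) :=
    van_pd (QD K A) (van_base hv) n' (LinearMap.ker p) hn'
  have h2 : VanE K A (HB K A X (LinearMap.ker p)) :=
    van_id (LinearMap.ker p) h1 m X hid
  obtain ⟨t, ht⟩ := split_of_van hc p hp h2
  exact Module.Projective.of_split t p ht

end Main

end Run7.h692
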